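import Mathlib

/-!
# Triangulated dilation surfaces, their moduli space, and the `SL₂(ℝ)`-action

A triangulable dilation surface is a gluing of Euclidean triangles along their sides by dilations
`z ↦ a z + b` (`a > 0`), the cone points being the vertices.  We describe it by

* a finite set `F` of triangles; the `j`-th side of the triangle `t` is `(t, j)`, `j : Fin 3`, the
  sides `(t,0), (t,1), (t,2)` following each other counterclockwise; `(t, j)` also denotes the
  corner of `t` at which the side `(t, j)` starts;
* the vectors `v (t, j) : ℂ` of the sides, up to rescaling each triangle;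
* the pairing `glue` of the sides.

Two triangulated surfaces are identified when they differ by relabelling and rescaling triangles and
by flips of a diagonal of a strictly convex quadrilateral: two geodesic triangulations (with the same
vertices, the cone points) of the same surface are related by flips.
-/

noncomputable section

namespace Run7.h669.Dil

/-- Sides (and corners) of the triangles of `F`. -/
abbrev Edge (F : Type*) := F × Fin 3

/-- The side following `x` in its triangle. -/
def nxt {F : Type*} (x : Edge F) : Edge F := (x.1, x.2 + 1)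

/-- The side preceding `x` in its triangle. -/
def prv {F : Type*} (x : Edge F) : Edge F := (x.1, x.2 + 2)

/-- The cross product (oriented area) of two plane vectors. -/
def cross (z w : ℂ) : ℝ := z.re * w.im - z.im * w.re

/-- A triangulated dilation surface with set of triangles `F`. -/
structure DSurf (F : Type*) where
  /-- the pairing of the sides -/
  glue : Edge F → Edge F
  /-- the vectors of the sides -/
  v : Edge F → ℂ
  glue_glue : ∀ x, glue (glue x) = x
  glue_ne : ∀ x, glue x ≠ x
  /-- the surface is connected -/
  conn : ∀ s t : F, Relation.ReflTransGen (fun a b => ∃ i j, glue (a, i) = (b, j)) s t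
  /-- the sides of a triangle close up -/
  closed : ∀ t : F, v (t, 0) + v (t, 1) + v (t, 2) = 0
  /-- the triangles are nondegenerate and positively oriented -/
  pos : ∀ t : F, 0 < cross (v (t, 0)) (v (t, 1))
  /-- paired sides are identified by a dilation (their vectors are negative multiples) -/
  par : ∀ x, ∃ s : ℝ, 0 < s ∧ v (glue x) = -((s : ℂ) * v x)
  /-- the dilation holonomy around each vertex is trivial, that is, each vertex is a cone point:
  there is a choice `h` of local scales at the corners which is compatible with the gluings.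
  (The corner `x` and the corner `nxt (glue x)` are identified, and lengths are multiplied by
  `‖v (glue x)‖ / ‖v x‖` when one passes from the triangle of `x` to that of `glue x`.) -/
  vert : ∃ h : Edge F → ℝ, (∀ x, 0 < h x) ∧
    ∀ x, h (nxt (glue x)) * ‖v x‖ = h x * ‖v (glue x)‖

namespace DSurf

variable {F : Type*}

/-- For a fixed pairing, the surface depends continuously on the vectors of the sides. -/
instance : TopologicalSpace (DSurf F) :=
  TopologicalSpace.induced (fun P : DSurf F => P.v) inferInstance ⊓
    TopologicalSpace.induced (fun P : DSurf F => P.glue) ⊥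

/-- The vertices (cone points): the corners `x` and `glue (prv x)` are neighbouring corners around
the same vertex. -/
def Vertex (P : DSurf F) : Type _ := Quot fun x y : Edge F => y = P.glue (prv x)

/-- The interior angle of a triangle at the corner `x`. -/
def cornerAngle (P : DSurf F) (x : Edge F) : ℝ :=
  InnerProductGeometry.angle (P.v x) (-P.v (prv x))

open Classical in
/-- The cone angle at a vertex: the sum of the angles of all corners at this vertex. -/
def coneAngle [Fintype F] (P : DSurf F) (q : P.Vertex) : ℝ :=
  ∑ x : Edge F, if Quot.mk _ x = q then P.cornerAngle x else 0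

/-- The surface has genus `g` and its cone angles are `2π κ₁, …, 2π κₙ`.
The first condition is Euler's formula `V - E + F = 2 - 2 g` with `V = κ.length`, `E = 3 F / 2`. -/
def InStratum [Fintype F] (P : DSurf F) (g : ℕ) (κ : List ℕ) : Prop :=
  2 * κ.length + 4 * g = Fintype.card F + 4 ∧
    ∃ e : P.Vertex ≃ Fin κ.length, ∀ q : P.Vertex,
      P.coneAngle q = 2 * Real.pi * (κ.get (e q) : ℝ)

end DSurf

/-- Relabelling and rescaling of the triangles: the triangle `t` of `P` corresponds to the triangle
`e t` of `Q`, the numbering of its sides is rotated by `r t`, and it is rescaled by `c t > 0`. -/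
def Relabel {F F' : Type*} (P : DSurf F) (Q : DSurf F') : Prop :=
  ∃ (e : F ≃ F') (r : F → Fin 3) (c : F → ℝ), (∀ t, 0 < c t) ∧
    (∀ x y : Edge F, P.glue x = y → Q.glue (e x.1, x.2 + r x.1) = (e y.1, y.2 + r y.1)) ∧
    ∀ x : Edge F, Q.v (e x.1, x.2 + r x.1) = (c x.1 : ℂ) * P.v x

open Classical in
/-- How the four outer sides of the quadrilateral formed by the triangles of `x` and `y` are
redistributed by the flip of their common side. -/
def flipPerm {F : Type*} (x y z : Edge F) : Edge F :=
  if z = nxt x then prv x
  else if z = prv x then nxt y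
  else if z = nxt y then prv y
  else if z = prv y then nxt x
  else z

/-- `Q` is obtained from `P` by flipping the side `x` (paired with `y = P.glue x`): the triangles of
`x` and `y` are different and scaled so that `x` and `y` have the same length, they form a strictly
convex quadrilateral, and its diagonal `x` is replaced by the other diagonal. -/
def Flip {F : Type*} (P Q : DSurf F) (x : Edge F) : Prop :=
  ∃ y, P.glue x = y ∧ x.1 ≠ y.1 ∧ P.v y = -P.v x ∧
    0 < cross (P.v (prv x)) (P.v (nxt y)) ∧ 0 < cross (P.v (prv y)) (P.v (nxt x)) ∧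
    Q.glue x = y ∧ Q.v x = P.v (prv x) + P.v (nxt y) ∧ Q.v y = -(P.v (prv x) + P.v (nxt y)) ∧
    ∀ z, z ≠ x → z ≠ y →
      Q.glue (flipPerm x y z) = flipPerm x y (P.glue z) ∧ Q.v (flipPerm x y z) = P.v z

/-- The elementary identifications between triangulated dilation surfaces. -/
inductive Move : (Σ N : ℕ, DSurf (Fin N)) → (Σ N : ℕ, DSurf (Fin N)) → Prop
  | relabel {N : ℕ} (P Q : DSurf (Fin N)) : Relabel P Q → Move ⟨N, P⟩ ⟨N, Q⟩
  | flip {N : ℕ} (P Q : DSurf (Fin N)) (x : Edge (Fin N)) : Flip P Q x → Move ⟨N, P⟩ ⟨N, Q⟩

/-- The moduli space of triangulable dilation surfaces (of all genera and cone angles), with the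
quotient topology. -/
def Moduli : Type := Quot Move

instance : TopologicalSpace Moduli := inferInstanceAs (TopologicalSpace (Quot Move))

/-- The class of a triangulated dilation surface. -/
def Moduli.mk {N : ℕ} (P : DSurf (Fin N)) : Moduli := Quot.mk Move ⟨N, P⟩

/-- The triangulable locus of the stratum of genus `g` with cone angles `2π κ₁, …, 2π κₙ`. -/
def Triangulable (g : ℕ) (κ : List ℕ) : Set Moduli :=
  {x | ∃ (N : ℕ) (P : DSurf (Fin N)), P.InStratum g κ ∧ Moduli.mk P = x}

/-! ### The action of `SL₂(ℝ)` -/

/-- The group `SL₂(ℝ)`. -/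
abbrev SL2 := Matrix.SpecialLinearGroup (Fin 2) ℝ

/-- The linear action of `SL₂(ℝ)` on the plane. -/
def lin (A : SL2) (z : ℂ) : ℂ :=
  ⟨A 0 0 * z.re + A 0 1 * z.im, A 1 0 * z.re + A 1 1 * z.im⟩

theorem lin_add (A : SL2) (z w : ℂ) : lin A (z + w) = lin A z + lin A w := by
  apply Complex.ext <;> simp [lin] <;> ring

theorem lin_mul (A : SL2) (s : ℝ) (z : ℂ) : lin A ((s : ℂ) * z) = (s : ℂ) * lin A z := by
  apply Complex.ext <;> simp [lin] <;> ring

theorem lin_neg (A : SL2) (z : ℂ) : lin A (-z) = -lin A z := by
  apply Complex.ext <;> simp [lin] <;> ring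

theorem lin_zero (A : SL2) : lin A 0 = 0 := by
  apply Complex.ext <;> simp [lin]

theorem lin_sub (A : SL2) (z w : ℂ) : lin A (z - w) = lin A z - lin A w := by
  apply Complex.ext <;> simp [lin] <;> ring

theorem cross_lin (A : SL2) (z w : ℂ) : cross (lin A z) (lin A w) = cross z w := by
  have h := A.det_coe
  rw [Matrix.det_fin_two] at h
  simp only [cross, lin]
  linear_combination (z.re * w.im - z.im * w.re) * h

/-- `SL₂(ℝ)` acts on triangulated surfaces through its linear action on the sides of the
triangles. -/
def DSurf.act {F : Type*} (A : SL2) (P : DSurf F) : DSurf F where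
  glue := P.glue
  v := fun x => lin A (P.v x)
  glue_glue := P.glue_glue
  glue_ne := P.glue_ne
  conn := P.conn
  closed := fun t => by rw [← lin_add, ← lin_add, P.closed, lin_zero]
  pos := fun t => by rw [cross_lin]; exact P.pos t
  par := fun x => by
    obtain ⟨s, hs, h⟩ := P.par x
    exact ⟨s, hs, by rw [h, lin_neg, lin_mul]⟩
  vert := by
    obtain ⟨h, hpos, hh⟩ := P.vert
    refine ⟨h, hpos, fun x => ?_⟩
    obtain ⟨s, hs, hsx⟩ := P.par x
    have h1 := hh x
    rw [hsx, norm_neg, norm_mul, Complex.norm_real, Real.norm_of_nonneg hs.le] at h1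
    rw [hsx, lin_neg, lin_mul, norm_neg, norm_mul, Complex.norm_real, Real.norm_of_nonneg hs.le]
    have hv : ‖P.v x‖ ≠ 0 := by
      rw [norm_ne_zero_iff]
      intro h0
      have hpx := P.pos x.1
      have hc := P.closed x.1
      obtain ⟨t, j⟩ := x
      fin_cases j
      · simp only [Fin.zero_eta] at h0
        simp [h0, cross] at hpx
      · simp only [Fin.mk_one] at h0
        simp [h0, cross] at hpx
      · simp only [Fin.reduceFinMk] at h0
        have h3 : P.v (t, 0) = -P.v (t, 1) := by
          have : P.v (t, 0) + P.v (t, 1) = 0 := by simpa [h0] using hc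
          exact eq_neg_of_add_eq_zero_left this
        simp [h3, cross] at hpx
        nlinarith
    have h2 : h (nxt (P.glue x)) = h x * s := by
      have : (h (nxt (P.glue x)) - h x * s) * ‖P.v x‖ = 0 := by linarith
      rcases mul_eq_zero.1 this with h4 | h4
      · linarith
      · exact absurd h4 hv
    rw [h2]; ring

theorem Relabel.act {F F' : Type*} {P : DSurf F} {Q : DSurf F'} (h : Relabel P Q) (A : SL2) :
    Relabel (P.act A) (Q.act A) := by
  obtain ⟨e, r, c, hc, hg, hv⟩ := h
  exact ⟨e, r, c, hc, hg, fun x => by
    show lin A (Q.v _) = _ * lin A _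
    rw [hv, lin_mul]⟩

theorem Flip.act {F : Type*} {P Q : DSurf F} {x : Edge F} (h : Flip P Q x) (A : SL2) :
    Flip (P.act A) (Q.act A) x := by
  obtain ⟨y, h1, h2, h3, h4, h5, h6, h7, h8, h9⟩ := h
  refine ⟨y, h1, h2, ?_, ?_, ?_, h6, ?_, ?_, fun z hz hz' => ⟨(h9 z hz hz').1, ?_⟩⟩
  · show lin A _ = -lin A _
    rw [h3, lin_neg]
  · show 0 < cross (lin A _) (lin A _)
    rwa [cross_lin]
  · show 0 < cross (lin A _) (lin A _)
    rwa [cross_lin]
  · show lin A _ = lin A _ + lin A _
    rw [h7, lin_add]
  · show lin A _ = -(lin A _ + lin A _)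
    rw [h8, lin_neg, lin_add]
  · show lin A _ = lin A _
    rw [(h9 z hz hz').2]

theorem lin_one (z : ℂ) : lin 1 z = z := by
  apply Complex.ext <;> simp [lin]

theorem lin_lin (A B : SL2) (z : ℂ) : lin (A * B) z = lin A (lin B z) := by
  apply Complex.ext <;> simp [lin, Matrix.mul_apply, Fin.sum_univ_two] <;> ring

/-- The action of `SL₂(ℝ)` on the moduli space. -/
def Moduli.act (A : SL2) : Moduli → Moduli :=
  Quot.map (fun s : Σ N : ℕ, DSurf (Fin N) => ⟨s.1, s.2.act A⟩) (by
    rintro _ _ (⟨P, Q, h⟩ | ⟨P, Q, x, h⟩)
    · exact Move.relabel _ _ (h.act A)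
    · exact Move.flip _ _ x (h.act A))

instance : MulAction SL2 Moduli where
  smul := Moduli.act
  one_smul := by
    rintro ⟨N, P⟩
    show Moduli.mk (P.act 1) = Moduli.mk P
    congr 1
    simp only [DSurf.act, lin_one]
  mul_smul := by
    rintro A B ⟨N, P⟩
    show Moduli.mk (P.act (A * B)) = Moduli.mk ((P.act B).act A)
    congr 1
    simp only [DSurf.act, lin_lin]

end Run7.h669.Dil
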