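import Pool.Agent.Run7.h669.Dil.OpenFlip

/-!
# A one-parameter family of surfaces of genus four

The surface with parameter `q > 1` is a triple cover of the Hopf torus `ℂ* / ⟨q⟩`, branched over the
classes of the three cube roots of unity.
-/

noncomputable section

namespace Run7.h669.Dil

open Filter Topology

/-- The eighteen triangles: `(i, m, false)` and `(i, m, true)` tile the `i`-th sector. -/
abbrev T := Fin 3 × Fin 3 × Bool

/-- The pairing of the sides. -/
def g0 (x : Edge T) : Edge T :=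
  if x.1.2.2 then
    ![((x.1.1, x.1.2.1 + 1, false), 2), ((x.1.1 + 1, 2 - x.1.2.1, false), 0),
      ((x.1.1, x.1.2.1, false), 1)] x.2
  else
    ![((x.1.1 - 1, 2 - x.1.2.1, true), 1), ((x.1.1, x.1.2.1, true), 2),
      ((x.1.1, x.1.2.1 - 1, true), 0)] x.2

/-- The index of the ray containing a corner. -/
def lev (x : Edge T) : Fin 3 :=
  if x.1.2.2 then ![x.1.1, x.1.1 + 1, x.1.1 + 1] x.2 else ![x.1.1, x.1.1, x.1.1 + 1] x.2

theorem g0_g0 : ∀ x : Edge T, g0 (g0 x) = x := by decide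

theorem g0_ne : ∀ x : Edge T, g0 x ≠ x := by decide

theorem lev_nxt_g0 : ∀ x : Edge T, lev (nxt (g0 x)) = lev x := by decide

/-- The distance of a corner to the apex. -/
def h0 (q : ℝ) (x : Edge T) : ℝ := if x.1.2.2 then ![q, q, 1] x.2 else ![1, q, 1] x.2

/-- The ratio of the lengths of paired sides. -/
def ratio (q : ℝ) (x : Edge T) : ℝ := if x.1.2.2 then ![1 / q, 1, 1] x.2 else ![1, 1, q] x.2

theorem h0_pos {q : ℝ} (hq : 0 < q) (x : Edge T) : 0 < h0 q x := by
  obtain ⟨⟨i, m, k⟩, j⟩ := x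
  cases k <;> fin_cases j <;> simp [h0, hq]

theorem ratio_pos {q : ℝ} (hq : 0 < q) (x : Edge T) : 0 < ratio q x := by
  obtain ⟨⟨i, m, k⟩, j⟩ := x
  cases k <;> fin_cases j <;> simp [ratio, hq]

theorem h0_g0 {q : ℝ} (hq : q ≠ 0) (x : Edge T) : h0 q (nxt (g0 x)) = ratio q x * h0 q x := by
  obtain ⟨⟨i, m, k⟩, j⟩ := x
  cases k <;> fin_cases j <;> simp [h0, g0, nxt, ratio, hq]

theorem ratio_g0 {q : ℝ} (hq : q ≠ 0) (x : Edge T) : ratio q (g0 x) * ratio q x = 1 := by
  obtain ⟨⟨i, m, k⟩, j⟩ := x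
  cases k <;> fin_cases j <;> simp [g0, ratio, hq]

/-- The cube roots of unity. -/
def W (i : Fin 3) : ℂ := ![⟨1, 0⟩, ⟨-1 / 2, √3 / 2⟩, ⟨-1 / 2, -(√3 / 2)⟩] i

theorem sqrt3_sq : √3 * √3 = (3 : ℝ) := Real.mul_self_sqrt (by norm_num)

theorem W_add (i j : Fin 3) : W (i + j) = W i * W j := by
  have h := sqrt3_sq
  fin_cases i <;> fin_cases j <;> apply Complex.ext <;> simp [W] <;> nlinarith

theorem W_zero : W 0 = 1 := by
  apply Complex.ext <;> simp [W]

theorem W_ne (i : Fin 3) : W i ≠ 0 := by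
  intro h
  have h2 := congrArg Complex.re h
  fin_cases i <;> simp [W] at h2

theorem cross_W (i : Fin 3) : cross (W i) (W (i + 1)) = √3 / 2 := by
  have h := sqrt3_sq
  fin_cases i
  · simp [W, cross]
  · simp [W, cross]; nlinarith
  · simp [W, cross]

/-- The position of a corner. -/
def Z0 (q : ℝ) (x : Edge T) : ℂ := (h0 q x : ℂ) * W (lev x)

/-- The vector of a side. -/
def v0 (q : ℝ) (x : Edge T) : ℂ := Z0 q (nxt x) - Z0 q x

theorem Z0_g0 {q : ℝ} (hq : q ≠ 0) (x : Edge T) :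
    Z0 q (nxt (g0 x)) = (ratio q x : ℂ) * Z0 q x := by
  rw [Z0, Z0, lev_nxt_g0, h0_g0 hq]
  push_cast
  ring

theorem Z0_g0' {q : ℝ} (hq : q ≠ 0) (x : Edge T) :
    Z0 q (g0 x) = (ratio q x : ℂ) * Z0 q (nxt x) := by
  have h1 := Z0_g0 hq (g0 x)
  rw [g0_g0] at h1
  have h2 : ((ratio q (g0 x) : ℝ) : ℂ) * ((ratio q x : ℝ) : ℂ) = 1 := by
    rw [← Complex.ofReal_mul, ratio_g0 hq, Complex.ofReal_one]
  rw [h1]
  linear_combination (-(Z0 q (g0 x))) * h2

theorem v0_g0 {q : ℝ} (hq : q ≠ 0) (x : Edge T) : v0 q (g0 x) = -((ratio q x : ℂ) * v0 q x) := by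
  rw [v0, v0, Z0_g0 hq, Z0_g0' hq]
  ring

theorem area0 {q : ℝ} (t : T) : cross (v0 q (t, 0)) (v0 q (t, 1)) =
    (if t.2.2 then q * (q - 1) else (q - 1)) * (√3 / 2) := by
  obtain ⟨i, m, k⟩ := t
  have h := cross_W i
  cases k
  · simp only [v0, Z0, nxt, h0, lev]
    simp
    rw [← h]
    simp [cross]
    ring
  · simp only [v0, Z0, nxt, h0, lev]
    simp
    rw [← h]
    simp [cross]
    ring

theorem adj_all (R : T → T → Prop) (h1 : ∀ i m, R (i, m, false) (i, m, true))
    (h2 : ∀ i m, R (i, m, true) (i, m + 1, false))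
    (h3 : ∀ i m, R (i, m, true) (i + 1, 2 - m, false)) (s t : T) : Relation.ReflTransGen R s t := by
  have f1 : ∀ i m, Relation.ReflTransGen R (i, m, false) (i, m + 1, false) := fun i m =>
    (Relation.ReflTransGen.single (h1 i m)).tail (h2 i m)
  have f2 : ∀ i m m', Relation.ReflTransGen R (i, m, false) (i, m', false) := by
    intro i m m'
    have e : m' = m ∨ m' = m + 1 ∨ m' = m + 1 + 1 := by
      revert m m'; decide
    rcases e with rfl | rfl | rfl
    · exact .refl
    · exact f1 i m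
    · exact (f1 i m).trans (f1 i _)
  have f3 : ∀ i m m', Relation.ReflTransGen R (i, m, false) (i + 1, m', false) := fun i m m' =>
    ((Relation.ReflTransGen.single (h1 i m)).tail (h3 i m)).trans (f2 _ _ _)
  have f4 : ∀ i i' m m', Relation.ReflTransGen R (i, m, false) (i', m', false) := by
    intro i i' m m'
    have e : i' = i ∨ i' = i + 1 ∨ i' = i + 1 + 1 := by
      revert i i'; decide
    rcases e with rfl | rfl | rfl
    · exact f2 _ _ _
    · exact f3 _ _ _
    · exact (f3 i m m').trans (f3 _ m' m')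
  have f5 : ∀ s i m, Relation.ReflTransGen R s (i, m, false) := by
    rintro ⟨i', m', k⟩ i m
    cases k
    · exact f4 _ _ _ _
    · exact (Relation.ReflTransGen.single (h2 i' m')).trans (f4 _ _ _ _)
  obtain ⟨i, m, k⟩ := t
  cases k
  · exact f5 _ _ _
  · exact (f5 s i m).tail (h1 i m)

/-- The surface with parameter `q`. -/
def Pq (q : ℝ) (hq : 1 < q) : DSurf T where
  glue := g0
  v := v0 q
  glue_glue := g0_g0
  glue_ne := g0_ne
  conn := adj_all _ (fun i m => ⟨1, 2, by simp [g0]⟩) (fun i m => ⟨0, 2, by simp [g0]⟩)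
    (fun i m => ⟨1, 0, by simp [g0]⟩)
  closed := fun t => by
    rw [sum_rot (v0 q) (t, 0)]
    simp only [v0, nxt_nxt, nxt_prv]
    ring
  pos := fun t => by
    rw [area0]
    have h3 : 0 < √3 := Real.sqrt_pos.2 (by norm_num)
    have h4 : 0 < q - 1 := by linarith
    have h5 : 0 < q := by linarith
    split_ifs <;> positivity
  par := fun x => ⟨ratio q x, ratio_pos (by linarith) x, v0_g0 (by linarith) x⟩
  vert := by
    have h5 : 0 < q := by linarith
    refine ⟨h0 q, h0_pos h5, fun x => ?_⟩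
    rw [v0_g0 h5.ne', h0_g0 h5.ne', norm_neg, norm_mul, Complex.norm_real,
      Real.norm_of_nonneg (ratio_pos h5 x).le]
    ring

end Run7.h669.Dil
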