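import Pool.Agent.Run7.h669.Dil.Loop

/-!
# Closed geodesics are not affected by flips
-/

noncomputable section

namespace Run7.h669.Dil

variable {F : Type*}

/-! ### States up to rotation -/

theorem St.rot3 (s : St F) : s.rot.rot.rot = s := by
  cases s
  simp only [St.rot, nxt_nxt, nxt_prv]

theorem St.rot_injective : Function.Injective (St.rot (F := F)) := by
  intro s t h
  rw [← s.rot3, ← t.rot3, h]

/-- `s` is the state `b`, seen from another side. -/
def RotEq (b s : St F) : Prop := s = b ∨ s = b.rot ∨ s = b.rot.rot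

theorem RotEq.refl (b : St F) : RotEq b b := Or.inl rfl

theorem RotEq.rot {b s : St F} (h : RotEq b s) : RotEq b s.rot := by
  rcases h with rfl | rfl | rfl
  · exact Or.inr (Or.inl rfl)
  · exact Or.inr (Or.inr rfl)
  · exact Or.inl (St.rot3 b)

theorem RotEq.mv {b s : St F} (h : RotEq b s) (w : ℂ) : RotEq (b.mv w) (s.mv w) := by
  rcases h with rfl | rfl | rfl
  · exact Or.inl rfl
  · exact Or.inr (Or.inl rfl)
  · exact Or.inr (Or.inr rfl)

theorem RotEq.aff {b s : St F} (h : RotEq b s) (l : ℝ) (β : ℂ) :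
    RotEq (b.aff l β) (s.aff l β) := by
  rcases h with rfl | rfl | rfl
  · exact Or.inl rfl
  · exact Or.inr (Or.inl rfl)
  · exact Or.inr (Or.inr rfl)

theorem St.inTri_rot {s : St F} : s.rot.InTri ↔ s.InTri := by
  simp only [St.InTri, St.rot]
  tauto

theorem RotEq.inTri {b s : St F} (h : RotEq b s) : s.InTri ↔ b.InTri := by
  rcases h with rfl | rfl | rfl
  · exact Iff.rfl
  · exact St.inTri_rot
  · exact St.inTri_rot.trans St.inTri_rot

theorem RotEq.valid {P : DSurf F} {b s : St F} (h : RotEq b s) (hb : b.Valid P) : s.Valid P := by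
  rcases h with rfl | rfl | rfl
  · exact hb
  · exact hb.rot
  · exact hb.rot.rot

theorem RotEq.valid' {P : DSurf F} {b s : St F} (h : RotEq b s) (hb : s.Valid P) : b.Valid P := by
  rcases h with rfl | rfl | rfl
  · exact hb
  · rw [← b.rot3]; exact hb.rot.rot
  · rw [← b.rot3]; exact hb.rot

theorem RotEq.chain {P : DSurf F} {χ : ℂ} {b s : St F} (h : RotEq b s) (hb : b.Valid P) :
    Chain P χ b s ∧ Chain P χ s b := by
  have h1 := Step.rot (χ := χ) b hb
  have h2 := Step.rot (χ := χ) b.rot hb.rot
  have h3 := Step.rot (χ := χ) b.rot.rot hb.rot.rot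
  rw [b.rot3] at h3
  rcases h with rfl | rfl | rfl
  · exact ⟨.refl, .refl⟩
  · exact ⟨.single h1, (Relation.ReflTransGen.single h2).tail h3⟩
  · exact ⟨(Relation.ReflTransGen.single h1).tail h2, .single h3⟩

theorem RotEq.fst {b s : St F} (h : RotEq b s) : s.x.1 = b.x.1 := by
  rcases h with rfl | rfl | rfl <;> rfl

theorem RotEq.unique {b b' s : St F} (h : RotEq b s) (h' : RotEq b' s) (hx : b.x = b'.x) :
    b = b' := by
  have n1 := nxt_ne b.x
  have n2 := prv_ne b.x
  have n3 := nxt_ne_prv b.x
  rcases h with rfl | rfl | rfl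
  · rcases h' with h' | h' | h'
    · exact h'
    · exfalso
      have := congrArg St.x h'
      simp only [St.rot, ← hx] at this
      exact n1 this.symm
    · exfalso
      have := congrArg St.x h'
      simp only [St.rot, ← hx, nxt_nxt] at this
      exact n2 this.symm
  · rcases h' with h' | h' | h'
    · exfalso
      have := congrArg St.x h'
      simp only [St.rot, ← hx] at this
      exact n1 this
    · exact St.rot_injective h'
    · exfalso
      have := congrArg St.x h'
      simp only [St.rot, ← hx, nxt_nxt] at this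
      exact n3 this
  · rcases h' with h' | h' | h'
    · exfalso
      have := congrArg St.x h'
      simp only [St.rot, ← hx, nxt_nxt] at this
      exact n2 this
    · exfalso
      have := congrArg St.x h'
      simp only [St.rot, ← hx, nxt_nxt] at this
      exact n3 this.symm
    · exact St.rot_injective (St.rot_injective h')

theorem exists_rotEq (s : St F) (e : Edge F) (h : s.x.1 = e.1) : ∃ b : St F, b.x = e ∧ RotEq b s := by
  rcases edge_cases h with h | h | h
  · exact ⟨s, h, RotEq.refl s⟩
  · refine ⟨s.rot.rot, ?_, Or.inr (Or.inl (St.rot3 s).symm)⟩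
    simp only [St.rot, h, nxt_nxt, nxt_prv]
  · refine ⟨s.rot, ?_, Or.inr (Or.inr (St.rot3 s).symm)⟩
    simp only [St.rot, h, nxt_prv]

/-! ### Plane geometry -/

theorem eq_zero_of_cross {p q w : ℂ} (h : cross p q ≠ 0) (h1 : cross p w = 0)
    (h2 : cross q w = 0) : w = 0 := by
  simp only [cross] at h h1 h2
  have e1 : (p.re * q.im - p.im * q.re) * w.re = 0 := by linear_combination q.re * h1 - p.re * h2
  have e2 : (p.re * q.im - p.im * q.re) * w.im = 0 := by linear_combination q.im * h1 - p.im * h2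
  apply Complex.ext
  · exact (mul_eq_zero.1 e1).resolve_left h
  · exact (mul_eq_zero.1 e2).resolve_left h

/-- A placed triangle is positively oriented. -/
theorem St.Placed.area_pos {P : DSurf F} {s : St F} (h : s.Placed P) :
    0 < Dil.cross (s.b - s.a) (s.c - s.b) := by
  obtain ⟨k, hk, h1, h2, -⟩ := h
  rw [h1, h2, cross_mul_left, cross_mul_right]
  have := P.area_pos s.x
  rw [DSurf.area] at this
  positivity

/-- A point of the triangle lying on the line of the first side is on this side. -/
theorem exists_seg {s : St F} (hA : 0 < cross (s.b - s.a) (s.c - s.b)) (h : s.InTri)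
    (h0 : cross (s.b - s.a) (s.z - s.a) = 0) :
    ∃ τ : ℝ, 0 < τ ∧ τ < 1 ∧ s.z = s.a + (τ : ℂ) * (s.b - s.a) := by
  obtain ⟨x, a, b, c, z⟩ := s
  obtain ⟨-, i2, i3, i4, i5, i6⟩ := h
  simp only at *
  set A := cross (b - a) (c - b) with hAdef
  have hτ : z = a + ((cross (a - c) (z - c) / A : ℝ) : ℂ) * (b - a) := by
    have key : ((A : ℝ) : ℂ) * (z - a) = ((cross (a - c) (z - c) : ℝ) : ℂ) * (b - a) := by
      simp only [hAdef]
      simp only [cross] at h0 ⊢
      apply Complex.ext
      · simp at h0 ⊢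
        linear_combination (c.re - a.re) * h0
      · simp at h0 ⊢
        linear_combination (c.im - a.im) * h0
    have hA' : (A : ℂ) ≠ 0 := Complex.ofReal_ne_zero.2 hA.ne'
    push_cast
    field_simp
    linear_combination key
  refine ⟨_, ?_, ?_, hτ⟩
  · rcases (div_nonneg i3 hA.le).lt_or_eq with h | h
    · exact h
    · exfalso
      rw [← h] at hτ
      apply i4
      rw [hτ]; simp
  · have hsum : cross (a - c) (z - c) + cross (c - b) (z - b) = A := by
      have : cross (b - a) (z - a) + cross (a - c) (z - c) + cross (c - b) (z - b) = A := by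
        simp only [hAdef, cross]; simp; ring
      linarith
    have hle : cross (a - c) (z - c) / A ≤ 1 := by
      rw [div_le_one hA]; linarith
    rcases hle.lt_or_eq with h | h
    · exact h
    · exfalso
      rw [h] at hτ
      apply i5
      rw [hτ]; push_cast; ring

/-- A point in the open first side is in the triangle. -/
theorem inTri_of_seg {s : St F} (hA : 0 < cross (s.b - s.a) (s.c - s.b)) {τ : ℝ} (h0 : 0 < τ)
    (h1 : τ < 1) (hz : s.z = s.a + (τ : ℂ) * (s.b - s.a)) :
    s.InTri ∧ cross (s.b - s.a) (s.z - s.a) = 0 := by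
  obtain ⟨x, a, b, c, z⟩ := s
  simp only at *
  subst hz
  have hab : b - a ≠ 0 := by
    intro h; rw [h] at hA; simp [cross] at hA
  refine ⟨⟨?_, ?_, ?_, ?_, ?_, ?_⟩, ?_⟩
  · simp only
    rw [add_sub_cancel_left, cross_mul_right, cross_self, mul_zero]
  · simp only
    have : cross (c - b) (a + (τ : ℂ) * (b - a) - b) = (1 - τ) * cross (b - a) (c - b) := by
      simp [cross]; ring
    rw [this]
    exact mul_nonneg (by linarith) hA.le
  · simp only
    have : cross (a - c) (a + (τ : ℂ) * (b - a) - c) = τ * cross (b - a) (c - b) := by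
      simp [cross]; ring
    rw [this]
    exact mul_nonneg h0.le hA.le
  · simp only
    intro h
    have h2 : (τ : ℂ) * (b - a) = 0 := by linear_combination h
    rcases mul_eq_zero.1 h2 with h3 | h3
    · exact h0.ne' (Complex.ofReal_eq_zero.1 h3)
    · exact hab h3
  · simp only
    intro h
    have h2 : ((τ - 1 : ℝ) : ℂ) * (b - a) = 0 := by push_cast; linear_combination h
    rcases mul_eq_zero.1 h2 with h3 | h3
    · have := Complex.ofReal_eq_zero.1 h3
      linarith
    · exact hab h3
  · simp only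
    intro h
    have : cross (b - a) (c - b) = 0 := by
      rw [← h]; simp [cross]; ring
    linarith
  · rw [add_sub_cancel_left, cross_mul_right, cross_self, mul_zero]

/-- The corners of a quadrilateral, counterclockwise. -/
structure Q4 where
  a : ℂ
  b : ℂ
  c : ℂ
  d : ℂ

namespace Q4

/-- Rotating the numbering. -/
def rot (N : Q4) : Q4 := ⟨N.b, N.c, N.d, N.a⟩

/-- Strict convexity. -/
def Convex (N : Q4) : Prop :=
  0 < cross (N.b - N.a) (N.c - N.b) ∧ 0 < cross (N.c - N.b) (N.d - N.c) ∧
    0 < cross (N.d - N.c) (N.a - N.d) ∧ 0 < cross (N.a - N.d) (N.b - N.a)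

/-- The point `z` lies in the closed quadrilateral and is not a corner. -/
def Mem (N : Q4) (z : ℂ) : Prop :=
  0 ≤ cross (N.b - N.a) (z - N.a) ∧ 0 ≤ cross (N.c - N.b) (z - N.b) ∧
    0 ≤ cross (N.d - N.c) (z - N.c) ∧ 0 ≤ cross (N.a - N.d) (z - N.d) ∧
    z ≠ N.a ∧ z ≠ N.b ∧ z ≠ N.c ∧ z ≠ N.d

theorem Convex.rot {N : Q4} (h : N.Convex) : N.rot.Convex := by
  simp only [Convex, Q4.rot] at *
  tauto

theorem mem_rot {N : Q4} {z : ℂ} : N.rot.Mem z ↔ N.Mem z := by
  simp only [Mem, Q4.rot]
  tauto

/-- The position of a point with respect to the diagonal from `a` to `c`. -/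
def side (N : Q4) (z : ℂ) : ℝ := cross (N.c - N.a) (z - N.a)

theorem side_rot_rot (N : Q4) (z : ℂ) : N.rot.rot.side z = -N.side z := by
  simp [side, Q4.rot, cross]; ring

theorem inTri_iff {N : Q4} (hN : N.Convex) (x : Edge F) (z : ℂ) :
    St.InTri (⟨x, N.a, N.c, N.d, z⟩ : St F) ↔ N.Mem z ∧ 0 ≤ N.side z := by
  obtain ⟨a, b, c, d⟩ := N
  obtain ⟨n1, n2, n3, n4⟩ := hN
  simp only [St.InTri, Mem, side] at *
  constructor
  · rintro ⟨i1, i2, i3, i4, i5, i6⟩
    have hb : z ≠ b := by
      rintro rfl
      have : cross (c - a) (z - a) = -cross (z - a) (c - z) := by simp [cross]; ring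
      linarith
    have e1 : cross (d - c) (a - d) * cross (b - a) (z - a) =
        cross (a - d) (z - d) * cross (b - a) (c - b) +
          cross (c - a) (z - a) * cross (a - d) (b - a) := by
      simp [cross]; ring
    have e2 : cross (d - c) (a - d) * cross (c - b) (z - b) =
        cross (d - c) (z - c) * cross (b - a) (c - b) +
          cross (c - a) (z - a) * cross (c - b) (d - c) := by
      simp [cross]; ring
    have j1 : 0 ≤ cross (b - a) (z - a) := by
      by_contra hneg
      push Not at hneg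
      nlinarith [mul_nonneg i3 n1.le, mul_nonneg i1 n4.le, mul_pos n3 (neg_pos.2 hneg)]
    have j2 : 0 ≤ cross (c - b) (z - b) := by
      by_contra hneg
      push Not at hneg
      nlinarith [mul_nonneg i2 n1.le, mul_nonneg i1 n2.le, mul_pos n3 (neg_pos.2 hneg)]
    exact ⟨⟨j1, j2, i2, i3, i4, hb, i5, i6⟩, i1⟩
  · rintro ⟨⟨j1, j2, j3, j4, k1, k2, k3, k4⟩, i1⟩
    exact ⟨i1, j3, j4, k1, k3, k4⟩

theorem Mem.convex {N : Q4} (hN : N.Convex) {z w : ℂ} (hz : N.Mem z) (hw : N.Mem w) {τ : ℝ}
    (h0 : 0 < τ) (h1 : τ < 1) : N.Mem (z + (τ : ℂ) * (w - z)) := by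
  have lin : ∀ p q : ℂ, cross p (z + (τ : ℂ) * (w - z) - q) =
      (1 - τ) * cross p (z - q) + τ * cross p (w - q) := by
    intro p q; simp [cross]; ring
  -- a general statement about corners
  have corner : ∀ p q r : ℂ, cross (r - p) (q - r) ≠ 0 → 0 ≤ cross (r - p) (z - p) →
      0 ≤ cross (r - p) (w - p) → 0 ≤ cross (q - r) (z - r) → 0 ≤ cross (q - r) (w - r) →
      z ≠ r → z + (τ : ℂ) * (w - z) ≠ r := by
    intro p q r hne a1 a2 a3 a4 hz h
    have e1 := lin (r - p) p
    have e2 := lin (q - r) r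
    rw [h, cross_self] at e1
    rw [h, sub_self, show cross (q - r) 0 = 0 by simp [cross]] at e2
    have f1 : cross (r - p) (z - p) = 0 := by
      nlinarith [mul_nonneg (sub_nonneg.2 h1.le) a1, mul_nonneg h0.le a2]
    have f2 : cross (q - r) (z - r) = 0 := by
      nlinarith [mul_nonneg (sub_nonneg.2 h1.le) a3, mul_nonneg h0.le a4]
    have f3 : cross (r - p) (z - r) = 0 := by
      rw [← f1]; simp [cross]; ring
    exact hz (sub_eq_zero.1 (eq_zero_of_cross hne f3 f2))
  obtain ⟨a, b, c, d⟩ := N
  obtain ⟨n1, n2, n3, n4⟩ := hN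
  obtain ⟨z1, z2, z3, z4, z5, z6, z7, z8⟩ := hz
  obtain ⟨w1, w2, w3, w4, w5, w6, w7, w8⟩ := hw
  simp only at *
  have ht : 0 ≤ 1 - τ := by linarith
  refine ⟨?_, ?_, ?_, ?_, ?_, ?_, ?_, ?_⟩
  · simp only [lin]; positivity
  · simp only [lin]; positivity
  · simp only [lin]; positivity
  · simp only [lin]; positivity
  · exact corner d b a n4.ne' z4 w4 z1 w1 z5
  · exact corner a c b n1.ne' z1 w1 z2 w2 z6
  · exact corner b d c n2.ne' z2 w2 z3 w3 z7
  · exact corner c a d n3.ne' z3 w3 z4 w4 z8

end Q4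

end Run7.h669.Dil
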