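import Pool.Agent.Run7.h669.Dil.FlipSim

/-!
# Existence of flips
-/

noncomputable section

namespace Run7.h669.Dil

variable {F : Type*}

open Classical in
/-- The inverse of `flipPerm`. -/
def flipInv (x y w : Edge F) : Edge F :=
  if w = nxt x then prv y
  else if w = prv x then nxt x
  else if w = nxt y then prv x
  else if w = prv y then nxt y
  else w

section perm

variable {x y : Edge F}

theorem flipInv_nx : flipInv x y (nxt x) = prv y := if_pos rfl

theorem flipInv_px : flipInv x y (prv x) = nxt x := by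
  rw [flipInv, if_neg (nxt_ne_prv x).symm, if_pos rfl]

theorem flipInv_ny (h : x.1 ≠ y.1) : flipInv x y (nxt y) = prv x := by
  have h1 : nxt y ≠ nxt x := fun e => h (congrArg Prod.fst e).symm
  have h2 : nxt y ≠ prv x := fun e => h (congrArg Prod.fst e).symm
  rw [flipInv, if_neg h1, if_neg h2, if_pos rfl]

theorem flipInv_py (h : x.1 ≠ y.1) : flipInv x y (prv y) = nxt y := by
  have h1 : prv y ≠ nxt x := fun e => h (congrArg Prod.fst e).symm
  have h2 : prv y ≠ prv x := fun e => h (congrArg Prod.fst e).symm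
  rw [flipInv, if_neg h1, if_neg h2, if_neg (nxt_ne_prv y).symm, if_pos rfl]

theorem flipInv_out {z : Edge F} (h1 : z.1 ≠ x.1) (h2 : z.1 ≠ y.1) : flipInv x y z = z := by
  have h3 : z ≠ nxt x := by rintro rfl; exact h1 rfl
  have h4 : z ≠ prv x := by rintro rfl; exact h1 rfl
  have h5 : z ≠ nxt y := by rintro rfl; exact h2 rfl
  have h6 : z ≠ prv y := by rintro rfl; exact h2 rfl
  rw [flipInv, if_neg h3, if_neg h4, if_neg h5, if_neg h6]

theorem ne_of_fst {a b : Edge F} (h : a.1 ≠ b.1) : a ≠ b := fun e => h (congrArg Prod.fst e)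

theorem flipPerm_x (h : x.1 ≠ y.1) : flipPerm x y x = x := by
  have h1 : x ≠ nxt y := fun e => h (by rw [e]; rfl)
  have h2 : x ≠ prv y := fun e => h (by rw [e]; rfl)
  rw [flipPerm, if_neg (nxt_ne x).symm, if_neg (prv_ne x).symm, if_neg h1, if_neg h2]

theorem flipPerm_y (h : x.1 ≠ y.1) : flipPerm x y y = y := by
  have h1 : y ≠ nxt x := fun e => h (congrArg Prod.fst e).symm
  have h2 : y ≠ prv x := fun e => h (congrArg Prod.fst e).symm
  rw [flipPerm, if_neg h1, if_neg h2, if_neg (nxt_ne y).symm, if_neg (prv_ne y).symm]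

theorem flipInv_perm (h : x.1 ≠ y.1) {z : Edge F} (hx : z ≠ x) (hy : z ≠ y) :
    flipInv x y (flipPerm x y z) = z := by
  rcases edge_cases6 x y z with ⟨c1, c2⟩ | rfl | rfl | rfl | rfl | rfl | rfl
  · rw [flipPerm_out c1 c2, flipInv_out c1 c2]
  · exact absurd rfl hx
  · rw [flipPerm_nx, flipInv_px]
  · rw [flipPerm_px, flipInv_ny h]
  · exact absurd rfl hy
  · rw [flipPerm_ny h, flipInv_py h]
  · rw [flipPerm_py h, flipInv_nx]

theorem flipPerm_inv (h : x.1 ≠ y.1) {z : Edge F} (hx : z ≠ x) (hy : z ≠ y) :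
    flipPerm x y (flipInv x y z) = z := by
  rcases edge_cases6 x y z with ⟨c1, c2⟩ | rfl | rfl | rfl | rfl | rfl | rfl
  · rw [flipInv_out c1 c2, flipPerm_out c1 c2]
  · exact absurd rfl hx
  · rw [flipInv_nx, flipPerm_py h]
  · rw [flipInv_px, flipPerm_nx]
  · exact absurd rfl hy
  · rw [flipInv_ny h, flipPerm_px]
  · rw [flipInv_py h, flipPerm_ny h]

theorem flipPerm_ne (h : x.1 ≠ y.1) {z : Edge F} (hx : z ≠ x) (hy : z ≠ y) :
    flipPerm x y z ≠ x ∧ flipPerm x y z ≠ y := by
  rcases edge_cases6 x y z with ⟨c1, c2⟩ | rfl | rfl | rfl | rfl | rfl | rfl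
  · rw [flipPerm_out c1 c2]; exact ⟨hx, hy⟩
  · exact absurd rfl hx
  · rw [flipPerm_nx]; exact ⟨prv_ne x, ne_of_fst h⟩
  · rw [flipPerm_px]; exact ⟨ne_of_fst h.symm, nxt_ne y⟩
  · exact absurd rfl hy
  · rw [flipPerm_ny h]; exact ⟨ne_of_fst h.symm, prv_ne y⟩
  · rw [flipPerm_py h]; exact ⟨nxt_ne x, ne_of_fst h⟩

theorem flipInv_ne (h : x.1 ≠ y.1) {z : Edge F} (hx : z ≠ x) (hy : z ≠ y) :
    flipInv x y z ≠ x ∧ flipInv x y z ≠ y := by
  rcases edge_cases6 x y z with ⟨c1, c2⟩ | rfl | rfl | rfl | rfl | rfl | rfl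
  · rw [flipInv_out c1 c2]; exact ⟨hx, hy⟩
  · exact absurd rfl hx
  · rw [flipInv_nx]; exact ⟨ne_of_fst h.symm, prv_ne y⟩
  · rw [flipInv_px]; exact ⟨nxt_ne x, ne_of_fst h⟩
  · exact absurd rfl hy
  · rw [flipInv_ny h]; exact ⟨prv_ne x, ne_of_fst h⟩
  · rw [flipInv_py h]; exact ⟨ne_of_fst h.symm, nxt_ne y⟩

end perm

open Classical in
/-- Transporting a function on the sides along a flip, with given values on the new diagonal. -/
def flipExt {α : Type*} (x y : Edge F) (f : Edge F → α) (fx fy : α) (w : Edge F) : α :=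
  if w = x then fx else if w = y then fy else f (flipInv x y w)

section ext

variable {α : Type*} {x y : Edge F} {f : Edge F → α} {fx fy : α}

theorem flipExt_x : flipExt x y f fx fy x = fx := if_pos rfl

theorem flipExt_y (h : x.1 ≠ y.1) : flipExt x y f fx fy y = fy := by
  rw [flipExt, if_neg (ne_of_fst h.symm), if_pos rfl]

theorem flipExt_other {z : Edge F} (hx : z ≠ x) (hy : z ≠ y) :
    flipExt x y f fx fy z = f (flipInv x y z) := by
  rw [flipExt, if_neg hx, if_neg hy]

theorem flipExt_nx (h : x.1 ≠ y.1) : flipExt x y f fx fy (nxt x) = f (prv y) := by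
  rw [flipExt_other (nxt_ne x) (ne_of_fst h), flipInv_nx]

theorem flipExt_px (h : x.1 ≠ y.1) : flipExt x y f fx fy (prv x) = f (nxt x) := by
  rw [flipExt_other (prv_ne x) (ne_of_fst h), flipInv_px]

theorem flipExt_ny (h : x.1 ≠ y.1) : flipExt x y f fx fy (nxt y) = f (prv x) := by
  rw [flipExt_other (z := nxt y) (ne_of_fst h.symm) (nxt_ne y), flipInv_ny h]

theorem flipExt_py (h : x.1 ≠ y.1) : flipExt x y f fx fy (prv y) = f (nxt y) := by
  rw [flipExt_other (z := prv y) (ne_of_fst h.symm) (prv_ne y), flipInv_py h]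

theorem flipExt_out {z : Edge F} (h1 : z.1 ≠ x.1) (h2 : z.1 ≠ y.1) :
    flipExt x y f fx fy z = f z := by
  rw [flipExt_other (ne_of_fst h1) (ne_of_fst h2), flipInv_out h1 h2]

theorem flipExt_perm (h : x.1 ≠ y.1) {z : Edge F} (hx : z ≠ x) (hy : z ≠ y) :
    flipExt x y f fx fy (flipPerm x y z) = f z := by
  have := flipPerm_ne h hx hy
  rw [flipExt_other this.1 this.2, flipInv_perm h hx hy]

end ext

/-- The side `x` can be flipped. -/
structure Flippable (P : DSurf F) (x y : Edge F) : Prop where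
  gx : P.glue x = y
  ne : x.1 ≠ y.1
  vy : P.v y = -P.v x
  c0 : 0 < cross (P.v (prv x)) (P.v (nxt y))
  c2 : 0 < cross (P.v (prv y)) (P.v (nxt x))

theorem Flippable.gy {P : DSurf F} {x y : Edge F} (h : Flippable P x y) : P.glue y = x := by
  rw [← h.gx, P.glue_glue]

theorem Flippable.glue_ne {P : DSurf F} {x y : Edge F} (h : Flippable P x y) {z : Edge F}
    (hx : z ≠ x) (hy : z ≠ y) : P.glue z ≠ x ∧ P.glue z ≠ y := by
  constructor
  · intro e
    apply hy
    rw [← P.glue_glue z, e, h.gx]
  · intro e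
    apply hx
    rw [← P.glue_glue z, e, h.gy]

theorem sum_rot {G : Type*} [AddCommGroup G] (f : Edge F → G) (w : Edge F) :
    f (w.1, 0) + f (w.1, 1) + f (w.1, 2) = f w + f (nxt w) + f (prv w) := by
  obtain ⟨t, j⟩ := w
  fin_cases j
  · simp [nxt, prv]
  · simp [nxt, prv]
    abel
  · simp [nxt, prv]
    abel

theorem cross_rot {f : Edge F → ℂ} {w : Edge F} (h : f w + f (nxt w) + f (prv w) = 0) :
    cross (f (w.1, 0)) (f (w.1, 1)) = cross (f w) (f (nxt w)) := by
  have h' : f (w.1, 0) + f (w.1, 1) + f (w.1, 2) = 0 := by rw [sum_rot, h]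
  obtain ⟨t, j⟩ := w
  simp only at h' ⊢
  have e2 : f (t, 2) = -(f (t, 0) + f (t, 1)) := by linear_combination h'
  fin_cases j
  · simp [nxt]
  · simp only [nxt]
    show _ = cross (f (t, 1)) (f (t, 2))
    rw [e2]; simp [cross]; ring
  · simp only [nxt]
    show _ = cross (f (t, 2)) (f (t, 0))
    rw [e2]; simp [cross]; ring

section

variable (P : DSurf F) {x y : Edge F} (h : Flippable P x y)

/-- The pairing after the flip. -/
def flipGlue (x y : Edge F) : Edge F → Edge F :=
  flipExt x y (fun z => flipPerm x y (P.glue z)) y x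

/-- The vectors after the flip. -/
def flipV (v : Edge F → ℂ) (x y : Edge F) : Edge F → ℂ :=
  flipExt x y v (v (prv x) + v (nxt y)) (-(v (prv x) + v (nxt y)))

include h

theorem flipGlue_perm {z : Edge F} (hx : z ≠ x) (hy : z ≠ y) :
    flipGlue P x y (flipPerm x y z) = flipPerm x y (P.glue z) := flipExt_perm h.ne hx hy

omit h in
theorem flipGlue_x : flipGlue P x y x = y := flipExt_x

theorem flipGlue_y : flipGlue P x y y = x := flipExt_y h.ne

theorem flip_cases (w : Edge F) : w = x ∨ w = y ∨ ∃ z, z ≠ x ∧ z ≠ y ∧ w = flipPerm x y z := by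
  by_cases hx : w = x
  · exact Or.inl hx
  · by_cases hy : w = y
    · exact Or.inr (Or.inl hy)
    · have := flipInv_ne h.ne hx hy
      exact Or.inr (Or.inr ⟨_, this.1, this.2, (flipPerm_inv h.ne hx hy).symm⟩)

theorem four_sum : P.v (prv x) + P.v (nxt y) + P.v (prv y) + P.v (nxt x) = 0 := by
  have h1 := P.v_sum x
  have h2 := P.v_sum y
  have h3 := h.vy
  linear_combination h1 + h2 - h3

/-- The flipped surface. -/
def flipSurf : DSurf F where
  glue := flipGlue P x y
  v := flipV P.v x y
  glue_glue := by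
    intro w
    rcases flip_cases P h w with rfl | rfl | ⟨z, hx, hy, rfl⟩
    · rw [flipGlue_x P, flipGlue_y P h]
    · rw [flipGlue_y P h, flipGlue_x P]
    · have := h.glue_ne hx hy
      rw [flipGlue_perm P h hx hy, flipGlue_perm P h this.1 this.2, P.glue_glue]
  glue_ne := by
    intro w
    rcases flip_cases P h w with rfl | rfl | ⟨z, hx, hy, rfl⟩
    · rw [flipGlue_x P]; exact ne_of_fst h.ne.symm
    · rw [flipGlue_y P h]; exact ne_of_fst h.ne
    · rw [flipGlue_perm P h hx hy]
      intro e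
      have := h.glue_ne hx hy
      have e2 := congrArg (flipInv x y) e
      rw [flipInv_perm h.ne hx hy, flipInv_perm h.ne this.1 this.2] at e2
      exact P.glue_ne z e2
  conn := by
    set R := fun a b : F => ∃ i j, flipGlue P x y (a, i) = (b, j) with hR
    have rxy : R x.1 y.1 := ⟨x.2, y.2, flipGlue_x P⟩
    have ryx : R y.1 x.1 := ⟨y.2, x.2, flipGlue_y P h⟩
    have key : ∀ z : Edge F, Relation.ReflTransGen R z.1 (flipPerm x y z).1 ∧
        Relation.ReflTransGen R (flipPerm x y z).1 z.1 := by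
      intro z
      rcases edge_cases6 x y z with ⟨c1, c2⟩ | e | e | e | e | e | e
      · rw [flipPerm_out c1 c2]; exact ⟨.refl, .refl⟩
      · rw [e, flipPerm_x h.ne]; exact ⟨.refl, .refl⟩
      · rw [e, flipPerm_nx]; exact ⟨.refl, .refl⟩
      · rw [e, flipPerm_px]; exact ⟨.single rxy, .single ryx⟩
      · rw [e, flipPerm_y h.ne]; exact ⟨.refl, .refl⟩
      · rw [e, flipPerm_ny h.ne]; exact ⟨.refl, .refl⟩
      · rw [e, flipPerm_py h.ne]; exact ⟨.single ryx, .single rxy⟩
    have step : ∀ a b : F, (∃ i j, P.glue (a, i) = (b, j)) → Relation.ReflTransGen R a b := by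
      rintro a b ⟨i, j, hij⟩
      by_cases hx : (a, i) = x
      · have e : (b, j) = y := by rw [← hij, hx, h.gx]
        have e1 : a = x.1 := congrArg Prod.fst hx
        have e2 : b = y.1 := congrArg Prod.fst e
        rw [e1, e2]; exact .single rxy
      · by_cases hy : (a, i) = y
        · have e : (b, j) = x := by rw [← hij, hy, h.gy]
          have e1 : a = y.1 := congrArg Prod.fst hy
          have e2 : b = x.1 := congrArg Prod.fst e
          rw [e1, e2]; exact .single ryx
        · have h1 := flipGlue_perm P h hx hy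
          rw [hij] at h1
          have h2 : R (flipPerm x y (a, i)).1 (flipPerm x y (b, j)).1 :=
            ⟨(flipPerm x y (a, i)).2, (flipPerm x y (b, j)).2, h1⟩
          exact ((key (a, i)).1.tail h2).trans (key (b, j)).2
    intro s t
    have := P.conn s t
    induction this with
    | refl => exact .refl
    | tail _ h2 ih => exact ih.trans (step _ _ h2)
  closed := by
    intro t
    have fs := four_sum P h
    by_cases hx : t = x.1
    · subst hx
      rw [sum_rot (flipV P.v x y) x, flipV, flipExt_x, flipExt_nx h.ne, flipExt_px h.ne]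
      linear_combination fs
    · by_cases hy : t = y.1
      · subst hy
        rw [sum_rot (flipV P.v x y) y, flipV, flipExt_y h.ne, flipExt_ny h.ne, flipExt_py h.ne]
        ring
      · simp only [flipV, flipExt_out (x := x) (y := y) (z := (t, _)) hx hy]
        exact P.closed t
  pos := by
    intro t
    have fs := four_sum P h
    by_cases hx : t = x.1
    · subst hx
      rw [cross_rot, flipV, flipExt_x, flipExt_nx h.ne]
      · have e : P.v (prv x) + P.v (nxt y) = -(P.v (prv y) + P.v (nxt x)) := by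
          linear_combination fs
        rw [e, cross_neg_left, cross_add_left, cross_self, zero_add, ← cross_comm]
        exact h.c2
      · rw [flipV, flipExt_x, flipExt_nx h.ne, flipExt_px h.ne]
        linear_combination fs
    · by_cases hy : t = y.1
      · subst hy
        rw [cross_rot, flipV, flipExt_y h.ne, flipExt_ny h.ne]
        · rw [cross_neg_left, cross_add_left, cross_self, zero_add, ← cross_comm]
          exact h.c0
        · rw [flipV, flipExt_y h.ne, flipExt_ny h.ne, flipExt_py h.ne]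
          ring
      · simp only [flipV, flipExt_out (x := x) (y := y) (z := (t, _)) hx hy]
        exact P.pos t
  par := by
    intro w
    rcases flip_cases P h w with rfl | rfl | ⟨z, hx, hy, rfl⟩
    · refine ⟨1, one_pos, ?_⟩
      rw [flipGlue_x P, flipV, flipExt_x, flipExt_y h.ne]
      simp
    · refine ⟨1, one_pos, ?_⟩
      rw [flipGlue_y P h, flipV, flipExt_x, flipExt_y h.ne]
      simp
    · have := h.glue_ne hx hy
      rw [flipGlue_perm P h hx hy, flipV, flipExt_perm h.ne hx hy,
        flipExt_perm h.ne this.1 this.2]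
      exact P.par z
  vert := by
    obtain ⟨g, hpos, hg⟩ := P.vert
    have gxy : g (nxt y) = g x := by
      have h1 := hg x
      rw [h.gx, h.vy, norm_neg] at h1
      exact mul_right_cancel₀ (P.norm_pos x).ne' h1
    have gyx : g (nxt x) = g y := by
      have h1 := hg y
      rw [h.gy, h.vy, norm_neg] at h1
      exact mul_right_cancel₀ (P.norm_pos x).ne' h1
    set g' := flipExt x y g (g (prv x)) (g (prv y)) with hg'
    have gn : ∀ u, u ≠ x → u ≠ y → g' (nxt (flipPerm x y u)) = g (nxt u) := by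
      intro u hx hy
      rcases edge_cases6 x y u with ⟨c1, c2⟩ | rfl | rfl | rfl | rfl | rfl | rfl
      · rw [flipPerm_out c1 c2, hg', flipExt_out (z := nxt u) c1 c2]
      · exact absurd rfl hx
      · rw [flipPerm_nx, nxt_prv, hg', flipExt_x, nxt_nxt]
      · rw [flipPerm_px, nxt_nxt, hg', flipExt_py h.ne, nxt_prv, gxy]
      · exact absurd rfl hy
      · rw [flipPerm_ny h.ne, nxt_prv, hg', flipExt_y h.ne, nxt_nxt]
      · rw [flipPerm_py h.ne, nxt_nxt, hg', flipExt_px h.ne, nxt_prv, gyx]
    refine ⟨g', ?_, ?_⟩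
    · intro w
      rcases flip_cases P h w with rfl | rfl | ⟨z, hx, hy, rfl⟩
      · rw [hg', flipExt_x]; exact hpos _
      · rw [hg', flipExt_y h.ne]; exact hpos _
      · rw [hg', flipExt_perm h.ne hx hy]; exact hpos _
    · intro w
      rcases flip_cases P h w with rfl | rfl | ⟨z, hx, hy, rfl⟩
      · rw [flipGlue_x P, hg', flipExt_x, flipExt_ny h.ne, flipV, flipExt_x,
          flipExt_y h.ne, norm_neg]
      · rw [flipGlue_y P h, hg', flipExt_y h.ne, flipExt_nx h.ne, flipV, flipExt_x,
          flipExt_y h.ne, norm_neg]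
      · have := h.glue_ne hx hy
        rw [flipGlue_perm P h hx hy, gn _ this.1 this.2, hg', flipExt_perm h.ne hx hy, flipV,
          flipExt_perm h.ne hx hy, flipExt_perm h.ne this.1 this.2]
        exact hg z

theorem flip_flipSurf : Flip P (flipSurf P h) x := by
  refine ⟨y, h.gx, h.ne, h.vy, h.c0, h.c2, flipGlue_x P, ?_, ?_, fun z hx hy =>
    ⟨flipGlue_perm P h hx hy, ?_⟩⟩
  · exact flipExt_x
  · exact flipExt_y h.ne
  · exact flipExt_perm h.ne hx hy

end

theorem Flip.flippable {P Q : DSurf F} {x : Edge F} (h : Flip P Q x) :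
    Flippable P x (P.glue x) :=
  ⟨rfl, h.fd.ne, h.fd.vy, h.fd.c0, h.fd.c2⟩

/-- The result of a flip is determined. -/
theorem Flip.eq_flipSurf {P Q : DSurf F} {x : Edge F} (h : Flip P Q x) :
    Q = flipSurf P h.flippable := by
  obtain ⟨y, h1, h2, h3, h4, h5, h6, h7, h8, h9⟩ := id h
  subst h1
  have hf := h.flippable
  apply DSurf.ext'
  · funext w
    rcases flip_cases P hf w with rfl | rfl | ⟨z, hx, hy, rfl⟩
    · rw [h6]; exact (flipGlue_x P).symm
    · rw [h.fd.qgy]; exact (flipGlue_y P hf).symm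
    · rw [(h9 z hx hy).1]; exact (flipGlue_perm P hf hx hy).symm
  · funext w
    rcases flip_cases P hf w with hw | hw | ⟨z, hx, hy, rfl⟩
    · rw [hw, h7]; exact flipExt_x.symm
    · rw [hw, h8]; exact (flipExt_y h2).symm
    · rw [(h9 z hx hy).2]; exact (flipExt_perm h2 hx hy).symm

/-- The new diagonal can be flipped. -/
theorem FD.flippable {P Q : DSurf F} {x y : Edge F} (h : FD P Q x y) : Flippable Q x y := by
  refine ⟨h.qgx, h.ne, ?_, ?_, ?_⟩
  · rw [h.qvy, h.qvx]
  · rw [h.qpx, h.qny]
    have := P.area_pos (nxt x)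
    rwa [DSurf.area, nxt_nxt] at this
  · rw [h.qpy, h.qnx]
    have := P.area_pos (nxt y)
    rwa [DSurf.area, nxt_nxt] at this

end Run7.h669.Dil
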