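import Pool.Agent.Run7.h669.Dil.Flip

/-!
# Closed geodesics are not affected by flips: the simulation
-/

noncomputable section

namespace Run7.h669.Dil

variable {F : Type*}

/-! ### The values of `flipPerm` -/

section perm

variable {x y : Edge F}

theorem flipPerm_nx : flipPerm x y (nxt x) = prv x := if_pos rfl

theorem flipPerm_px : flipPerm x y (prv x) = nxt y := by
  rw [flipPerm, if_neg (nxt_ne_prv x).symm, if_pos rfl]

theorem flipPerm_ny (h : x.1 ≠ y.1) : flipPerm x y (nxt y) = prv y := by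
  have h1 : nxt y ≠ nxt x := fun e => h (congrArg Prod.fst e).symm
  have h2 : nxt y ≠ prv x := fun e => h (congrArg Prod.fst e).symm
  rw [flipPerm, if_neg h1, if_neg h2, if_pos rfl]

theorem flipPerm_py (h : x.1 ≠ y.1) : flipPerm x y (prv y) = nxt x := by
  have h1 : prv y ≠ nxt x := fun e => h (congrArg Prod.fst e).symm
  have h2 : prv y ≠ prv x := fun e => h (congrArg Prod.fst e).symm
  rw [flipPerm, if_neg h1, if_neg h2, if_neg (nxt_ne_prv y).symm, if_pos rfl]

theorem flipPerm_out {z : Edge F} (h1 : z.1 ≠ x.1) (h2 : z.1 ≠ y.1) : flipPerm x y z = z := by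
  have h3 : z ≠ nxt x := by rintro rfl; exact h1 rfl
  have h4 : z ≠ prv x := by rintro rfl; exact h1 rfl
  have h5 : z ≠ nxt y := by rintro rfl; exact h2 rfl
  have h6 : z ≠ prv y := by rintro rfl; exact h2 rfl
  rw [flipPerm, if_neg h3, if_neg h4, if_neg h5, if_neg h6]

/-- The six sides of the two triangles and the other ones. -/
theorem edge_cases6 (x y z : Edge F) :
    (z.1 ≠ x.1 ∧ z.1 ≠ y.1) ∨ z = x ∨ z = nxt x ∨ z = prv x ∨ z = y ∨ z = nxt y ∨ z = prv y := by
  by_cases h : z.1 = x.1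
  · rcases edge_cases h with h | h | h <;> tauto
  · by_cases h' : z.1 = y.1
    · rcases edge_cases h' with h | h | h <;> tauto
    · exact Or.inl ⟨h, h'⟩

end perm

/-- The data of a flip, made explicit. -/
structure FD (P Q : DSurf F) (x y : Edge F) : Prop where
  gx : P.glue x = y
  gy : P.glue y = x
  ne : x.1 ≠ y.1
  vy : P.v y = -P.v x
  c0 : 0 < cross (P.v (prv x)) (P.v (nxt y))
  c2 : 0 < cross (P.v (prv y)) (P.v (nxt x))
  qgx : Q.glue x = y
  qgy : Q.glue y = x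
  qvx : Q.v x = P.v (prv x) + P.v (nxt y)
  qvy : Q.v y = -(P.v (prv x) + P.v (nxt y))
  qnx : Q.v (nxt x) = P.v (prv y)
  qpx : Q.v (prv x) = P.v (nxt x)
  qny : Q.v (nxt y) = P.v (prv x)
  qpy : Q.v (prv y) = P.v (nxt y)
  out_v : ∀ z : Edge F, z.1 ≠ x.1 → z.1 ≠ y.1 → Q.v z = P.v z
  glue : ∀ z, z ≠ x → z ≠ y → Q.glue (flipPerm x y z) = flipPerm x y (P.glue z)

theorem Flip.fd {P Q : DSurf F} {x : Edge F} (h : Flip P Q x) : FD P Q x (P.glue x) := by
  obtain ⟨y, h1, h2, h3, h4, h5, h6, h7, h8, h9⟩ := h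
  subst h1
  refine ⟨rfl, P.glue_glue x, h2, h3, h4, h5, h6, ?_, h7, h8, ?_, ?_, ?_, ?_, ?_, ?_⟩
  · rw [← h6, Q.glue_glue]
  · have := (h9 (prv (P.glue x)) (fun e => h2 (congrArg Prod.fst e).symm) (prv_ne _)).2
    rwa [flipPerm_py h2] at this
  · have := (h9 (nxt x) (nxt_ne _) (fun e => h2 (by rw [← e]; rfl))).2
    rwa [flipPerm_nx] at this
  · have := (h9 (prv x) (prv_ne _) (fun e => h2 (by rw [← e]; rfl))).2
    rwa [flipPerm_px] at this
  · have := (h9 (nxt (P.glue x)) (fun e => h2 (congrArg Prod.fst e).symm) (nxt_ne _)).2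
    rwa [flipPerm_ny h2] at this
  · intro z hz hz'
    have := (h9 z (fun e => hz (congrArg Prod.fst e)) (fun e => hz' (congrArg Prod.fst e))).2
    rwa [flipPerm_out hz hz'] at this
  · exact fun z hz hz' => (h9 z hz hz').1

/-! ### Placed quadrilaterals -/

/-- The quadrilateral `N` is a placement, with scale `k`, of the quadrilateral around `x`. -/
structure Quad (P : DSurf F) (x y : Edge F) (k : ℝ) (N : Q4) : Prop where
  hk : 0 < k
  ab : N.b - N.a = (k : ℂ) * P.v (nxt y)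
  bc : N.c - N.b = (k : ℂ) * P.v (prv y)
  cd : N.d - N.c = (k : ℂ) * P.v (nxt x)
  da : N.a - N.d = (k : ℂ) * P.v (prv x)

/-- The triangle of `x` in `P`. -/
def px (x : Edge F) (N : Q4) (z : ℂ) : St F := ⟨x, N.a, N.c, N.d, z⟩
/-- The triangle of `y` in `P`. -/
def py (y : Edge F) (N : Q4) (z : ℂ) : St F := ⟨y, N.c, N.a, N.b, z⟩
/-- The triangle of `x` in `Q`. -/
def qx (x : Edge F) (N : Q4) (z : ℂ) : St F := ⟨x, N.d, N.b, N.c, z⟩
/-- The triangle of `y` in `Q`. -/
def qy (y : Edge F) (N : Q4) (z : ℂ) : St F := ⟨y, N.b, N.d, N.a, z⟩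

variable {P Q : DSurf F} {x y : Edge F} {k : ℝ} {N : Q4}

theorem Quad.placed_px (hN : Quad P x y k N) (h : P.v y = -P.v x) (z : ℂ) :
    (px x N z).Placed P := by
  have s := P.v_sum y
  refine ⟨k, hN.hk, ?_, hN.cd, hN.da⟩
  simp only [px]
  linear_combination hN.ab + hN.bc + (k : ℂ) * s - (k : ℂ) * h

theorem Quad.placed_py (hN : Quad P x y k N) (h : P.v y = -P.v x) (z : ℂ) :
    (py y N z).Placed P := by
  have s := P.v_sum x
  refine ⟨k, hN.hk, ?_, hN.ab, hN.bc⟩
  simp only [py]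
  linear_combination hN.cd + hN.da + (k : ℂ) * s - (k : ℂ) * h

theorem Quad.placed_qx (hN : Quad P x y k N) (h : FD P Q x y) (z : ℂ) :
    (qx x N z).Placed Q := by
  refine ⟨k, hN.hk, ?_, ?_, ?_⟩
  · simp only [qx, h.qvx]
    linear_combination hN.da + hN.ab
  · simp only [qx, h.qnx]; exact hN.bc
  · simp only [qx, h.qpx]; exact hN.cd

theorem Quad.placed_qy (hN : Quad P x y k N) (h : FD P Q x y) (z : ℂ) :
    (qy y N z).Placed Q := by
  refine ⟨k, hN.hk, ?_, ?_, ?_⟩
  · simp only [qy, h.qvy]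
    linear_combination -hN.da - hN.ab
  · simp only [qy, h.qny]; exact hN.da
  · simp only [qy, h.qpy]; exact hN.ab

theorem Quad.convex (hN : Quad P x y k N) (h : FD P Q x y) : N.Convex := by
  have hk := hN.hk
  refine ⟨?_, ?_, ?_, ?_⟩
  · rw [hN.ab, hN.bc, cross_mul_left, cross_mul_right]
    have := P.area_pos (nxt y)
    rw [DSurf.area, nxt_nxt] at this
    positivity
  · rw [hN.bc, hN.cd, cross_mul_left, cross_mul_right]
    have := h.c2
    positivity
  · rw [hN.cd, hN.da, cross_mul_left, cross_mul_right]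
    have := P.area_pos (nxt x)
    rw [DSurf.area, nxt_nxt] at this
    positivity
  · rw [hN.da, hN.ab, cross_mul_left, cross_mul_right]
    have := h.c0
    positivity

theorem inTri_px (hN : N.Convex) (x : Edge F) (z : ℂ) :
    (px x N z).InTri ↔ N.Mem z ∧ 0 ≤ N.side z := Q4.inTri_iff hN x z

theorem inTri_py (hN : N.Convex) (y : Edge F) (z : ℂ) :
    (py y N z).InTri ↔ N.Mem z ∧ 0 ≤ N.rot.rot.side z := by
  have := Q4.inTri_iff hN.rot.rot y z
  rw [Q4.mem_rot, Q4.mem_rot] at this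
  exact this

theorem inTri_qx (hN : N.Convex) (x : Edge F) (z : ℂ) :
    (qx x N z).InTri ↔ N.Mem z ∧ 0 ≤ N.rot.rot.rot.side z := by
  have := Q4.inTri_iff hN.rot.rot.rot x z
  rw [Q4.mem_rot, Q4.mem_rot, Q4.mem_rot] at this
  exact this

theorem inTri_qy (hN : N.Convex) (y : Edge F) (z : ℂ) :
    (qy y N z).InTri ↔ N.Mem z ∧ 0 ≤ N.rot.side z := by
  have := Q4.inTri_iff hN.rot y z
  rw [Q4.mem_rot] at this
  exact this

theorem side3 (N : Q4) (z : ℂ) : N.rot.rot.rot.side z = -N.rot.side z :=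
  Q4.side_rot_rot N.rot z

/-- Moving in a quadrilateral of `Q`. -/
theorem quad_move (hN : Quad P x y k N) (h : FD P Q x y) {χ : ℂ} {r : ℝ} (hr : 0 ≤ r) {z : ℂ}
    (hz : N.Mem z) (hz' : N.Mem (z + (r : ℂ) * χ)) :
    ∃ u u' : St F, (RotEq (qx x N z) u ∨ RotEq (qy y N z) u) ∧ u.InTri ∧
      (RotEq (qx x N (z + (r : ℂ) * χ)) u' ∨ RotEq (qy y N (z + (r : ℂ) * χ)) u') ∧ u'.InTri ∧
      Chain Q χ u u' := by
  have hc := hN.convex h
  have vx : ∀ w, N.Mem w → N.rot.side w ≤ 0 → (qx x N w).Valid Q := fun w hw hs =>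
    ⟨hN.placed_qx h w, (inTri_qx hc x w).2 ⟨hw, by rw [side3]; linarith⟩⟩
  have vy : ∀ w, N.Mem w → 0 ≤ N.rot.side w → (qy y N w).Valid Q := fun w hw hs =>
    ⟨hN.placed_qy h w, (inTri_qy hc y w).2 ⟨hw, hs⟩⟩
  have mid : ∀ τ : ℝ, N.rot.side (z + (τ : ℂ) * ((z + (r : ℂ) * χ) - z)) =
      (1 - τ) * N.rot.side z + τ * N.rot.side (z + (r : ℂ) * χ) := by
    intro τ; simp [Q4.side, cross]; ring
  have mx : ∀ w (t : ℝ), 0 ≤ t → N.Mem w → N.rot.side w ≤ 0 → N.Mem (w + (t : ℂ) * χ) →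
      N.rot.side (w + (t : ℂ) * χ) ≤ 0 →
      Step Q χ (qx x N w) (qx x N (w + (t : ℂ) * χ)) := fun w t ht h1 h2 h3 h4 =>
    Step.move (P := Q) (qx x N w) t (vx w h1 h2) ht (vx _ h3 h4)
  have my : ∀ w (t : ℝ), 0 ≤ t → N.Mem w → 0 ≤ N.rot.side w → N.Mem (w + (t : ℂ) * χ) →
      0 ≤ N.rot.side (w + (t : ℂ) * χ) →
      Step Q χ (qy y N w) (qy y N (w + (t : ℂ) * χ)) := fun w t ht h1 h2 h3 h4 =>
    Step.move (P := Q) (qy y N w) t (vy w h1 h2) ht (vy _ h3 h4)
  have cxy : ∀ w, N.Mem w → N.rot.side w = 0 → Step Q χ (qx x N w) (qy y N w) := by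
    intro w hw hs
    have e : (qy y N w) = ⟨Q.glue (qx x N w).x, (qx x N w).b, (qx x N w).a, N.a, (qx x N w).z⟩ := by
      simp only [qx, qy, h.qgx]
    rw [e]
    refine Step.cross (qx x N w) N.a (vx w hw hs.le) ?_ ?_
    · have : cross (N.b - N.d) (w - N.d) = -N.rot.side w := by
        simp [Q4.side, Q4.rot, cross]; ring
      simp only [qx, this, hs, neg_zero]
    · rw [← e]; exact vy w hw hs.ge
  have cyx : ∀ w, N.Mem w → N.rot.side w = 0 → Step Q χ (qy y N w) (qx x N w) := by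
    intro w hw hs
    have e : (qx x N w) = ⟨Q.glue (qy y N w).x, (qy y N w).b, (qy y N w).a, N.c, (qy y N w).z⟩ := by
      simp only [qx, qy, h.qgy]
    rw [e]
    refine Step.cross (qy y N w) N.c (vy w hw hs.ge) ?_ ?_
    · simp only [qy]; exact hs
    · rw [← e]; exact vx w hw hs.le
  set z' := z + (r : ℂ) * χ with hz'def
  have split : ∀ τ : ℝ, 0 < τ → τ < 1 → ∃ m : ℂ, N.Mem m ∧ m = z + ((τ * r : ℝ) : ℂ) * χ ∧
      z' = m + (((1 - τ) * r : ℝ) : ℂ) * χ ∧
      N.rot.side m = (1 - τ) * N.rot.side z + τ * N.rot.side z' := by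
    intro τ h0 h1
    refine ⟨z + (τ : ℂ) * (z' - z), Q4.Mem.convex hc hz hz' h0 h1, ?_, ?_, ?_⟩
    · rw [hz'def]; push_cast; ring
    · rw [hz'def]; push_cast; ring
    · exact mid τ
  by_cases h1 : N.rot.side z ≤ 0
  · by_cases h2 : N.rot.side z' ≤ 0
    · exact ⟨_, _, Or.inl (RotEq.refl _), (vx z hz h1).2, Or.inl (RotEq.refl _), (vx _ hz' h2).2,
        .single (mx z r hr hz h1 hz' h2)⟩
    · push Not at h2
      rcases h1.lt_or_eq with h1' | h1'
      · have hd : 0 < N.rot.side z' - N.rot.side z := by linarith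
        obtain ⟨m, m1, m2, m3, m4⟩ := split (-N.rot.side z / (N.rot.side z' - N.rot.side z))
          (div_pos (by linarith) hd) (by rw [div_lt_one hd]; linarith)
        have m5 : N.rot.side m = 0 := by
          rw [m4]; field_simp; ring
        refine ⟨_, _, Or.inl (RotEq.refl _), (vx z hz h1).2, Or.inr (RotEq.refl _),
          (vy _ hz' h2.le).2, ?_⟩
        have t0 : 0 ≤ -N.rot.side z / (N.rot.side z' - N.rot.side z) :=
          (div_pos (by linarith) hd).le
        have t1 : -N.rot.side z / (N.rot.side z' - N.rot.side z) ≤ 1 := by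
          rw [div_le_one hd]; linarith
        have s1 := mx z _ (mul_nonneg t0 hr) hz h1 (m2 ▸ m1) (m2 ▸ m5.le)
        have s2 := cxy m m1 m5
        have s3 := my m _ (mul_nonneg (sub_nonneg.2 t1) hr) m1 m5.ge (m3 ▸ hz') (m3 ▸ h2.le)
        rw [← m2] at s1
        rw [← m3] at s3
        exact ((Relation.ReflTransGen.single s1).tail s2).tail s3
      · exact ⟨_, _, Or.inr (RotEq.refl _), (vy z hz h1'.ge).2, Or.inr (RotEq.refl _),
          (vy _ hz' h2.le).2, .single (my z r hr hz h1'.ge hz' h2.le)⟩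
  · push Not at h1
    by_cases h2 : 0 ≤ N.rot.side z'
    · exact ⟨_, _, Or.inr (RotEq.refl _), (vy z hz h1.le).2, Or.inr (RotEq.refl _),
        (vy _ hz' h2).2, .single (my z r hr hz h1.le hz' h2)⟩
    · push Not at h2
      have hd : 0 < N.rot.side z - N.rot.side z' := by linarith
      obtain ⟨m, m1, m2, m3, m4⟩ := split (N.rot.side z / (N.rot.side z - N.rot.side z'))
        (div_pos (by linarith) hd) (by rw [div_lt_one hd]; linarith)
      have m5 : N.rot.side m = 0 := by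
        rw [m4]; field_simp; ring
      refine ⟨_, _, Or.inr (RotEq.refl _), (vy z hz h1.le).2, Or.inl (RotEq.refl _),
        (vx _ hz' h2.le).2, ?_⟩
      have t0 : 0 ≤ N.rot.side z / (N.rot.side z - N.rot.side z') :=
        (div_pos (by linarith) hd).le
      have t1 : N.rot.side z / (N.rot.side z - N.rot.side z') ≤ 1 := by
        rw [div_le_one hd]; linarith
      have s1 := my z _ (mul_nonneg t0 hr) hz h1.le (m2 ▸ m1) (m2 ▸ m5.ge)
      have s2 := cyx m m1 m5
      have s3 := mx m _ (mul_nonneg (sub_nonneg.2 t1) hr) m1 m5.le (m3 ▸ hz') (m3 ▸ h2.le)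
      rw [← m2] at s1
      rw [← m3] at s3
      exact ((Relation.ReflTransGen.single s1).tail s2).tail s3

end Run7.h669.Dil
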