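import Pool.Agent.Run7.h669.Dil.FlipInv

/-!
# Closed geodesics are not affected by flips: conclusion
-/

noncomputable section

namespace Run7.h669.Dil

variable {F : Type*} {P Q : DSurf F} {x y : Edge F} {k : ℝ} {N : Q4} {χ : ℂ}

theorem valid_qx (hN : Quad P x y k N) (h : FD P Q x y) {w : ℂ} (hw : N.Mem w)
    (hs : N.rot.side w ≤ 0) : (qx x N w).Valid Q :=
  ⟨hN.placed_qx h w, (inTri_qx (hN.convex h) x w).2 ⟨hw, by rw [side3]; linarith⟩⟩

theorem valid_qy (hN : Quad P x y k N) (h : FD P Q x y) {w : ℂ} (hw : N.Mem w)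
    (hs : 0 ≤ N.rot.side w) : (qy y N w).Valid Q :=
  ⟨hN.placed_qy h w, (inTri_qy (hN.convex h) y w).2 ⟨hw, hs⟩⟩

theorem step_xy (hN : Quad P x y k N) (h : FD P Q x y) {w : ℂ} (hw : N.Mem w)
    (hs : N.rot.side w = 0) : Step Q χ (qx x N w) (qy y N w) := by
  have e : (qy y N w) = ⟨Q.glue (qx x N w).x, (qx x N w).b, (qx x N w).a, N.a, (qx x N w).z⟩ := by
    simp only [qx, qy, h.qgx]
  rw [e]
  refine Step.cross (qx x N w) N.a (valid_qx hN h hw hs.le) ?_ ?_
  · have : cross (N.b - N.d) (w - N.d) = -N.rot.side w := by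
      simp [Q4.side, Q4.rot, cross]; ring
    simp only [qx, this, hs, neg_zero]
  · rw [← e]; exact valid_qy hN h hw hs.ge

theorem step_yx (hN : Quad P x y k N) (h : FD P Q x y) {w : ℂ} (hw : N.Mem w)
    (hs : N.rot.side w = 0) : Step Q χ (qy y N w) (qx x N w) := by
  have e : (qx x N w) = ⟨Q.glue (qy y N w).x, (qy y N w).b, (qy y N w).a, N.c, (qy y N w).z⟩ := by
    simp only [qx, qy, h.qgy]
  rw [e]
  refine Step.cross (qy y N w) N.c (valid_qy hN h hw hs.ge) ?_ ?_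
  · simp only [qy]; exact hs
  · rw [← e]; exact valid_qx hN h hw hs.le

theorem placed_unique {s s' : St F} (h : s.Placed P) (h' : s'.Placed P) (hx : s.x = s'.x)
    (ha : s.a = s'.a) (hb : s.b = s'.b) : s.c = s'.c := by
  obtain ⟨k, hk, h1, h2, -⟩ := h
  obtain ⟨k', hk', h1', h2', -⟩ := h'
  have e : (k : ℂ) * P.v s.x = (k' : ℂ) * P.v s.x := by
    rw [← h1, hx, ← h1', ha, hb]
  have e2 := mul_right_cancel₀ (P.v_ne s.x) e
  rw [e2] at h2
  rw [← hx, ← hb] at h2'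
  linear_combination h2 - h2'

/-- The correspondence between the states of `P` and of the flipped surface. -/
def Corr (P : DSurf F) (x y : Edge F) (s u : St F) : Prop :=
  (s.x.1 ≠ x.1 ∧ s.x.1 ≠ y.1 ∧ s.InTri ∧ u = s) ∨
  ∃ (N : Q4) (k : ℝ) (z : ℂ), Quad P x y k N ∧
    (RotEq (px x N z) s ∨ RotEq (py y N z) s) ∧ s.InTri ∧
    (RotEq (qx x N z) u ∨ RotEq (qy y N z) u) ∧ u.InTri

theorem quad_unique (h : x.1 ≠ y.1) {N N' : Q4} {k k' : ℝ} {z z' : ℂ} {s : St F}
    (hN : Quad P x y k N) (hN' : Quad P x y k' N')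
    (hs : RotEq (px x N z) s ∨ RotEq (py y N z) s)
    (hs' : RotEq (px x N' z') s ∨ RotEq (py y N' z') s) : N = N' ∧ z = z' := by
  obtain ⟨a, b, c, d⟩ := N
  obtain ⟨a', b', c', d'⟩ := N'
  rcases hs with hs | hs <;> rcases hs' with hs' | hs'
  · have e := hs.unique hs' rfl
    simp only [px, St.mk.injEq, true_and] at e
    obtain ⟨e1, e2, e3, e4⟩ := e
    subst e1 e2 e3 e4
    have e5 : (k : ℂ) * P.v (nxt x) = (k' : ℂ) * P.v (nxt x) := by rw [← hN.cd, ← hN'.cd]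
    have e6 := mul_right_cancel₀ (P.v_ne _) e5
    have e7 := hN.ab
    have e8 := hN'.ab
    simp only at e7 e8
    rw [e6] at e7
    have : b = b' := by linear_combination e7 - e8
    subst this
    exact ⟨rfl, rfl⟩
  · exact absurd (hs.fst.symm.trans hs'.fst) h
  · exact absurd (hs'.fst.symm.trans hs.fst) h
  · have e := hs.unique hs' rfl
    simp only [py, St.mk.injEq, true_and] at e
    obtain ⟨e1, e2, e3, e4⟩ := e
    subst e1 e2 e3 e4
    have e5 : (k : ℂ) * P.v (nxt y) = (k' : ℂ) * P.v (nxt y) := by rw [← hN.ab, ← hN'.ab]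
    have e6 := mul_right_cancel₀ (P.v_ne _) e5
    have e7 := hN.cd
    have e8 := hN'.cd
    simp only at e7 e8
    rw [e6] at e7
    have : d = d' := by linear_combination e7 - e8
    subst this
    exact ⟨rfl, rfl⟩

theorem Corr.connect (h : FD P Q x y) {s u u' : St F} (hu : Corr P x y s u)
    (hu' : Corr P x y s u') : Chain Q χ u u' := by
  rcases hu with ⟨h1, h2, h3, rfl⟩ | ⟨N, k, z, hN, hs, hi, hu, hui⟩
  · rcases hu' with ⟨-, -, -, rfl⟩ | ⟨N, k, z, hN, hs | hs, -⟩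
    · exact .refl
    · exact absurd hs.fst h1
    · exact absurd hs.fst h2
  · rcases hu' with ⟨h1, h2, -, -⟩ | ⟨N', k', z', hN', hs', hi', hu', hui'⟩
    · rcases hs with hs | hs
      · exact absurd hs.fst h1
      · exact absurd hs.fst h2
    · obtain ⟨rfl, rfl⟩ := quad_unique h.ne hN hN' hs hs'
      have hc := hN.convex h
      rcases hu with hu | hu <;> rcases hu' with hu' | hu'
      · have hv : (qx x N z).Valid Q := ⟨hN.placed_qx h z, hu.inTri.1 hui⟩
        exact (hu.chain hv).2.trans (hu'.chain hv).1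
      · have hv : (qx x N z).Valid Q := ⟨hN.placed_qx h z, hu.inTri.1 hui⟩
        have hv' : (qy y N z).Valid Q := ⟨hN.placed_qy h z, hu'.inTri.1 hui'⟩
        have i1 := (inTri_qx hc x z).1 hv.2
        have i2 := (inTri_qy hc y z).1 hv'.2
        rw [side3] at i1
        have i3 : N.rot.side z = 0 := by linarith [i1.2, i2.2]
        exact ((hu.chain hv).2.tail (step_xy hN h i1.1 i3)).trans (hu'.chain hv').1
      · have hv : (qx x N z).Valid Q := ⟨hN.placed_qx h z, hu'.inTri.1 hui'⟩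
        have hv' : (qy y N z).Valid Q := ⟨hN.placed_qy h z, hu.inTri.1 hui⟩
        have i1 := (inTri_qx hc x z).1 hv.2
        have i2 := (inTri_qy hc y z).1 hv'.2
        rw [side3] at i1
        have i3 : N.rot.side z = 0 := by linarith [i1.2, i2.2]
        exact ((hu.chain hv').2.tail (step_yx hN h i1.1 i3)).trans (hu'.chain hv).1
      · have hv : (qy y N z).Valid Q := ⟨hN.placed_qy h z, hu.inTri.1 hui⟩
        exact (hu.chain hv).2.trans (hu'.chain hv).1

theorem exists_quad_x (h : FD P Q x y) {b : St F} (hb : b.Valid P) (hx : b.x = x) :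
    ∃ (N : Q4) (k : ℝ), Quad P x y k N ∧ b = px x N b.z ∧ N.Mem b.z := by
  obtain ⟨⟨k, hk, h1, h2, h3⟩, hi⟩ := hb
  obtain ⟨bx, a, b, c, z⟩ := b
  simp only at *
  subst hx
  have s := P.v_sum y
  have hv := h.vy
  have hN : Quad P bx y k ⟨a, a + (k : ℂ) * P.v (nxt y), b, c⟩ := by
    refine ⟨hk, ?_, ?_, ?_, ?_⟩
    · simp
    · simp only
      linear_combination h1 - (k : ℂ) * s + (k : ℂ) * hv
    · exact h2
    · exact h3
  refine ⟨_, k, hN, rfl, ((inTri_px (hN.convex h) bx z).1 hi).1⟩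

theorem exists_quad_y (h : FD P Q x y) {b : St F} (hb : b.Valid P) (hx : b.x = y) :
    ∃ (N : Q4) (k : ℝ), Quad P x y k N ∧ b = py y N b.z ∧ N.Mem b.z := by
  obtain ⟨⟨k, hk, h1, h2, h3⟩, hi⟩ := hb
  obtain ⟨bx, a, b, c, z⟩ := b
  simp only at *
  subst hx
  have s := P.v_sum x
  have hv := h.vy
  have hN : Quad P x bx k ⟨b, c, a, a + (k : ℂ) * P.v (nxt x)⟩ := by
    refine ⟨hk, ?_, ?_, ?_, ?_⟩
    · exact h2
    · exact h3
    · simp
    · simp only
      linear_combination h1 - (k : ℂ) * s + (k : ℂ) * hv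
  refine ⟨_, k, hN, rfl, ((inTri_py (hN.convex h) bx z).1 hi).1⟩

theorem exists_quad (h : FD P Q x y) {s : St F} (hs : s.Valid P)
    (hx : ¬(s.x.1 ≠ x.1 ∧ s.x.1 ≠ y.1)) :
    ∃ (N : Q4) (k : ℝ), Quad P x y k N ∧
      (RotEq (px x N s.z) s ∨ RotEq (py y N s.z) s) ∧ N.Mem s.z := by
  have hz : ∀ {b : St F}, RotEq b s → s.z = b.z := by
    rintro b (rfl | rfl | rfl) <;> rfl
  by_cases h1 : s.x.1 = x.1
  · obtain ⟨b, hb, hr⟩ := exists_rotEq s x h1
    obtain ⟨N, k, hN, e, hm⟩ := exists_quad_x h (hr.valid' hs) hb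
    rw [hz hr]
    exact ⟨N, k, hN, Or.inl (e ▸ hr), hm⟩
  · have h2 : s.x.1 = y.1 := by tauto
    obtain ⟨b, hb, hr⟩ := exists_rotEq s y h2
    obtain ⟨N, k, hN, e, hm⟩ := exists_quad_y h (hr.valid' hs) hb
    rw [hz hr]
    exact ⟨N, k, hN, Or.inr (e ▸ hr), hm⟩

theorem exists_corr (h : FD P Q x y) {s : St F} (hs : s.Valid P) : ∃ u, Corr P x y s u := by
  by_cases hx : s.x.1 ≠ x.1 ∧ s.x.1 ≠ y.1
  · exact ⟨s, Or.inl ⟨hx.1, hx.2, hs.2, rfl⟩⟩
  · obtain ⟨N, k, hN, hr, hm⟩ := exists_quad h hs hx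
    by_cases h1 : N.rot.side s.z ≤ 0
    · exact ⟨_, Or.inr ⟨N, k, s.z, hN, hr, hs.2, Or.inl (RotEq.refl _),
        (valid_qx hN h hm h1).2⟩⟩
    · push Not at h1
      exact ⟨_, Or.inr ⟨N, k, s.z, hN, hr, hs.2, Or.inr (RotEq.refl _),
        (valid_qy hN h hm h1.le).2⟩⟩

theorem valid_out (h : FD P Q x y) {s : St F} (hs : s.Valid P) (h1 : s.x.1 ≠ x.1)
    (h2 : s.x.1 ≠ y.1) : s.Valid Q := by
  obtain ⟨⟨k, hk, e1, e2, e3⟩, hi⟩ := hs
  refine ⟨⟨k, hk, ?_, ?_, ?_⟩, hi⟩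
  · rw [e1, h.out_v _ h1 h2]
  · rw [e2, h.out_v (nxt s.x) h1 h2]
  · rw [e3, h.out_v (prv s.x) h1 h2]

theorem Corr.valid (h : FD P Q x y) {s u : St F} (hs : s.Valid P) (hu : Corr P x y s u) :
    u.Valid Q := by
  rcases hu with ⟨h1, h2, h3, rfl⟩ | ⟨N, k, z, hN, hs, hi, hu | hu, hui⟩
  · exact valid_out h hs h1 h2
  · exact hu.valid ⟨hN.placed_qx h z, hu.inTri.1 hui⟩
  · exact hu.valid ⟨hN.placed_qy h z, hu.inTri.1 hui⟩

theorem inTri_transfer {s u : St F} (hs : s.Valid P) (h0 : cross (s.b - s.a) (s.z - s.a) = 0)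
    (hu : u.Placed Q) (ha : u.a = s.a) (hb : u.b = s.b) (hz : u.z = s.z) : u.InTri := by
  obtain ⟨τ, t0, t1, ht⟩ := exists_seg hs.1.area_pos hs.2 h0
  refine (inTri_of_seg hu.area_pos t0 t1 ?_).1
  rw [ha, hb, hz, ht]

theorem St.Placed.rot' {s : St F} (h : s.Placed P) : s.rot.Placed P := by
  obtain ⟨k, hk, h1, h2, h3⟩ := h
  refine ⟨k, hk, h2, ?_, ?_⟩
  · simp only [St.rot, nxt_nxt]; exact h3
  · simp only [St.rot, prv_nxt]; exact h1

/-- A state of `P` on a side different from the diagonal. -/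
theorem exists_corr_side (h : FD P Q x y) {s : St F} (hs : s.Valid P) (h1 : s.x ≠ x)
    (h2 : s.x ≠ y) (h0 : cross (s.b - s.a) (s.z - s.a) = 0) :
    ∃ d : ℂ, St.Valid Q ⟨flipPerm x y s.x, s.a, s.b, d, s.z⟩ ∧
      Corr P x y s ⟨flipPerm x y s.x, s.a, s.b, d, s.z⟩ := by
  rcases edge_cases6 x y s.x with ⟨c1, c2⟩ | c | c | c | c | c | c
  · refine ⟨s.c, ?_, Or.inl ⟨c1, c2, hs.2, ?_⟩⟩
    · rw [flipPerm_out c1 c2]; exact valid_out h hs c1 c2
    · rw [flipPerm_out c1 c2]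
  · exact absurd c h1
  · -- `nxt x`
    obtain ⟨N, k, hN, e, hm⟩ := exists_quad_x h (b := s.rot.rot) hs.rot.rot
      (by simp only [St.rot, c, nxt_nxt, nxt_prv])
    have e' : s = (px x N s.z).rot := by
      rw [← s.rot3, e]; rfl
    have hpl : ((qx x N s.z).rot.rot).Placed Q := (hN.placed_qx h s.z).rot'.rot'
    have hi : ((qx x N s.z).rot.rot).InTri :=
      inTri_transfer hs h0 hpl (by rw [e']; rfl) (by rw [e']; rfl) rfl
    have hu : (⟨flipPerm x y s.x, s.a, s.b, N.b, s.z⟩ : St F) = (qx x N s.z).rot.rot := by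
      rw [c, flipPerm_nx, e']
      simp only [px, qx, St.rot, nxt_nxt]
    refine ⟨N.b, ?_, ?_⟩
    · rw [hu]; exact ⟨hpl, hi⟩
    · rw [hu]
      exact Or.inr ⟨N, k, s.z, hN, Or.inl (Or.inr (Or.inl e')), hs.2,
        Or.inl (Or.inr (Or.inr rfl)), hi⟩
  · -- `prv x`
    obtain ⟨N, k, hN, e, hm⟩ := exists_quad_x h (b := s.rot) hs.rot
      (by simp only [St.rot, c, nxt_prv])
    have e' : s = (px x N s.z).rot.rot := by
      rw [← s.rot3, e]; rfl
    have hpl : ((qy y N s.z).rot).Placed Q := (hN.placed_qy h s.z).rot'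
    have hi : ((qy y N s.z).rot).InTri :=
      inTri_transfer hs h0 hpl (by rw [e']; rfl) (by rw [e']; rfl) rfl
    have hu : (⟨flipPerm x y s.x, s.a, s.b, N.b, s.z⟩ : St F) = (qy y N s.z).rot := by
      rw [c, flipPerm_px, e']
      simp only [px, qy, St.rot]
    refine ⟨N.b, ?_, ?_⟩
    · rw [hu]; exact ⟨hpl, hi⟩
    · rw [hu]
      exact Or.inr ⟨N, k, s.z, hN, Or.inl (Or.inr (Or.inr e')), hs.2,
        Or.inr (Or.inr (Or.inl rfl)), hi⟩
  · exact absurd c h2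
  · -- `nxt y`
    obtain ⟨N, k, hN, e, hm⟩ := exists_quad_y h (b := s.rot.rot) hs.rot.rot
      (by simp only [St.rot, c, nxt_nxt, nxt_prv])
    have e' : s = (py y N s.z).rot := by
      rw [← s.rot3, e]; rfl
    have hpl : ((qy y N s.z).rot.rot).Placed Q := (hN.placed_qy h s.z).rot'.rot'
    have hi : ((qy y N s.z).rot.rot).InTri :=
      inTri_transfer hs h0 hpl (by rw [e']; rfl) (by rw [e']; rfl) rfl
    have hu : (⟨flipPerm x y s.x, s.a, s.b, N.d, s.z⟩ : St F) = (qy y N s.z).rot.rot := by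
      rw [c, flipPerm_ny h.ne, e']
      simp only [py, qy, St.rot, nxt_nxt]
    refine ⟨N.d, ?_, ?_⟩
    · rw [hu]; exact ⟨hpl, hi⟩
    · rw [hu]
      exact Or.inr ⟨N, k, s.z, hN, Or.inr (Or.inr (Or.inl e')), hs.2,
        Or.inr (Or.inr (Or.inr rfl)), hi⟩
  · -- `prv y`
    obtain ⟨N, k, hN, e, hm⟩ := exists_quad_y h (b := s.rot) hs.rot
      (by simp only [St.rot, c, nxt_prv])
    have e' : s = (py y N s.z).rot.rot := by
      rw [← s.rot3, e]; rfl
    have hpl : ((qx x N s.z).rot).Placed Q := (hN.placed_qx h s.z).rot'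
    have hi : ((qx x N s.z).rot).InTri :=
      inTri_transfer hs h0 hpl (by rw [e']; rfl) (by rw [e']; rfl) rfl
    have hu : (⟨flipPerm x y s.x, s.a, s.b, N.d, s.z⟩ : St F) = (qx x N s.z).rot := by
      rw [c, flipPerm_py h.ne, e']
      simp only [py, qx, St.rot]
    refine ⟨N.d, ?_, ?_⟩
    · rw [hu]; exact ⟨hpl, hi⟩
    · rw [hu]
      exact Or.inr ⟨N, k, s.z, hN, Or.inr (Or.inr (Or.inr e')), hs.2,
        Or.inl (Or.inr (Or.inl rfl)), hi⟩

theorem step_corr (h : FD P Q x y) {s s' : St F} (hst : Step P χ s s') :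
    ∃ u u', Corr P x y s u ∧ Corr P x y s' u' ∧ Chain Q χ u u' := by
  cases hst with
  | rot hs =>
    by_cases hx : s.x.1 ≠ x.1 ∧ s.x.1 ≠ y.1
    · exact ⟨s, s.rot, Or.inl ⟨hx.1, hx.2, hs.2, rfl⟩, Or.inl ⟨hx.1, hx.2, hs.rot.2, rfl⟩,
        .single (Step.rot s (valid_out h hs hx.1 hx.2))⟩
    · obtain ⟨u, hu⟩ := exists_corr h hs
      refine ⟨u, u, hu, ?_, .refl⟩
      rcases hu with ⟨h1, h2, h3, rfl⟩ | ⟨N, k, z, hN, hs', hi, hu, hui⟩
      · exact absurd ⟨h1, h2⟩ hx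
      · exact Or.inr ⟨N, k, z, hN, hs'.imp RotEq.rot RotEq.rot, hs.rot.2, hu, hui⟩
  | move r hs hr hs' =>
    by_cases hx : s.x.1 ≠ x.1 ∧ s.x.1 ≠ y.1
    · exact ⟨s, s.mv ((r : ℂ) * χ), Or.inl ⟨hx.1, hx.2, hs.2, rfl⟩,
        Or.inl ⟨hx.1, hx.2, hs'.2, rfl⟩,
        .single (Step.move s r (valid_out h hs hx.1 hx.2) hr (valid_out h hs' hx.1 hx.2))⟩
    · obtain ⟨N, k, hN, hr', hm⟩ := exists_quad h hs hx
      have hc := hN.convex h
      have hr'' : RotEq (px x N (s.z + (r : ℂ) * χ)) (s.mv ((r : ℂ) * χ)) ∨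
          RotEq (py y N (s.z + (r : ℂ) * χ)) (s.mv ((r : ℂ) * χ)) :=
        hr'.imp (fun e => e.mv _) (fun e => e.mv _)
      have hm' : N.Mem (s.z + (r : ℂ) * χ) := by
        rcases hr'' with e | e
        · exact ((inTri_px hc x _).1 (e.inTri.1 hs'.2)).1
        · exact ((inTri_py hc y _).1 (e.inTri.1 hs'.2)).1
      obtain ⟨u, u', h1, h2, h3, h4, h5⟩ := quad_move hN h hr hm hm'
      exact ⟨u, u', Or.inr ⟨N, k, s.z, hN, hr', hs.2, h1, h2⟩,
        Or.inr ⟨N, k, _, hN, hr'', hs'.2, h3, h4⟩, h5⟩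
  | cross d hs h0 hs' =>
    by_cases c1 : s.x = x
    · obtain ⟨N, k, hN, e, hm⟩ := exists_quad_x h hs c1
      obtain ⟨u, hu⟩ := exists_corr h hs
      refine ⟨u, u, hu, ?_, .refl⟩
      have e2 : (⟨P.glue s.x, s.b, s.a, d, s.z⟩ : St F) = py y N s.z := by
        have hpl := hN.placed_py h.vy s.z
        have := placed_unique hs'.1 hpl (by simp only [c1, h.gx, py])
          (by rw [e]; rfl) (by rw [e]; rfl)
        simp only [py] at this
        rw [this, c1, h.gx]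
        conv_lhs => rw [e]
        rfl
      have hs2 := hs'.2
      rw [e2] at hs2 ⊢
      rcases hu with ⟨h1, h2, h3, rfl⟩ | ⟨N', k', z', hN', hs', hi, hu, hui⟩
      · exact absurd (by rw [c1]) h1
      · have e3 : RotEq (px x N s.z) s := Or.inl e
        obtain ⟨rfl, rfl⟩ := quad_unique h.ne hN hN' (Or.inl e3) hs'
        exact Or.inr ⟨N, k, s.z, hN, Or.inr (RotEq.refl _), hs2, hu, hui⟩
    · by_cases c2 : s.x = y
      · obtain ⟨N, k, hN, e, hm⟩ := exists_quad_y h hs c2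
        obtain ⟨u, hu⟩ := exists_corr h hs
        refine ⟨u, u, hu, ?_, .refl⟩
        have e2 : (⟨P.glue s.x, s.b, s.a, d, s.z⟩ : St F) = px x N s.z := by
          have hpl := hN.placed_px h.vy s.z
          have := placed_unique hs'.1 hpl (by simp only [c2, h.gy, px])
            (by rw [e]; rfl) (by rw [e]; rfl)
          simp only [px] at this
          rw [this, c2, h.gy]
          conv_lhs => rw [e]
          rfl
        have hs2 := hs'.2
        rw [e2] at hs2 ⊢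
        rcases hu with ⟨h1, h2, h3, rfl⟩ | ⟨N', k', z', hN', hs', hi, hu, hui⟩
        · exact absurd (by rw [c2]) h2
        · have e3 : RotEq (py y N s.z) s := Or.inl e
          obtain ⟨rfl, rfl⟩ := quad_unique h.ne hN hN' (Or.inr e3) hs'
          exact Or.inr ⟨N, k, s.z, hN, Or.inl (RotEq.refl _), hs2, hu, hui⟩
      · obtain ⟨d1, v1, k1⟩ := exists_corr_side h hs c1 c2 h0
        have c3 : P.glue s.x ≠ x := by
          intro e
          apply c2
          rw [← P.glue_glue s.x, e, h.gx]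
        have c4 : P.glue s.x ≠ y := by
          intro e
          apply c1
          rw [← P.glue_glue s.x, e, h.gy]
        have h0' : cross (s.a - s.b) (s.z - s.b) = 0 := by
          have : cross (s.a - s.b) (s.z - s.b) = -cross (s.b - s.a) (s.z - s.a) := by
            simp [cross]; ring
          rw [this, h0, neg_zero]
        obtain ⟨d2, v2, k2⟩ := exists_corr_side h hs' c3 c4 h0'
        refine ⟨_, _, k1, k2, .single ?_⟩
        have hg := h.glue _ c1 c2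
        have hst := Step.cross (P := Q) (χ := χ) ⟨flipPerm x y s.x, s.a, s.b, d1, s.z⟩ d2 v1 h0
        simp only [hg] at hst
        exact hst v2

theorem chain_corr (h : FD P Q x y) {s s' : St F} (hst : Chain P χ s s') :
    ∀ u u', Corr P x y s u → Corr P x y s' u' → Chain Q χ u u' := by
  induction hst with
  | refl => exact fun u u' h1 h2 => h1.connect h h2
  | tail _ h2 ih =>
    intro u u' h3 h4
    obtain ⟨w, w', h5, h6, h7⟩ := step_corr h h2
    exact ((ih u w h3 h5).trans h7).trans (h6.connect h h4)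

theorem inTri_aff {s : St F} {l : ℝ} (hl : 0 < l) (β : ℂ) (h : s.InTri) : (s.aff l β).InTri := by
  obtain ⟨i1, i2, i3, i4, i5, i6⟩ := h
  have key : ∀ p q r : ℂ, cross (((l : ℂ) * q + β) - ((l : ℂ) * p + β))
      (((l : ℂ) * r + β) - ((l : ℂ) * p + β)) = l ^ 2 * cross (q - p) (r - p) := by
    intro p q r; simp [cross]; ring
  have hl' : (l : ℂ) ≠ 0 := Complex.ofReal_ne_zero.2 hl.ne'
  have ne : ∀ p q : ℂ, p ≠ q → (l : ℂ) * p + β ≠ (l : ℂ) * q + β := by
    intro p q hpq e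
    exact hpq (mul_left_cancel₀ hl' (add_right_cancel e))
  refine ⟨?_, ?_, ?_, ne _ _ i4, ne _ _ i5, ne _ _ i6⟩
  · simp only [St.aff, key]; positivity
  · simp only [St.aff, key]; positivity
  · simp only [St.aff, key]; positivity

theorem Corr.aff {s u : St F} (hu : Corr P x y s u) {l : ℝ} (hl : 0 < l) (β : ℂ) :
    Corr P x y (s.aff l β) (u.aff l β) := by
  rcases hu with ⟨h1, h2, h3, rfl⟩ | ⟨N, k, z, hN, hs, hi, hu, hui⟩
  · exact Or.inl ⟨h1, h2, inTri_aff hl β h3, rfl⟩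
  · refine Or.inr ⟨⟨(l : ℂ) * N.a + β, (l : ℂ) * N.b + β, (l : ℂ) * N.c + β, (l : ℂ) * N.d + β⟩,
      l * k, (l : ℂ) * z + β, ⟨mul_pos hl hN.hk, ?_, ?_, ?_, ?_⟩,
      hs.imp (fun e => e.aff l β) (fun e => e.aff l β), inTri_aff hl β hi,
      hu.imp (fun e => e.aff l β) (fun e => e.aff l β), inTri_aff hl β hui⟩
    · simp only; push_cast; linear_combination (l : ℂ) * hN.ab
    · simp only; push_cast; linear_combination (l : ℂ) * hN.bc
    · simp only; push_cast; linear_combination (l : ℂ) * hN.cd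
    · simp only; push_cast; linear_combination (l : ℂ) * hN.da

theorem LoopMult.flip (h : FD P Q x y) {l : ℝ} (hl : 0 < l) (hP : LoopMult P χ l) :
    LoopMult Q χ l := by
  obtain ⟨s, β, hs, hch⟩ := hP
  obtain ⟨u, hu⟩ := exists_corr h hs
  exact ⟨u, β, hu.valid h hs, chain_corr h hch u _ hu (hu.aff hl β)⟩

theorem TwoSided.flip {P Q : DSurf F} {x : Edge F} (h : Flip P Q x) (hP : TwoSided P) :
    TwoSided Q := by
  obtain ⟨χ, hχ, ⟨l, h1, h2, h3⟩, ⟨l', h4, h5, h6⟩⟩ := hP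
  exact ⟨χ, hχ, ⟨l, h1, h2, h3.flip h.fd (by linarith)⟩,
    ⟨l', h4, h5, h6.flip h.fd (by linarith)⟩⟩

end Run7.h669.Dil
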