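import Pool.Agent.Run7.h669.Dil.Defs

/-!
# Closed geodesics with a multiplier

We describe straight trajectories on a triangulated dilation surface by developing them in the
plane: a state is a placed triangle together with a point in it.
-/

noncomputable section

namespace Run7.h669.Dil

variable {F F' : Type*}

/-! ### Combinatorics of the sides -/

@[simp] theorem nxt_fst (x : Edge F) : (nxt x).1 = x.1 := rfl
@[simp] theorem prv_fst (x : Edge F) : (prv x).1 = x.1 := rfl

theorem nxt_nxt (x : Edge F) : nxt (nxt x) = prv x :=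
  Prod.ext rfl ((by decide : ∀ j : Fin 3, j + 1 + 1 = j + 2) x.2)

theorem nxt_prv (x : Edge F) : nxt (prv x) = x :=
  Prod.ext rfl ((by decide : ∀ j : Fin 3, j + 2 + 1 = j) x.2)

theorem prv_nxt (x : Edge F) : prv (nxt x) = x :=
  Prod.ext rfl ((by decide : ∀ j : Fin 3, j + 1 + 2 = j) x.2)

theorem prv_prv (x : Edge F) : prv (prv x) = nxt x :=
  Prod.ext rfl ((by decide : ∀ j : Fin 3, j + 2 + 2 = j + 1) x.2)

theorem nxt_ne (x : Edge F) : nxt x ≠ x := by
  obtain ⟨t, j⟩ := x
  fin_cases j <;> simp [nxt, Prod.ext_iff]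

theorem prv_ne (x : Edge F) : prv x ≠ x := by
  obtain ⟨t, j⟩ := x
  fin_cases j <;> simp [prv, Prod.ext_iff]

theorem nxt_ne_prv (x : Edge F) : nxt x ≠ prv x := by
  obtain ⟨t, j⟩ := x
  fin_cases j <;> simp [prv, nxt, Prod.ext_iff]

theorem edge_cases {x z : Edge F} (h : z.1 = x.1) : z = x ∨ z = nxt x ∨ z = prv x := by
  obtain ⟨t, j⟩ := x
  obtain ⟨s, k⟩ := z
  simp only at h
  subst h
  fin_cases j <;> fin_cases k <;> simp [prv, nxt, Prod.ext_iff]

/-! ### Cross products -/

theorem cross_add_left (z w u : ℂ) : cross (z + w) u = cross z u + cross w u := by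
  simp [cross]; ring

theorem cross_add_right (z w u : ℂ) : cross z (w + u) = cross z w + cross z u := by
  simp [cross]; ring

theorem cross_sub_left (z w u : ℂ) : cross (z - w) u = cross z u - cross w u := by
  simp [cross]; ring

theorem cross_sub_right (z w u : ℂ) : cross z (w - u) = cross z w - cross z u := by
  simp [cross]; ring

theorem cross_neg_left (z w : ℂ) : cross (-z) w = -cross z w := by
  simp [cross]; ring

theorem cross_neg_right (z w : ℂ) : cross z (-w) = -cross z w := by
  simp [cross]; ring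

theorem cross_self (z : ℂ) : cross z z = 0 := by
  simp [cross]; ring

theorem cross_comm (z w : ℂ) : cross z w = -cross w z := by
  simp [cross]; ring

theorem cross_mul_left (r : ℝ) (z w : ℂ) : cross ((r : ℂ) * z) w = r * cross z w := by
  simp [cross]; ring

theorem cross_mul_right (r : ℝ) (z w : ℂ) : cross z ((r : ℂ) * w) = r * cross z w := by
  simp [cross]; ring

theorem abs_cross_le (z w : ℂ) : |cross z w| ≤ ‖z‖ * ‖w‖ := by
  rw [← Real.sqrt_sq (norm_nonneg z), ← Real.sqrt_sq (norm_nonneg w), ← Real.sqrt_mul (sq_nonneg _)]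
  apply Real.abs_le_sqrt
  rw [← Complex.normSq_eq_norm_sq, ← Complex.normSq_eq_norm_sq, Complex.normSq_apply,
    Complex.normSq_apply, cross]
  nlinarith [sq_nonneg (z.re * w.re + z.im * w.im)]

theorem continuous_cross : Continuous fun p : ℂ × ℂ => cross p.1 p.2 := by
  unfold cross
  fun_prop

/-! ### The triangles of a surface -/

namespace DSurf

theorem v_sum (P : DSurf F) (x : Edge F) : P.v x + P.v (nxt x) + P.v (prv x) = 0 := by
  obtain ⟨t, j⟩ := x
  have h := P.closed t
  fin_cases j <;> simp only [nxt, prv] <;> rw [← h] <;> simp <;> ring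

/-- Twice the area of the triangle of `x`. -/
def area (P : DSurf F) (x : Edge F) : ℝ := cross (P.v x) (P.v (nxt x))

theorem area_nxt (P : DSurf F) (x : Edge F) : P.area (nxt x) = P.area x := by
  have h := P.v_sum x
  have h2 : P.v (prv x) = -(P.v x + P.v (nxt x)) := by linear_combination h
  rw [area, area, nxt_nxt, h2]
  simp [cross]; ring

theorem area_pos (P : DSurf F) (x : Edge F) : 0 < P.area x := by
  have h0 : ∀ t, 0 < P.area (t, 0) := P.pos
  obtain ⟨t, j⟩ := x
  fin_cases j
  · exact h0 t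
  · have := P.area_nxt (t, 0)
    rw [show ((t, (⟨1, by norm_num⟩ : Fin 3)) : Edge F) = nxt (t, 0) from rfl, this]
    exact h0 t
  · have h1 := P.area_nxt (t, 0)
    have h2 := P.area_nxt (nxt (t, 0))
    rw [show ((t, (⟨2, by norm_num⟩ : Fin 3)) : Edge F) = nxt (nxt (t, 0)) from rfl, h2, h1]
    exact h0 t

theorem area_prv (P : DSurf F) (x : Edge F) : P.area (prv x) = P.area x := by
  rw [← P.area_nxt (prv x), nxt_prv]

theorem v_ne (P : DSurf F) (x : Edge F) : P.v x ≠ 0 := by
  intro h
  have := P.area_pos x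
  simp [area, h, cross] at this

theorem norm_pos (P : DSurf F) (x : Edge F) : 0 < ‖P.v x‖ := norm_pos_iff.2 (P.v_ne x)

theorem v_glue (P : DSurf F) (x : Edge F) :
    P.v (P.glue x) = -(((‖P.v (P.glue x)‖ / ‖P.v x‖ : ℝ) : ℂ) * P.v x) := by
  obtain ⟨s, hs, h⟩ := P.par x
  have h2 : ‖P.v (P.glue x)‖ = s * ‖P.v x‖ := by
    rw [h, norm_neg, norm_mul, Complex.norm_real, Real.norm_of_nonneg hs.le]
  rw [h2, mul_div_assoc, div_self (P.norm_pos x).ne', mul_one, ← h]

@[ext] theorem ext' {P Q : DSurf F} (h1 : P.glue = Q.glue) (h2 : P.v = Q.v) : P = Q := by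
  cases P; cases Q; simp only at h1 h2; subst h1; subst h2; rfl

end DSurf

/-! ### Developed trajectories -/

/-- A state: the triangle of the side `x`, placed in the plane so that `x` goes from `a` to `b`,
the third vertex being `c`, and a point `z`. -/
structure St (F : Type*) where
  x : Edge F
  a : ℂ
  b : ℂ
  c : ℂ
  z : ℂ

namespace St

/-- The same state, seen from the next side. -/
def rot (s : St F) : St F := ⟨nxt s.x, s.b, s.c, s.a, s.z⟩

/-- Moving the point. -/
def mv (s : St F) (w : ℂ) : St F := ⟨s.x, s.a, s.b, s.c, s.z + w⟩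

/-- The image of a state under `z ↦ l z + β`. -/
def aff (s : St F) (l : ℝ) (β : ℂ) : St F :=
  ⟨s.x, (l : ℂ) * s.a + β, (l : ℂ) * s.b + β, (l : ℂ) * s.c + β, (l : ℂ) * s.z + β⟩

/-- The placed triangle is homothetic to the triangle of the surface. -/
def Placed (P : DSurf F) (s : St F) : Prop :=
  ∃ k : ℝ, 0 < k ∧ s.b - s.a = (k : ℂ) * P.v s.x ∧ s.c - s.b = (k : ℂ) * P.v (nxt s.x) ∧
    s.a - s.c = (k : ℂ) * P.v (prv s.x)

/-- The point lies in the closed triangle and is not a vertex. -/
def InTri (s : St F) : Prop :=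
  0 ≤ cross (s.b - s.a) (s.z - s.a) ∧ 0 ≤ cross (s.c - s.b) (s.z - s.b) ∧
    0 ≤ cross (s.a - s.c) (s.z - s.c) ∧ s.z ≠ s.a ∧ s.z ≠ s.b ∧ s.z ≠ s.c

/-- The states of the surface `P`. -/
def Valid (P : DSurf F) (s : St F) : Prop := s.Placed P ∧ s.InTri

theorem Valid.rot {P : DSurf F} {s : St F} (h : s.Valid P) : s.rot.Valid P := by
  obtain ⟨⟨k, hk, h1, h2, h3⟩, i1, i2, i3, i4, i5, i6⟩ := h
  refine ⟨⟨k, hk, h2, ?_, ?_⟩, i2, i3, i1, i5, i6, i4⟩
  · simp only [St.rot, nxt_nxt]; exact h3
  · simp only [St.rot, prv_nxt]; exact h1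

end St

/-- Elementary steps of a trajectory in the direction `χ`: seeing the same triangle from the next
side, moving forward in the triangle, crossing a side. -/
inductive Step (P : DSurf F) (χ : ℂ) : St F → St F → Prop
  | rot (s : St F) : s.Valid P → Step P χ s s.rot
  | move (s : St F) (r : ℝ) : s.Valid P → 0 ≤ r → (s.mv ((r : ℂ) * χ)).Valid P →
      Step P χ s (s.mv ((r : ℂ) * χ))
  | cross (s : St F) (d : ℂ) : s.Valid P → cross (s.b - s.a) (s.z - s.a) = 0 →
      St.Valid P ⟨P.glue s.x, s.b, s.a, d, s.z⟩ → Step P χ s ⟨P.glue s.x, s.b, s.a, d, s.z⟩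

/-- Chains of steps. -/
abbrev Chain (P : DSurf F) (χ : ℂ) : St F → St F → Prop := Relation.ReflTransGen (Step P χ)

/-- There is a closed trajectory in the direction `χ` with multiplier `l`. -/
def LoopMult (P : DSurf F) (χ : ℂ) (l : ℝ) : Prop :=
  ∃ (s : St F) (β : ℂ), s.Valid P ∧ Chain P χ s (s.aff l β)

/-- The invariant property: for some direction, there are closed geodesics with multiplier in
`(1, 5/2)` in this direction and in the opposite one. -/
def TwoSided (P : DSurf F) : Prop :=
  ∃ χ : ℂ, χ ≠ 0 ∧ (∃ l : ℝ, 1 < l ∧ l < 5 / 2 ∧ LoopMult P χ l) ∧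
    (∃ l : ℝ, 1 < l ∧ l < 5 / 2 ∧ LoopMult P (-χ) l)

theorem Step.valid_left {P : DSurf F} {χ : ℂ} {s s' : St F} (h : Step P χ s s') : s.Valid P := by
  cases h <;> assumption

theorem Step.valid_right {P : DSurf F} {χ : ℂ} {s s' : St F} (h : Step P χ s s') :
    s'.Valid P := by
  cases h
  · rename_i h; exact h.rot
  · assumption
  · assumption

/-! ### Invariance under relabelling -/

/-- The map on sides given by a relabelling. -/
def relEdge (e : F ≃ F') (r : F → Fin 3) (x : Edge F) : Edge F' := (e x.1, x.2 + r x.1)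

theorem nxt_relEdge (e : F ≃ F') (r : F → Fin 3) (x : Edge F) :
    nxt (relEdge e r x) = relEdge e r (nxt x) :=
  Prod.ext rfl ((by decide : ∀ j k : Fin 3, j + k + 1 = j + 1 + k) x.2 (r x.1))

theorem prv_relEdge (e : F ≃ F') (r : F → Fin 3) (x : Edge F) :
    prv (relEdge e r x) = relEdge e r (prv x) :=
  Prod.ext rfl ((by decide : ∀ j k : Fin 3, j + k + 2 = j + 2 + k) x.2 (r x.1))

/-- The image of a state under a relabelling. -/
def relSt (e : F ≃ F') (r : F → Fin 3) (s : St F) : St F' := ⟨relEdge e r s.x, s.a, s.b, s.c, s.z⟩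

theorem LoopMult.relabel {P : DSurf F} {Q : DSurf F'} (h : Relabel P Q) {χ : ℂ} {l : ℝ}
    (hl : LoopMult P χ l) : LoopMult Q χ l := by
  obtain ⟨e, r, c, hc, hg, hv⟩ := h
  have hg' : ∀ x, Q.glue (relEdge e r x) = relEdge e r (P.glue x) := fun x => hg x _ rfl
  have hv' : ∀ x, Q.v (relEdge e r x) = (c x.1 : ℂ) * P.v x := hv
  have valid : ∀ s : St F, s.Valid P → (relSt e r s).Valid Q := by
    rintro s ⟨⟨k, hk, h1, h2, h3⟩, hi⟩
    refine ⟨⟨k / c s.x.1, div_pos hk (hc _), ?_, ?_, ?_⟩, hi⟩
    · simp only [relSt, hv', h1]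
      have := Complex.ofReal_ne_zero.2 (hc s.x.1).ne'
      push_cast
      field_simp
    · simp only [relSt, nxt_relEdge, hv', h2, nxt_fst]
      have := Complex.ofReal_ne_zero.2 (hc s.x.1).ne'
      push_cast
      field_simp
    · simp only [relSt, prv_relEdge, hv', h3, prv_fst]
      have := Complex.ofReal_ne_zero.2 (hc s.x.1).ne'
      push_cast
      field_simp
  have step : ∀ s s' : St F, Step P χ s s' → Step Q χ (relSt e r s) (relSt e r s') := by
    intro s s' h
    cases h with
    | rot h =>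
      have := Step.rot (P := Q) (χ := χ) _ (valid s h)
      simp only [St.rot, relSt, nxt_relEdge] at this ⊢
      exact this
    | move t h ht h' => exact Step.move (relSt e r s) t (valid _ h) ht (valid _ h')
    | cross d h h' h'' =>
      have h3 := valid _ h''
      simp only [relSt, ← hg'] at h3 ⊢
      exact Step.cross (relSt e r s) d (valid _ h) h' h3
  obtain ⟨s, β, hs, hch⟩ := hl
  exact ⟨relSt e r s, β, valid s hs, hch.lift _ step⟩

theorem Relabel.symm {P : DSurf F} {Q : DSurf F'} (h : Relabel P Q) : Relabel Q P := by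
  obtain ⟨e, r, c, hc, hg, hv⟩ := h
  have hg' : ∀ x, Q.glue (relEdge e r x) = relEdge e r (P.glue x) := fun x => hg x _ rfl
  have hv' : ∀ x, Q.v (relEdge e r x) = (c x.1 : ℂ) * P.v x := hv
  have inv1 : ∀ y : Edge F', relEdge e r (e.symm y.1, y.2 + -r (e.symm y.1)) = y := by
    intro y
    simp [relEdge]
  have inj : Function.Injective (relEdge e r) := by
    rintro ⟨a, i⟩ ⟨b, j⟩ h
    simp only [relEdge, Prod.mk.injEq] at h
    obtain ⟨h1, h2⟩ := h
    have h1 := e.injective h1
    subst h1
    simpa using h2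
  refine ⟨e.symm, fun t => -r (e.symm t), fun t => 1 / c (e.symm t), fun t =>
    one_div_pos.2 (hc _), ?_, ?_⟩
  · intro x y hxy
    apply inj
    rw [← hg', inv1, hxy, inv1]
  · intro x
    have h1 := hv' (e.symm x.1, x.2 + -r (e.symm x.1))
    rw [inv1] at h1
    rw [h1]
    have := Complex.ofReal_ne_zero.2 (hc (e.symm x.1)).ne'
    push_cast
    field_simp

/-! ### Invariance under the linear action -/

/-- The image of a state under a linear map. -/
def linSt (A : SL2) (s : St F) : St F := ⟨s.x, lin A s.a, lin A s.b, lin A s.c, lin A s.z⟩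

theorem lin_injective (A : SL2) : Function.Injective (lin A) := by
  intro z w h
  have h2 : lin A (z - w) = 0 := by rw [lin_sub, h, sub_self]
  have h3 := cross_lin A (z - w) 1
  have h4 := cross_lin A (z - w) Complex.I
  rw [h2] at h3 h4
  simp [cross] at h3 h4
  have : z - w = 0 := by
    apply Complex.ext
    · simp; linarith
    · simp; linarith
  exact sub_eq_zero.1 this

theorem LoopMult.act {P : DSurf F} {χ : ℂ} {l : ℝ} (A : SL2)
    (hl : LoopMult P χ l) : LoopMult (P.act A) (lin A χ) l := by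
  have valid : ∀ s : St F, s.Valid P → (linSt A s).Valid (P.act A) := by
    rintro s ⟨⟨k, hk, h1, h2, h3⟩, i1, i2, i3, i4, i5, i6⟩
    refine ⟨⟨k, hk, ?_, ?_, ?_⟩, ?_, ?_, ?_, ?_, ?_, ?_⟩
    · simp only [linSt, ← lin_sub, h1, lin_mul]; rfl
    · simp only [linSt, ← lin_sub, h2, lin_mul]; rfl
    · simp only [linSt, ← lin_sub, h3, lin_mul]; rfl
    · simp only [linSt, ← lin_sub, cross_lin]; exact i1
    · simp only [linSt, ← lin_sub, cross_lin]; exact i2
    · simp only [linSt, ← lin_sub, cross_lin]; exact i3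
    · simp only [linSt]; exact fun h => i4 (lin_injective A h)
    · simp only [linSt]; exact fun h => i5 (lin_injective A h)
    · simp only [linSt]; exact fun h => i6 (lin_injective A h)
  have hmv : ∀ (s : St F) (t : ℝ), linSt A (s.mv ((t : ℂ) * χ)) =
      (linSt A s).mv ((t : ℂ) * lin A χ) := by
    intro s t
    simp only [linSt, St.mv, lin_add, lin_mul]
  have step : ∀ s s' : St F, Step P χ s s' →
      Step (P.act A) (lin A χ) (linSt A s) (linSt A s') := by
    intro s s' h
    cases h with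
    | rot h => exact Step.rot _ (valid s h)
    | move t h ht h' =>
      have h3 := valid _ h'
      rw [hmv] at h3 ⊢
      exact Step.move (linSt A s) t (valid _ h) ht h3
    | cross d h h' h'' =>
      refine Step.cross (P := P.act A) (linSt A s) (lin A d) (valid _ h) ?_ (valid _ h'')
      simp only [linSt, ← lin_sub, cross_lin]; exact h'
  obtain ⟨s, β, hs, hch⟩ := hl
  refine ⟨linSt A s, lin A β, valid s hs, ?_⟩
  have : (linSt A s).aff l (lin A β) = linSt A (s.aff l β) := by
    simp only [linSt, St.aff, lin_add, lin_mul]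
  rw [this]
  exact hch.lift _ step

theorem TwoSided.relabel {P : DSurf F} {Q : DSurf F'} (h : Relabel P Q) (hP : TwoSided P) :
    TwoSided Q := by
  obtain ⟨χ, hχ, ⟨l, h1, h2, h3⟩, ⟨l', h4, h5, h6⟩⟩ := hP
  exact ⟨χ, hχ, ⟨l, h1, h2, h3.relabel h⟩, ⟨l', h4, h5, h6.relabel h⟩⟩

theorem TwoSided.act {P : DSurf F} (hP : TwoSided P) (A : SL2) : TwoSided (P.act A) := by
  obtain ⟨χ, hχ, ⟨l, h1, h2, h3⟩, ⟨l', h4, h5, h6⟩⟩ := hP
  refine ⟨lin A χ, ?_, ⟨l, h1, h2, h3.act A⟩, ⟨l', h4, h5, ?_⟩⟩
  · intro h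
    exact hχ (lin_injective A (by rw [h, lin_zero]))
  · rw [← lin_neg]
    exact h6.act A

theorem lin_inv (A : SL2) (z : ℂ) : lin A⁻¹ (lin A z) = z := by
  have h := A.det_coe
  rw [Matrix.det_fin_two] at h
  apply Complex.ext
  · simp [lin, Matrix.SpecialLinearGroup.SL2_inv_expl]
    linear_combination z.re * h
  · simp [lin, Matrix.SpecialLinearGroup.SL2_inv_expl]
    linear_combination z.im * h

theorem act_inv_act (A : SL2) (P : DSurf F) : (P.act A).act A⁻¹ = P := by
  apply DSurf.ext'
  · rfl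
  · funext x
    exact lin_inv A _

theorem twoSided_act_iff {P : DSurf F} (A : SL2) : TwoSided (P.act A) ↔ TwoSided P := by
  constructor
  · intro h
    have := h.act A⁻¹
    rwa [act_inv_act] at this
  · intro h
    exact h.act A

end Run7.h669.Dil
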