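import Pool.Agent.Run7.h669.Dil.Near3

/-!
# A component of a triangulable locus without dense `SL₂(ℝ)`-orbit: the proof
-/

noncomputable section

namespace Run7.h669.Dil

open Filter Topology

/-- The property `TwoSided` of a point of the moduli space. -/
def Moduli.TwoSided (x : Moduli) : Prop := ∃ (N : ℕ) (P : DSurf (Fin N)), Dil.TwoSided P ∧
  Moduli.mk P = x

theorem twoSided_of_eqvGen {s t : Σ N : ℕ, DSurf (Fin N)} (h : Relation.EqvGen Move s t) :
    TwoSided s.2 ↔ TwoSided t.2 := by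
  induction h with
  | rel s t h =>
    rcases h with ⟨P, Q, h⟩ | ⟨P, Q, x, h⟩
    · exact ⟨fun h' => h'.relabel h, fun h' => h'.relabel h.symm⟩
    · exact ⟨fun h' => h'.flip h, fun h' =>
        (h'.flip (flip_flipSurf Q h.fd.flippable)).relabel (flip_twice h)⟩
  | refl s => exact Iff.rfl
  | symm s t _ ih => exact ih.symm
  | trans s t u _ _ ih1 ih2 => exact ih1.trans ih2

theorem moduli_twoSided_mk {N : ℕ} (P : DSurf (Fin N)) :
    (Moduli.mk P).TwoSided ↔ TwoSided P := by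
  constructor
  · rintro ⟨N', P', h, e⟩
    exact (twoSided_of_eqvGen (Quot.eqvGen_exact e)).1 h
  · exact fun h => ⟨N, P, h, rfl⟩

theorem moduli_twoSided_smul (A : SL2) (x : Moduli) : (A • x).TwoSided ↔ x.TwoSided := by
  obtain ⟨⟨N, P⟩⟩ := x
  exact (moduli_twoSided_mk (P.act A)).trans ((twoSided_act_iff A).trans (moduli_twoSided_mk P).symm)

/-- A property which holds near a surface holds near its class. -/
theorem eventually_moduli {N : ℕ} {P : DSurf (Fin N)} {p : Moduli → Prop}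
    (h : ∀ᶠ Q in 𝓝 P, p (Moduli.mk Q)) : ∀ᶠ x in 𝓝 (Moduli.mk P), p x := by
  have h1 := isOpenMap_mk.image_mem_nhds (x := ⟨N, P⟩)
    (s := {s : Σ N : ℕ, DSurf (Fin N) | p (Quot.mk Move s)}) (mem_nhds_sigma.2 h)
  refine mem_of_superset h1 ?_
  rintro _ ⟨s, hs, rfl⟩
  exact hs

theorem relabel_tr {F F' : Type*} (Q : DSurf F') (e : F ≃ F') : Relabel (Q.tr e) Q :=
  relabel_pull Q _ _ _ _

theorem tendsto_tr_symm {F F' : Type*} (Q : DSurf F') (e : F ≃ F') :
    Tendsto (fun P : DSurf F => P.tr e.symm) (𝓝 (Q.tr e)) (𝓝 Q) := by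
  have h := tendsto_pull (Q.tr e) e.symm (fun _ => 0) (fun _ => 1) (fun _ => one_pos)
  have e1 : (Q.tr e).pull e.symm (fun _ => 0) (fun _ => 1) (fun _ => one_pos) = Q := by
    apply DSurf.ext'
    · funext x
      show (relEquiv e.symm fun _ => 0).symm ((relEquiv e fun _ => 0).symm (Q.glue
        (relEquiv e (fun _ => 0) (relEquiv e.symm (fun _ => 0) x)))) = Q.glue x
      have h1 : ∀ y, relEquiv e (fun _ => 0) (relEquiv e.symm (fun _ => 0) y) = y := by
        rintro ⟨a, i⟩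
        simp [relEquiv, relEdge]
      rw [h1, Equiv.symm_apply_eq, Equiv.symm_apply_eq, h1]
    · funext x
      show ((1 : ℝ) : ℂ) * (((1 : ℝ) : ℂ) * Q.v
        (relEquiv e (fun _ => 0) (relEquiv e.symm (fun _ => 0) x))) = Q.v x
      have h1 : relEquiv e (fun _ => 0) (relEquiv e.symm (fun _ => 0) x) = x := by
        obtain ⟨a, i⟩ := x
        simp [relEquiv, relEdge]
      rw [h1]; simp
  rw [e1] at h
  exact h

theorem eventually_tr {F F' : Type*} {Q : DSurf F'} (e : F ≃ F') {p : Prop → Prop}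
    (h : ∀ᶠ P in 𝓝 Q, p (TwoSided P)) : ∀ᶠ P in 𝓝 (Q.tr e), p (TwoSided P) := by
  filter_upwards [(tendsto_tr_symm Q e).eventually h] with P hP
  have : TwoSided (P.tr e.symm) ↔ TwoSided P :=
    ⟨fun h => h.relabel (relabel_tr P _), fun h => h.relabel (relabel_tr P _).symm⟩
  rwa [propext this] at hP

/-- The component of the surface with parameter `5/4` has no dense orbit. -/
theorem main : ∃ x₀ ∈ Triangulable 4 [3, 3, 3],
    ∀ x ∈ connectedComponentIn (Triangulable 4 [3, 3, 3]) x₀,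
      closure (MulAction.orbit SL2 x) ∩ Triangulable 4 [3, 3, 3] ≠
        connectedComponentIn (Triangulable 4 [3, 3, 3]) x₀ := by
  have hq1 : (1 : ℝ) < 5 / 4 := by norm_num
  have hq2 : (1 : ℝ) < 3 / 2 := by norm_num
  set x₁ := Moduli.mk (Pn (5 / 4) hq1) with hx₁
  set x₂ := Moduli.mk (Pn (3 / 2) hq2) with hx₂
  have t1 : x₁ ∈ Triangulable 4 [3, 3, 3] := ⟨18, _, Pn_inStratum _ hq1, rfl⟩
  -- the two surfaces are in the same component
  have hcont : Continuous fun q : Set.Ioi (1 : ℝ) => Moduli.mk (Pn q.1 q.2) := by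
    have h1 : Continuous fun P : DSurf (Fin 18) => (Moduli.mk P) :=
      continuous_quot_mk.comp (continuous_sigmaMk (σ := fun N => DSurf (Fin N)))
    exact h1.comp continuous_Pn
  have hpre : IsPreconnected (Set.range fun q : Set.Ioi (1 : ℝ) => Moduli.mk (Pn q.1 q.2)) := by
    have : PreconnectedSpace (Set.Ioi (1 : ℝ)) :=
      Subtype.preconnectedSpace isPreconnected_Ioi
    exact isPreconnected_range hcont
  have hsub : (Set.range fun q : Set.Ioi (1 : ℝ) => Moduli.mk (Pn q.1 q.2)) ⊆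
      Triangulable 4 [3, 3, 3] := by
    rintro _ ⟨q, rfl⟩
    exact ⟨18, _, Pn_inStratum _ q.2, rfl⟩
  have hc := hpre.subset_connectedComponentIn (x := x₁) ⟨⟨5 / 4, hq1⟩, rfl⟩ hsub
  have m1 : x₁ ∈ connectedComponentIn (Triangulable 4 [3, 3, 3]) x₁ := hc ⟨⟨5 / 4, hq1⟩, rfl⟩
  have m2 : x₂ ∈ connectedComponentIn (Triangulable 4 [3, 3, 3]) x₁ := hc ⟨⟨3 / 2, hq2⟩, rfl⟩
  -- the invariant property near the two surfaces
  have n1 : ∀ᶠ x in 𝓝 x₁, x.TwoSided := by
    refine eventually_moduli ?_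
    have := eventually_tr eT (p := fun a => a) (eventually_twoSided hq1)
    filter_upwards [this] with P hP
    exact (moduli_twoSided_mk P).2 hP
  have n2 : ∀ᶠ x in 𝓝 x₂, ¬x.TwoSided := by
    refine eventually_moduli ?_
    have := eventually_tr eT (p := fun a => ¬a) (eventually_not_twoSided hq2)
    filter_upwards [this] with P hP
    exact fun h => hP ((moduli_twoSided_mk P).1 h)
  refine ⟨x₁, t1, fun x _ heq => ?_⟩
  rw [← heq] at m1 m2
  obtain ⟨y1, h1, A1, rfl⟩ := mem_closure_iff_nhds.1 m1.1 _ n1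
  obtain ⟨y2, h2, A2, rfl⟩ := mem_closure_iff_nhds.1 m2.1 _ n2
  exact h2 ((moduli_twoSided_smul A2 x).2 ((moduli_twoSided_smul A1 x).1 h1))

end Run7.h669.Dil
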