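import Pool.Agent.Run7.h669.Dil.Stratum

/-!
# Closed geodesics of the surfaces near the family
-/

noncomputable section

namespace Run7.h669.Dil

open Filter Topology

/-! ### Traversing a triangle -/

theorem exists_move {F : Type*} {P : DSurf F} {χ O : ℂ} {x : Edge F} {a b c z z' : ℂ}
    (hz : St.Valid P ⟨x, a, b, c, z⟩) (hz' : St.Valid P ⟨x, a, b, c, z'⟩)
    (h1 : cross χ (z - O) = 0) (h2 : cross χ (z' - O) = 0)
    (h3 : cross (b - a) (z - a) = 0) (h4 : 0 < cross (b - a) χ) :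
    Step P χ ⟨x, a, b, c, z⟩ ⟨x, a, b, c, z'⟩ := by
  obtain ⟨r, r0, e⟩ : ∃ r : ℝ, 0 ≤ r ∧ z' = z + (r : ℂ) * χ := by
    refine ⟨cross (b - a) (z' - a) / cross (b - a) χ, div_nonneg hz'.2.1 h4.le, ?_⟩
    have hr : cross (b - a) (z' - a) / cross (b - a) χ * cross (b - a) χ =
        cross (b - a) (z' - a) := div_mul_cancel₀ _ h4.ne'
    generalize cross (b - a) (z' - a) / cross (b - a) χ = r at hr
    have hD : z' - z - (r : ℂ) * χ = 0 := by
      refine eq_zero_of_cross (p := b - a) (q := χ) h4.ne' ?_ ?_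
      · have : cross (b - a) (z' - z - (r : ℂ) * χ) =
            cross (b - a) (z' - a) - cross (b - a) (z - a) - r * cross (b - a) χ := by
          simp [cross]; ring
        rw [this, h3, hr]
        ring
      · have : cross χ (z' - z - (r : ℂ) * χ) = cross χ (z' - O) - cross χ (z - O) := by
          simp [cross]; ring
        rw [this, h1, h2, sub_zero]
    linear_combination hD
  subst e
  exact Step.move ⟨x, a, b, c, z⟩ r hz r0 hz'

/-- The point where the line `O + ℝ χ` crosses the segment from `a` to `b`. -/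
def xpt (χ O a b : ℂ) : ℂ :=
  a + ((cross χ (a - O) / (cross χ (a - O) - cross χ (b - O)) : ℝ) : ℂ) * (b - a)

theorem xpt_line {χ O a b : ℂ} (h : cross χ (a - O) ≠ cross χ (b - O)) :
    cross χ (xpt χ O a b - O) = 0 := by
  have h' : cross χ (a - O) - cross χ (b - O) ≠ 0 := sub_ne_zero.2 h
  have e : cross χ (xpt χ O a b - O) = cross χ (a - O) -
      cross χ (a - O) / (cross χ (a - O) - cross χ (b - O)) *
        (cross χ (a - O) - cross χ (b - O)) := by
    simp only [xpt]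
    generalize cross χ (a - O) / (cross χ (a - O) - cross χ (b - O)) = τ
    simp [cross]; ring
  rw [e, div_mul_cancel₀ _ h', sub_self]

theorem xpt_comm {χ O a b : ℂ} (h : cross χ (a - O) ≠ cross χ (b - O)) :
    xpt χ O a b = xpt χ O b a := by
  have h1 : ((cross χ (a - O) - cross χ (b - O) : ℝ) : ℂ) ≠ 0 :=
    Complex.ofReal_ne_zero.2 (sub_ne_zero.2 h)
  have h2 : ((cross χ (b - O) - cross χ (a - O) : ℝ) : ℂ) ≠ 0 :=
    Complex.ofReal_ne_zero.2 (sub_ne_zero.2 h.symm)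
  simp only [xpt]
  push_cast at h1 h2 ⊢
  field_simp
  ring

theorem xpt_inTri {F : Type*} {P : DSurf F} {χ O : ℂ} {x : Edge F} {a b c : ℂ}
    (hp : ∀ z, St.Placed P ⟨x, a, b, c, z⟩)
    (h : cross χ (a - O) * cross χ (b - O) < 0) :
    St.InTri (⟨x, a, b, c, xpt χ O a b⟩ : St F) ∧
      cross (b - a) (xpt χ O a b - a) = 0 := by
  have t0 : 0 < cross χ (a - O) / (cross χ (a - O) - cross χ (b - O)) := by
    rcases lt_trichotomy (cross χ (a - O)) 0 with h1 | h1 | h1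
    · have h2 : 0 < cross χ (b - O) := by nlinarith
      exact div_pos_of_neg_of_neg h1 (by linarith)
    · rw [h1] at h; simp at h
    · have h2 : cross χ (b - O) < 0 := by nlinarith
      exact div_pos h1 (by linarith)
  have t1 : cross χ (a - O) / (cross χ (a - O) - cross χ (b - O)) < 1 := by
    rcases lt_trichotomy (cross χ (a - O)) 0 with h1 | h1 | h1
    · have h2 : 0 < cross χ (b - O) := by nlinarith
      rw [div_lt_one_of_neg (by linarith)]
      linarith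
    · rw [h1] at h; simp at h
    · have h2 : cross χ (b - O) < 0 := by nlinarith
      rw [div_lt_one (by linarith)]
      linarith
  exact inTri_of_seg (s := ⟨x, a, b, c, xpt χ O a b⟩) (hp _).area_pos t0 t1 rfl

/-! ### The strips -/

/-- Numbering modulo three. -/
def mm : ℕ → Fin 3
  | 0 => 0
  | n + 1 => mm n + 1

/-- The lower triangles of the strip. -/
def Lt (i : Fin 3) (n : ℕ) : T := (i, mm n, false)

/-- The upper triangles of the strip. -/
def Ut (i : Fin 3) (n : ℕ) : T := (i, mm n, true)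

/-- The scale of the lower triangles in the developed strip. -/
def al (P : DSurf T) (i : Fin 3) : ℕ → ℝ
  | 0 => 1
  | n + 1 => al P i n * (‖P.v (Lt i n, 1)‖ / ‖P.v (Ut i n, 2)‖) *
      (‖P.v (Ut i n, 0)‖ / ‖P.v (Lt i (n + 1), 2)‖)

/-- The scale of the upper triangles in the developed strip. -/
def be (P : DSurf T) (i : Fin 3) (n : ℕ) : ℝ :=
  al P i n * (‖P.v (Lt i n, 1)‖ / ‖P.v (Ut i n, 2)‖)

/-- The lower vertices of the developed strip. -/
def pA (P : DSurf T) (i : Fin 3) : ℕ → ℂ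
  | 0 => W i
  | n + 1 => pA P i n + (al P i n : ℂ) * P.v (Lt i n, 0)

/-- The upper vertices of the developed strip. -/
def pB (P : DSurf T) (i : Fin 3) (n : ℕ) : ℂ := pA P i n - (al P i n : ℂ) * P.v (Lt i n, 2)

section strip

variable {P : DSurf T} {i : Fin 3}

theorem al_pos (P : DSurf T) (i : Fin 3) (n : ℕ) : 0 < al P i n := by
  induction n with
  | zero => exact one_pos
  | succ n ih =>
    exact mul_pos (mul_pos ih (div_pos (P.norm_pos _) (P.norm_pos _)))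
      (div_pos (P.norm_pos _) (P.norm_pos _))

theorem be_pos (P : DSurf T) (i : Fin 3) (n : ℕ) : 0 < be P i n :=
  mul_pos (al_pos P i n) (div_pos (P.norm_pos _) (P.norm_pos _))

theorem al_succ (P : DSurf T) (i : Fin 3) (n : ℕ) : al P i (n + 1) =
    be P i n * (‖P.v (Ut i n, 0)‖ / ‖P.v (Lt i (n + 1), 2)‖) := rfl

theorem g0_L1 (i : Fin 3) (n : ℕ) : g0 (Lt i n, 1) = (Ut i n, 2) := by simp [g0, Lt, Ut]

theorem g0_U2 (i : Fin 3) (n : ℕ) : g0 (Ut i n, 2) = (Lt i n, 1) := by simp [g0, Lt, Ut]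

theorem g0_U0 (i : Fin 3) (n : ℕ) : g0 (Ut i n, 0) = (Lt i (n + 1), 2) := by
  simp [g0, Lt, Ut, mm]

theorem g0_L2 (i : Fin 3) (n : ℕ) : g0 (Lt i (n + 1), 2) = (Ut i n, 0) := by
  simp [g0, Lt, Ut, mm]

theorem scale_v {P : DSurf T} {x y : Edge T} (h : P.glue x = y) :
    ((‖P.v x‖ / ‖P.v y‖ : ℝ) : ℂ) * P.v y = -P.v x := by
  have h1 := P.v_glue x
  rw [h] at h1
  have n1 := Complex.ofReal_ne_zero.2 (P.norm_pos x).ne'
  have n2 := Complex.ofReal_ne_zero.2 (P.norm_pos y).ne'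
  have h7 := congrArg (fun w => ((‖P.v x‖ / ‖P.v y‖ : ℝ) : ℂ) * w) h1
  rw [h7]
  push_cast
  field_simp

theorem be_v2 (hg : P.glue = g0) (n : ℕ) :
    (be P i n : ℂ) * P.v (Ut i n, 2) = -((al P i n : ℂ) * P.v (Lt i n, 1)) := by
  have := scale_v (P := P) (x := (Lt i n, 1)) (y := (Ut i n, 2)) (by rw [hg, g0_L1])
  rw [be, Complex.ofReal_mul, mul_assoc, this]
  ring

theorem al_v2 (hg : P.glue = g0) (n : ℕ) :
    (al P i (n + 1) : ℂ) * P.v (Lt i (n + 1), 2) = -((be P i n : ℂ) * P.v (Ut i n, 0)) := by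
  have := scale_v (P := P) (x := (Ut i n, 0)) (y := (Lt i (n + 1), 2)) (by rw [hg, g0_U0])
  rw [al_succ, Complex.ofReal_mul, mul_assoc, this]
  ring

theorem placed_L (P : DSurf T) (i : Fin 3) (n : ℕ) (z : ℂ) :
    St.Placed P ⟨(Lt i n, 2), pB P i n, pA P i n, pA P i (n + 1), z⟩ := by
  have hs := P.v_sum (Lt i n, 2)
  refine ⟨al P i n, al_pos P i n, ?_, ?_, ?_⟩
  · simp only [pB]; ring
  · simp only [pA]
    show _ = (al P i n : ℂ) * P.v (Lt i n, 0)
    ring
  · simp only [pA, pB]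
    show _ = (al P i n : ℂ) * P.v (Lt i n, 1)
    have hs' : P.v (Lt i n, 2) + P.v (Lt i n, 0) + P.v (Lt i n, 1) = 0 := hs
    linear_combination (-(al P i n : ℂ)) * hs'

theorem placed_U (hg : P.glue = g0) (i : Fin 3) (n : ℕ) (z : ℂ) :
    St.Placed P ⟨(Ut i n, 2), pB P i n, pA P i (n + 1), pB P i (n + 1), z⟩ := by
  have hs : P.v (Ut i n, 2) + P.v (Ut i n, 0) + P.v (Ut i n, 1) = 0 := P.v_sum (Ut i n, 2)
  have hL : P.v (Lt i n, 2) + P.v (Lt i n, 0) + P.v (Lt i n, 1) = 0 := P.v_sum (Lt i n, 2)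
  have h1 := be_v2 (i := i) hg n
  have h2 := al_v2 (i := i) hg n
  refine ⟨be P i n, be_pos P i n, ?_, ?_, ?_⟩
  · simp only [pB, pA]
    linear_combination (al P i n : ℂ) * hL - h1
  · simp only [pB]
    show _ = (be P i n : ℂ) * P.v (Ut i n, 0)
    linear_combination -h2
  · simp only [pB, pA] at *
    show _ = (be P i n : ℂ) * P.v (Ut i n, 1)
    linear_combination -(al P i n : ℂ) * hL + h1 + h2 - (be P i n : ℂ) * hs

/-- The state at which the line `O + ℝ χ` enters the `n`-th lower triangle. -/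
def enter (P : DSurf T) (i : Fin 3) (χ O : ℂ) (n : ℕ) : St T :=
  ⟨(Lt i n, 2), pB P i n, pA P i n, pA P i (n + 1), xpt χ O (pB P i n) (pA P i n)⟩

theorem chain_enter (hg : P.glue = g0) {χ O : ℂ} (n : ℕ)
    (hA : cross χ (pA P i n - O) < 0) (hA' : cross χ (pA P i (n + 1) - O) < 0)
    (hB : 0 < cross χ (pB P i n - O)) (hB' : 0 < cross χ (pB P i (n + 1) - O)) :
    Chain P χ (enter P i χ O n) (enter P i χ O (n + 1)) := by
  have hpL := placed_L P i n
  have hpL' := placed_L P i (n + 1)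
  have hpU := placed_U hg i n
  -- the entry point
  obtain ⟨i1, j1⟩ := xpt_inTri (χ := χ) (O := O) hpL (mul_neg_of_pos_of_neg hB hA)
  have v1 : St.Valid P ⟨(Lt i n, 2), pB P i n, pA P i n, pA P i (n + 1),
    xpt χ O (pB P i n) (pA P i n)⟩ := ⟨hpL _, i1⟩
  -- the exit point of the lower triangle
  set z1 := xpt χ O (pA P i (n + 1)) (pB P i n) with hz1
  have hp2 : ∀ z, St.Placed P ⟨(Lt i n, 1), pA P i (n + 1), pB P i n, pA P i n, z⟩ :=
    fun z => (hpL z).rot'.rot'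
  obtain ⟨i2, j2⟩ := xpt_inTri (χ := χ) (O := O) hp2 (mul_neg_of_neg_of_pos hA' hB)
  have v2 : St.Valid P ⟨(Lt i n, 1), pA P i (n + 1), pB P i n, pA P i n, z1⟩ := ⟨hp2 _, i2⟩
  have v2' : St.Valid P ⟨(Lt i n, 2), pB P i n, pA P i n, pA P i (n + 1), z1⟩ := v2.rot
  have v2'' : St.Valid P ⟨(Lt i n, 0), pA P i n, pA P i (n + 1), pB P i n, z1⟩ := v2'.rot
  have l1 : cross χ (xpt χ O (pB P i n) (pA P i n) - O) = 0 := xpt_line (by linarith)
  have l2 : cross χ (z1 - O) = 0 := xpt_line (by linarith)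
  have s1 : Step P χ (enter P i χ O n) ⟨(Lt i n, 2), pB P i n, pA P i n, pA P i (n + 1), z1⟩ := by
    refine exists_move v1 v2' l1 l2 j1 ?_
    have : cross (pA P i n - pB P i n) χ = cross χ (pB P i n - O) - cross χ (pA P i n - O) := by
      simp [cross]; ring
    rw [this]; linarith
  have s2 : Step P χ ⟨(Lt i n, 2), pB P i n, pA P i n, pA P i (n + 1), z1⟩
      ⟨(Lt i n, 0), pA P i n, pA P i (n + 1), pB P i n, z1⟩ := Step.rot _ v2'
  have s3 : Step P χ ⟨(Lt i n, 0), pA P i n, pA P i (n + 1), pB P i n, z1⟩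
      ⟨(Lt i n, 1), pA P i (n + 1), pB P i n, pA P i n, z1⟩ := Step.rot _ v2''
  -- the upper triangle
  obtain ⟨i3, j3⟩ := xpt_inTri (χ := χ) (O := O) hpU (mul_neg_of_pos_of_neg hB hA')
  have z1' : xpt χ O (pB P i n) (pA P i (n + 1)) = z1 := xpt_comm (by linarith)
  rw [z1'] at i3 j3
  have v3 : St.Valid P ⟨(Ut i n, 2), pB P i n, pA P i (n + 1), pB P i (n + 1), z1⟩ := ⟨hpU _, i3⟩
  have s4 : Step P χ ⟨(Lt i n, 1), pA P i (n + 1), pB P i n, pA P i n, z1⟩
      ⟨(Ut i n, 2), pB P i n, pA P i (n + 1), pB P i (n + 1), z1⟩ := by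
    have hst := Step.cross (P := P) (χ := χ) ⟨(Lt i n, 1), pA P i (n + 1), pB P i n, pA P i n, z1⟩
      (pB P i (n + 1)) v2 j2
    simp only [hg, g0_L1] at hst
    exact hst v3
  set z2 := xpt χ O (pA P i (n + 1)) (pB P i (n + 1)) with hz2
  have hp4 : ∀ z, St.Placed P ⟨(Ut i n, 0), pA P i (n + 1), pB P i (n + 1), pB P i n, z⟩ :=
    fun z => (hpU z).rot'
  obtain ⟨i4, j4⟩ := xpt_inTri (χ := χ) (O := O) hp4 (mul_neg_of_neg_of_pos hA' hB')
  have v4 : St.Valid P ⟨(Ut i n, 0), pA P i (n + 1), pB P i (n + 1), pB P i n, z2⟩ := ⟨hp4 _, i4⟩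
  have v4' : St.Valid P ⟨(Ut i n, 2), pB P i n, pA P i (n + 1), pB P i (n + 1), z2⟩ := v4.rot.rot
  have l3 : cross χ (z2 - O) = 0 := xpt_line (by linarith)
  have s5 : Step P χ ⟨(Ut i n, 2), pB P i n, pA P i (n + 1), pB P i (n + 1), z1⟩
      ⟨(Ut i n, 2), pB P i n, pA P i (n + 1), pB P i (n + 1), z2⟩ := by
    refine exists_move v3 v4' l2 l3 j3 ?_
    have : cross (pA P i (n + 1) - pB P i n) χ =
        cross χ (pB P i n - O) - cross χ (pA P i (n + 1) - O) := by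
      simp [cross]; ring
    rw [this]; linarith
  have s6 : Step P χ ⟨(Ut i n, 2), pB P i n, pA P i (n + 1), pB P i (n + 1), z2⟩
      ⟨(Ut i n, 0), pA P i (n + 1), pB P i (n + 1), pB P i n, z2⟩ := Step.rot _ v4'
  obtain ⟨i5, j5⟩ := xpt_inTri (χ := χ) (O := O) hpL' (mul_neg_of_pos_of_neg hB' hA')
  have z2' : xpt χ O (pB P i (n + 1)) (pA P i (n + 1)) = z2 := xpt_comm (by linarith)
  have v5 : St.Valid P (enter P i χ O (n + 1)) := ⟨hpL' _, i5⟩
  have s7 : Step P χ ⟨(Ut i n, 0), pA P i (n + 1), pB P i (n + 1), pB P i n, z2⟩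
      (enter P i χ O (n + 1)) := by
    have hst := Step.cross (P := P) (χ := χ)
      ⟨(Ut i n, 0), pA P i (n + 1), pB P i (n + 1), pB P i n, z2⟩ (pA P i (n + 1 + 1)) v4 j4
    simp only [hg, g0_U0] at hst
    rw [enter, z2'] at v5 ⊢
    exact hst v5
  exact ((((((Relation.ReflTransGen.single s1).tail s2).tail s3).tail s4).tail s5).tail s6).tail s7

/-- The closed geodesic in a strip. -/
theorem loop_strip (hg : P.glue = g0) {χ : ℂ} (hl : 1 < al P i 3)
    (hA : ∀ n ≤ 3, cross χ (pA P i n -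
      (pA P i 3 - (al P i 3 : ℂ) * pA P i 0) / (1 - (al P i 3 : ℂ))) < 0)
    (hB : ∀ n ≤ 3, 0 < cross χ (pB P i n -
      (pA P i 3 - (al P i 3 : ℂ) * pA P i 0) / (1 - (al P i 3 : ℂ)))) :
    LoopMult P χ (al P i 3) := by
  set O := (pA P i 3 - (al P i 3 : ℂ) * pA P i 0) / (1 - (al P i 3 : ℂ)) with hO
  set β := pA P i 3 - (al P i 3 : ℂ) * pA P i 0 with hβ
  have hl' : (1 - (al P i 3 : ℂ)) ≠ 0 := by
    intro h
    have h2 : (al P i 3 : ℂ) = ((1 : ℝ) : ℂ) := by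
      rw [Complex.ofReal_one]; linear_combination -h
    have := Complex.ofReal_injective h2
    linarith
  have hOfix : (al P i 3 : ℂ) * O + β = O := by
    rw [hO]; field_simp; ring
  have c1 := chain_enter hg (χ := χ) (O := O) 0 (hA 0 (by norm_num)) (hA 1 (by norm_num))
    (hB 0 (by norm_num)) (hB 1 (by norm_num))
  have c2 := chain_enter hg (χ := χ) (O := O) 1 (hA 1 (by norm_num)) (hA 2 (by norm_num))
    (hB 1 (by norm_num)) (hB 2 (by norm_num))
  have c3 := chain_enter hg (χ := χ) (O := O) 2 (hA 2 (by norm_num)) (hA 3 (by norm_num))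
    (hB 2 (by norm_num)) (hB 3 (by norm_num))
  have i1 := (xpt_inTri (χ := χ) (O := O) (placed_L P i 0)
    (mul_neg_of_pos_of_neg (hB 0 (by norm_num)) (hA 0 (by norm_num)))).1
  refine ⟨enter P i χ O 0, β, ⟨placed_L P i 0 _, i1⟩, ?_⟩
  have e3 : Lt i 3 = Lt i 0 := by simp [Lt, mm]
  have eA : (al P i 3 : ℂ) * pA P i 0 + β = pA P i 3 := by rw [hβ]; ring
  have al0 : al P i 0 = 1 := rfl
  have eB : (al P i 3 : ℂ) * pB P i 0 + β = pB P i 3 := by
    rw [pB, pB, e3, al0, Complex.ofReal_one, ← eA]; ring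
  have eA1 : (al P i 3 : ℂ) * pA P i 1 + β = pA P i 4 := by
    rw [show pA P i 1 = pA P i 0 + (al P i 0 : ℂ) * P.v (Lt i 0, 0) from rfl,
      show pA P i 4 = pA P i 3 + (al P i 3 : ℂ) * P.v (Lt i 3, 0) from rfl, e3, al0,
      Complex.ofReal_one, ← eA]
    ring
  have ex : (al P i 3 : ℂ) * xpt χ O (pB P i 0) (pA P i 0) + β = xpt χ O (pB P i 3) (pA P i 3) := by
    have key : ∀ p : ℂ, cross χ (((al P i 3 : ℂ) * p + β) - O) = al P i 3 * cross χ (p - O) := by
      intro p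
      have : ((al P i 3 : ℂ) * p + β) - O = (al P i 3 : ℂ) * (p - O) := by
        linear_combination hOfix
      rw [this, cross_mul_right]
    have n0 : al P i 3 ≠ 0 := (al_pos P i 3).ne'
    rw [← eA, ← eB, xpt, xpt, key, key, ← mul_sub, mul_div_mul_left _ _ n0]
    ring
  have : (enter P i χ O 0).aff (al P i 3) β = enter P i χ O 3 := by
    simp only [enter, St.aff, ex, eA, eB, e3]
    rw [show (0 + 1 : ℕ) = 1 from rfl, show (3 + 1 : ℕ) = 4 from rfl, eA1]
  rw [this]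
  exact (c1.trans c2).trans c3

end strip

/-! ### Limits along the family -/

section limits

variable {q : ℝ} (hq : 1 < q) (i : Fin 3)

theorem v0_L0 (n : ℕ) : v0 q (Lt i n, 0) = ((q - 1 : ℝ) : ℂ) * W i := by
  simp [v0, Z0, nxt, h0, lev, Lt]
  ring

theorem v0_L2 (n : ℕ) : v0 q (Lt i n, 2) = W i - W (i + 1) := by
  simp [v0, Z0, nxt, h0, lev, Lt]

theorem norm_ratio {x y : Edge T} (h : g0 x = y) :
    ‖(Pq q hq).v x‖ / ‖(Pq q hq).v y‖ = 1 / ratio q x := by
  have h1 : (Pq q hq).v y = -((ratio q x : ℂ) * (Pq q hq).v x) := by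
    rw [← h]; exact v0_g0 (by linarith) x
  have h2 := ratio_pos (show 0 < q by linarith) x
  rw [h1, norm_neg, norm_mul, Complex.norm_real, Real.norm_of_nonneg h2.le]
  have := ((Pq q hq).norm_pos x).ne'
  field_simp

theorem tendsto_ratio (x y : Edge T) (h : g0 x = y) :
    Tendsto (fun P : DSurf T => ‖P.v x‖ / ‖P.v y‖) (𝓝 (Pq q hq)) (𝓝 (1 / ratio q x)) := by
  rw [← norm_ratio hq h]
  exact (tendsto_v _ x).norm.div (tendsto_v _ y).norm ((Pq q hq).norm_pos y).ne'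

theorem tendsto_al (n : ℕ) :
    Tendsto (fun P : DSurf T => al P i n) (𝓝 (Pq q hq)) (𝓝 (q ^ n)) := by
  induction n with
  | zero => simp [al]
  | succ n ih =>
    have h1 := tendsto_ratio hq (Lt i n, 1) (Ut i n, 2) (g0_L1 i n)
    have h2 := tendsto_ratio hq (Ut i n, 0) (Lt i (n + 1), 2) (g0_U0 i n)
    have r1 : ratio q (Lt i n, 1) = 1 := by simp [ratio, Lt]
    have r2 : ratio q (Ut i n, 0) = 1 / q := by simp [ratio, Ut]
    rw [r1] at h1
    rw [r2] at h2
    have h3 := (ih.mul h1).mul h2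
    have e : q ^ n * (1 / 1) * (1 / (1 / q)) = q ^ (n + 1) := by
      rw [one_div_one_div, pow_succ]; ring
    rw [e] at h3
    exact h3

theorem tendsto_ofReal {ι : Type*} {l : Filter ι} {f : ι → ℝ} {a : ℝ} (h : Tendsto f l (𝓝 a)) :
    Tendsto (fun i => (f i : ℂ)) l (𝓝 (a : ℂ)) :=
  (Complex.continuous_ofReal.tendsto a).comp h

theorem tendsto_pA (n : ℕ) :
    Tendsto (fun P : DSurf T => pA P i n) (𝓝 (Pq q hq)) (𝓝 ((q ^ n : ℝ) * W i)) := by
  induction n with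
  | zero => simp [pA]
  | succ n ih =>
    have h1 := (tendsto_ofReal (tendsto_al hq i n)).mul (tendsto_v (Pq q hq) (Lt i n, 0))
    have h2 := ih.add h1
    rw [show (Pq q hq).v (Lt i n, 0) = v0 q (Lt i n, 0) from rfl, v0_L0] at h2
    have e : ((q ^ n : ℝ) : ℂ) * W i + ((q ^ n : ℝ) : ℂ) * (((q - 1 : ℝ) : ℂ) * W i) =
        ((q ^ (n + 1) : ℝ) : ℂ) * W i := by
      push_cast; ring
    rw [e] at h2
    exact h2

theorem tendsto_pB (n : ℕ) :
    Tendsto (fun P : DSurf T => pB P i n) (𝓝 (Pq q hq)) (𝓝 ((q ^ n : ℝ) * W (i + 1))) := by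
  have h1 := (tendsto_ofReal (tendsto_al hq i n)).mul (tendsto_v (Pq q hq) (Lt i n, 2))
  have h2 := (tendsto_pA hq i n).sub h1
  rw [show (Pq q hq).v (Lt i n, 2) = v0 q (Lt i n, 2) from rfl, v0_L2] at h2
  have e : ((q ^ n : ℝ) : ℂ) * W i - ((q ^ n : ℝ) : ℂ) * (W i - W (i + 1)) =
      ((q ^ n : ℝ) : ℂ) * W (i + 1) := by
    ring
  rw [e] at h2
  exact h2

theorem tendsto_apex :
    Tendsto (fun P : DSurf T => (pA P i 3 - (al P i 3 : ℂ) * pA P i 0) / (1 - (al P i 3 : ℂ)))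
      (𝓝 (Pq q hq)) (𝓝 0) := by
  have h1 := tendsto_ofReal (tendsto_al hq i 3)
  have h2 := (tendsto_pA hq i 3).sub (h1.mul (tendsto_pA hq i 0))
  have h3 : Tendsto (fun P : DSurf T => (1 : ℂ) - (al P i 3 : ℂ)) (𝓝 (Pq q hq))
      (𝓝 (1 - ((q ^ 3 : ℝ) : ℂ))) := tendsto_const_nhds.sub h1
  have hne : (1 : ℂ) - ((q ^ 3 : ℝ) : ℂ) ≠ 0 := by
    intro h
    have h2 : ((q ^ 3 : ℝ) : ℂ) = ((1 : ℝ) : ℂ) := by
      rw [Complex.ofReal_one]; linear_combination -h
    have h4 := Complex.ofReal_injective h2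
    nlinarith [mul_pos (sub_pos.2 hq) (sub_pos.2 hq), sq_nonneg q]
  have h4 := h2.div h3 hne
  have e : (((q ^ 3 : ℝ) : ℂ) * W i - ((q ^ 3 : ℝ) : ℂ) * (((q ^ 0 : ℝ) : ℂ) * W i)) /
      (1 - ((q ^ 3 : ℝ) : ℂ)) = 0 := by
    simp
  rw [e] at h4
  exact h4

theorem eventually_loop (h3 : q ^ 3 < 5 / 2) {χ : ℂ} (h1 : 0 < cross (W i) χ)
    (h2 : 0 < cross χ (W (i + 1))) :
    ∀ᶠ P in 𝓝 (Pq q hq), ∃ l : ℝ, 1 < l ∧ l < 5 / 2 ∧ LoopMult P χ l := by
  have q0 : 0 < q := by linarith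
  have q3 : 1 < q ^ 3 := one_lt_pow₀ hq (by norm_num)
  have eA : ∀ n : ℕ, ∀ᶠ P in 𝓝 (Pq q hq), cross χ (pA P i n -
      (pA P i 3 - (al P i 3 : ℂ) * pA P i 0) / (1 - (al P i 3 : ℂ))) < 0 := by
    intro n
    have h4 := tendsto_cross (tendsto_const_nhds (x := χ))
      ((tendsto_pA hq i n).sub (tendsto_apex hq i))
    refine h4.eventually (gt_mem_nhds ?_)
    rw [sub_zero, cross_mul_right, cross_comm]
    have : 0 < q ^ n := by positivity
    nlinarith
  have eB : ∀ n : ℕ, ∀ᶠ P in 𝓝 (Pq q hq), 0 < cross χ (pB P i n -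
      (pA P i 3 - (al P i 3 : ℂ) * pA P i 0) / (1 - (al P i 3 : ℂ))) := by
    intro n
    have h4 := tendsto_cross (tendsto_const_nhds (x := χ))
      ((tendsto_pB hq i n).sub (tendsto_apex hq i))
    refine h4.eventually (lt_mem_nhds ?_)
    rw [sub_zero, cross_mul_right]
    have : 0 < q ^ n := by positivity
    positivity
  have hl := tendsto_al hq i 3
  filter_upwards [eventually_glue (Pq q hq), hl.eventually (lt_mem_nhds q3),
    hl.eventually (gt_mem_nhds h3), eA 0, eA 1, eA 2, eA 3, eB 0, eB 1, eB 2, eB 3] with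
    P hg p1 p2 a0 a1 a2 a3 b0 b1 b2 b3
  refine ⟨al P i 3, p1, p2, loop_strip (i := i) hg p1 ?_ ?_⟩
  · intro n hn
    interval_cases n <;> assumption
  · intro n hn
    interval_cases n <;> assumption

end limits

/-- Near the surface with parameter `5/4`, the surfaces have the property `TwoSided`. -/
theorem eventually_twoSided (hq : (1 : ℝ) < 5 / 4) : ∀ᶠ P in 𝓝 (Pq (5 / 4) hq), TwoSided P := by
  have h3 : (1 : ℝ) < √3 := by
    rw [show (1 : ℝ) = √1 by simp]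
    exact Real.sqrt_lt_sqrt (by norm_num) (by norm_num)
  have e1 := eventually_loop hq 0 (by norm_num) (χ := ⟨1, 1⟩) (by simp [cross, W])
    (by simp [cross, W]; linarith)
  have e2 := eventually_loop hq 1 (by norm_num) (χ := -⟨1, 1⟩) (by simp [cross, W]; linarith)
    (by simp [cross, W]; linarith)
  filter_upwards [e1, e2] with P h1 h2
  refine ⟨⟨1, 1⟩, ?_, h1, h2⟩
  intro h
  have := congrArg Complex.re h
  simp at this

end Run7.h669.Dil
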