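import Pool.Agent.Run7.h669.Dil.Near1

/-!
# All closed geodesics of the surfaces near the family, in most directions
-/

noncomputable section

namespace Run7.h669.Dil

open Filter Topology

/-! ### The position function -/

/-- Local scales at the corners. -/
def hP (P : DSurf T) : Edge T → ℝ := Classical.choose P.vert

theorem hP_pos (P : DSurf T) (x : Edge T) : 0 < hP P x := (Classical.choose_spec P.vert).1 x

theorem hP_compat (P : DSurf T) (x : Edge T) :
    hP P (nxt (P.glue x)) * ‖P.v x‖ = hP P x * ‖P.v (P.glue x)‖ :=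
  (Classical.choose_spec P.vert).2 x

/-- The base corner of a vertex. -/
def bas (l : Fin 3) : Edge T := ((l, 0, false), 0)

/-- Normalised local scales at the corners. -/
def H (P : DSurf T) (x : Edge T) : ℝ := hP P x / hP P (bas (lev x))

theorem H_pos (P : DSurf T) (x : Edge T) : 0 < H P x := div_pos (hP_pos P _) (hP_pos P _)

theorem H_compat {P : DSurf T} (hg : P.glue = g0) (x : Edge T) :
    H P (nxt (P.glue x)) * ‖P.v x‖ = H P x * ‖P.v (P.glue x)‖ := by
  have h1 := hP_compat P x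
  have h2 : lev (nxt (P.glue x)) = lev x := by rw [hg, lev_nxt_g0]
  rw [H, H, h2, div_mul_eq_mul_div, div_mul_eq_mul_div, h1]

theorem H_rot0 {P : DSurf T} (hg : P.glue = g0) (x : Edge T) :
    H P (rot0 x) = H P x * (‖P.v (rot0 x)‖ / ‖P.v (prv x)‖) := by
  have h1 := H_compat hg (rot0 x)
  have h2 : P.glue (rot0 x) = prv x := by rw [hg, rot0, g0_g0]
  rw [h2, nxt_prv] at h1
  have h3 := (P.norm_pos (prv x)).ne'
  field_simp
  linarith

theorem tendsto_H {q : ℝ} (hq : 1 < q) (x : Edge T) :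
    Tendsto (fun P : DSurf T => H P x) (𝓝 (Pq q hq)) (𝓝 (h0 q x)) := by
  have q0 : 0 < q := by linarith
  have key : ∀ (l : Fin 3) (n : ℕ), Tendsto (fun P : DSurf T => H P (rot0^[n] (bas l)))
      (𝓝 (Pq q hq)) (𝓝 (h0 q (rot0^[n] (bas l)))) := by
    intro l n
    induction n with
    | zero =>
      have e : ∀ P : DSurf T, H P (bas l) = 1 := by
        intro P
        have : lev (bas l) = l := by simp [lev, bas]
        rw [H, this, div_self (hP_pos P _).ne']
      simp only [Function.iterate_zero, id, e]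
      have : h0 q (bas l) = 1 := by simp [h0, bas]
      rw [this]
      exact tendsto_const_nhds
    | succ n ih =>
      rw [Function.iterate_succ_apply']
      set y := rot0^[n] (bas l) with hy
      have h1 := ih.mul ((tendsto_v (Pq q hq) (rot0 y)).norm.div
        (tendsto_v (Pq q hq) (prv y)).norm ((Pq q hq).norm_pos (prv y)).ne')
      have h2 : h0 q y * (‖(Pq q hq).v (rot0 y)‖ / ‖(Pq q hq).v (prv y)‖) = h0 q (rot0 y) := by
        have e1 : (Pq q hq).v (rot0 y) = -((ratio q (prv y) : ℂ) * (Pq q hq).v (prv y)) :=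
          v0_g0 q0.ne' (prv y)
        have e2 := h0_g0 q0.ne' (rot0 y)
        rw [rot0, g0_g0, nxt_prv] at e2
        have e3 := ratio_g0 q0.ne' (prv y)
        have e4 := ratio_pos q0 (prv y)
        rw [e1, norm_neg, norm_mul, Complex.norm_real, Real.norm_of_nonneg e4.le,
          mul_div_assoc, div_self ((Pq q hq).norm_pos _).ne', mul_one, rot0]
        rw [e2]
        linear_combination (h0 q (g0 (prv y))) * e3
      rw [h2] at h1
      refine h1.congr' ?_
      filter_upwards [eventually_glue (Pq q hq)] with P hP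
      exact (H_rot0 hP y).symm
  obtain ⟨n, hn⟩ := rot0_orbit x
  have := key (lev x) n.1
  rw [show rot0^[n.1] (bas (lev x)) = x from hn] at this
  exact this

/-- The normalised position of a corner. -/
def ZP (P : DSurf T) (x : Edge T) : ℂ := (H P x : ℂ) * W (lev x)

theorem tendsto_ZP {q : ℝ} (hq : 1 < q) (x : Edge T) :
    Tendsto (fun P : DSurf T => ZP P x) (𝓝 (Pq q hq)) (𝓝 (Z0 q x)) :=
  (tendsto_ofReal (tendsto_H hq x)).mul tendsto_const_nhds

theorem ZP_compat {P : DSurf T} (hg : P.glue = g0) (x : Edge T) :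
    ZP P (nxt (P.glue x)) * (‖P.v x‖ : ℂ) = ZP P x * (‖P.v (P.glue x)‖ : ℂ) := by
  have h1 := H_compat hg x
  have h2 : lev (nxt (P.glue x)) = lev x := by rw [hg, lev_nxt_g0]
  have h3 : ((H P (nxt (P.glue x)) : ℂ)) * (‖P.v x‖ : ℂ) =
      (H P x : ℂ) * (‖P.v (P.glue x)‖ : ℂ) := by
    rw [← Complex.ofReal_mul, ← Complex.ofReal_mul, h1]
  rw [ZP, ZP, h2]
  linear_combination (W (lev x)) * h3

/-- The affine interpolation of the positions. -/
def lerp (P : DSurf T) (x : Edge T) (u v w : ℂ) : ℂ :=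
  (ZP P x * (cross (P.v (nxt x)) u : ℂ) + ZP P (nxt x) * (cross (P.v (prv x)) v : ℂ) +
    ZP P (prv x) * (cross (P.v x) w : ℂ)) / (P.area x : ℂ)

/-- The position function on states. -/
def Xi (P : DSurf T) (s : St T) : ℂ := lerp P s.x (s.z - s.b) (s.z - s.c) (s.z - s.a)

theorem Xi_rot (P : DSurf T) (s : St T) : Xi P s.rot = Xi P s := by
  simp only [Xi, lerp, St.rot, nxt_nxt, prv_nxt, P.area_nxt]
  ring

theorem area_ne (P : DSurf T) (x : Edge T) : (P.area x : ℂ) ≠ 0 :=
  Complex.ofReal_ne_zero.2 (P.area_pos x).ne'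

theorem Xi_mv (P : DSurf T) (s : St T) (r : ℝ) (χ : ℂ) :
    Xi P (s.mv ((r : ℂ) * χ)) = Xi P s + (r : ℂ) * lerp P s.x χ χ χ := by
  simp only [Xi, lerp, St.mv]
  have h1 : ∀ u p : ℂ, cross u (s.z + (r : ℂ) * χ - p) = cross u (s.z - p) + r * cross u χ := by
    intro u p; simp [cross]; ring
  simp only [h1]
  have := area_ne P s.x
  push_cast
  field_simp
  ring

theorem Xi_aff (P : DSurf T) (s : St T) (l : ℝ) (β : ℂ) :
    Xi P (s.aff l β) = (l : ℂ) * Xi P s := by
  simp only [Xi, lerp, St.aff]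
  have h1 : ∀ u p : ℂ, cross u (((l : ℂ) * s.z + β) - ((l : ℂ) * p + β)) =
      l * cross u (s.z - p) := by
    intro u p; simp [cross]; ring
  simp only [h1]
  have := area_ne P s.x
  push_cast
  field_simp

theorem Xi_seg (P : DSurf T) {s : St T} {k : ℝ} (h1 : s.b - s.a = (k : ℂ) * P.v s.x) (h3 : s.a - s.c = (k : ℂ) * P.v (prv s.x)) {τ : ℝ}
    (hz : s.z = s.a + (τ : ℂ) * (s.b - s.a)) :
    Xi P s = (k : ℂ) * ((1 - τ : ℝ) * ZP P s.x + (τ : ℝ) * ZP P (nxt s.x)) := by
  have e1 : cross (P.v (nxt s.x)) (s.z - s.b) = (1 - τ) * k * P.area s.x := by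
    have : s.z - s.b = ((-(1 - τ) * k : ℝ) : ℂ) * P.v s.x := by
      rw [hz]; push_cast; linear_combination ((τ : ℂ) - 1) * h1
    rw [this, cross_mul_right, DSurf.area, cross_comm (P.v s.x)]
    ring
  have e2 : cross (P.v (prv s.x)) (s.z - s.c) = τ * k * P.area s.x := by
    have : s.z - s.c = (k : ℂ) * P.v (prv s.x) + ((τ * k : ℝ) : ℂ) * P.v s.x := by
      rw [hz]; push_cast; linear_combination (τ : ℂ) * h1 + h3
    have ha : cross (P.v (prv s.x)) (P.v s.x) = P.area s.x := by
      have := P.area_prv s.x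
      rwa [DSurf.area, nxt_prv] at this
    rw [this, cross_add_right, cross_mul_right, cross_mul_right, cross_self, ha]
    ring
  have e3 : cross (P.v s.x) (s.z - s.a) = 0 := by
    have : s.z - s.a = ((τ * k : ℝ) : ℂ) * P.v s.x := by
      rw [hz]; push_cast; linear_combination (τ : ℂ) * h1
    rw [this, cross_mul_right, cross_self, mul_zero]
  have := area_ne P s.x
  simp only [Xi, lerp, e1, e2, e3]
  push_cast
  field_simp
  ring

theorem Xi_cross {P : DSurf T} (hg : P.glue = g0) {s : St T} {d : ℂ} (hs : s.Valid P)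
    (h0 : cross (s.b - s.a) (s.z - s.a) = 0)
    (hs' : St.Valid P ⟨P.glue s.x, s.b, s.a, d, s.z⟩) :
    Xi P ⟨P.glue s.x, s.b, s.a, d, s.z⟩ = Xi P s := by
  obtain ⟨τ, t0, t1, hz⟩ := exists_seg hs.1.area_pos hs.2 h0
  obtain ⟨⟨k, hk, h1, h2, h3⟩, -⟩ := hs
  obtain ⟨⟨k', hk', h1', h2', h3'⟩, -⟩ := hs'
  simp only at h1' h2' h3'
  have hz' : s.z = s.b + ((1 - τ : ℝ) : ℂ) * (s.a - s.b) := by
    rw [hz]; push_cast; ring
  rw [Xi_seg P h1 h3 hz,
    Xi_seg P (s := ⟨P.glue s.x, s.b, s.a, d, s.z⟩) h1' h3' hz']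
  simp only
  -- the scales
  have n1 : k * ‖P.v s.x‖ = k' * ‖P.v (P.glue s.x)‖ := by
    have e1 := congrArg norm h1
    have e2 := congrArg norm h1'
    rw [norm_mul, Complex.norm_real, Real.norm_of_nonneg hk.le] at e1
    rw [norm_mul, Complex.norm_real, Real.norm_of_nonneg hk'.le, norm_sub_rev] at e2
    linarith
  have n1' : (k : ℂ) * (‖P.v s.x‖ : ℂ) = (k' : ℂ) * (‖P.v (P.glue s.x)‖ : ℂ) := by
    rw [← Complex.ofReal_mul, ← Complex.ofReal_mul, n1]
  have z1 := ZP_compat hg s.x
  have z2 := ZP_compat hg (P.glue s.x)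
  rw [P.glue_glue] at z2
  have nv : (‖P.v s.x‖ : ℂ) ≠ 0 := Complex.ofReal_ne_zero.2 (P.norm_pos _).ne'
  have nw : (‖P.v (P.glue s.x)‖ : ℂ) ≠ 0 := Complex.ofReal_ne_zero.2 (P.norm_pos _).ne'
  have r1 : (k' : ℂ) * ZP P (nxt (P.glue s.x)) = (k : ℂ) * ZP P s.x := by
    apply mul_right_cancel₀ nv
    linear_combination (k' : ℂ) * z1 - (ZP P s.x) * n1'
  have r2 : (k' : ℂ) * ZP P (P.glue s.x) = (k : ℂ) * ZP P (nxt s.x) := by
    apply mul_right_cancel₀ nv
    linear_combination -(k' : ℂ) * z2 - (ZP P (nxt s.x)) * n1'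
  push_cast
  linear_combination (τ : ℂ) * r2 + (1 - (τ : ℂ)) * r1

/-! ### The weights -/

/-- The position is a combination of the corner positions with nonnegative coefficients. -/
theorem Xi_weights {P : DSurf T} {s : St T} (hs : s.Valid P) :
    ∃ α β γ : ℝ, 0 ≤ α ∧ 0 ≤ β ∧ 0 ≤ γ ∧ 0 < α + β + γ ∧
      Xi P s = (α : ℂ) * ZP P s.x + (β : ℂ) * ZP P (nxt s.x) + (γ : ℂ) * ZP P (prv s.x) := by
  obtain ⟨⟨k, hk, h1, h2, h3⟩, i1, i2, i3, -⟩ := hs
  have hA := P.area_pos s.x
  rw [h1, cross_mul_left] at i1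
  rw [h2, cross_mul_left] at i2
  rw [h3, cross_mul_left] at i3
  have j1 := nonneg_of_mul_nonneg_right i1 hk
  have j2 := nonneg_of_mul_nonneg_right i2 hk
  have j3 := nonneg_of_mul_nonneg_right i3 hk
  refine ⟨cross (P.v (nxt s.x)) (s.z - s.b) / P.area s.x,
    cross (P.v (prv s.x)) (s.z - s.c) / P.area s.x,
    cross (P.v s.x) (s.z - s.a) / P.area s.x, div_nonneg j2 hA.le, div_nonneg j3 hA.le,
    div_nonneg j1 hA.le, ?_, ?_⟩
  · have key : cross (P.v (nxt s.x)) (s.z - s.b) + cross (P.v (prv s.x)) (s.z - s.c) +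
        cross (P.v s.x) (s.z - s.a) = k * P.area s.x := by
      have hs := P.v_sum s.x
      have e0 : P.v (prv s.x) = -(P.v s.x + P.v (nxt s.x)) := by linear_combination hs
      have e1 : s.z - s.b = (s.z - s.a) - (k : ℂ) * P.v s.x := by linear_combination -h1
      have e2 : s.z - s.c = (s.z - s.a) + (k : ℂ) * P.v (prv s.x) := by linear_combination h3
      rw [e1, e2, e0, DSurf.area]
      generalize s.z - s.a = w
      simp [cross]; ring
    rw [← add_div, ← add_div, key, mul_div_assoc, div_self hA.ne', mul_one]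
    exact hk
  · simp only [Xi, lerp]
    have := area_ne P s.x
    push_cast
    field_simp

theorem cross_W_self (i : Fin 3) : cross (W i) (W i) = 0 := cross_self _

theorem cross_W' (i : Fin 3) : cross (W (i + 1)) (W i) = -(√3 / 2) := by
  rw [cross_comm, cross_W]

theorem cross_W2 (i : Fin 3) : cross (W i) (W (i + 2)) = -(√3 / 2) := by
  have h := cross_W' (i + 2)
  rwa [(by decide : ∀ i : Fin 3, i + 2 + 1 = i) i] at h

theorem cross_W2' (i : Fin 3) : cross (W (i + 2)) (W i) = √3 / 2 := by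
  rw [cross_comm, cross_W2, neg_neg]

theorem lev_mem (x : Edge T) : lev x = x.1.1 ∨ lev x = x.1.1 + 1 := by
  revert x; decide

theorem cross_ZP_left (P : DSurf T) (u : ℂ) (x : Edge T) :
    cross u (ZP P x) = H P x * cross u (W (lev x)) := cross_mul_right _ _ _

theorem cross_ZP_right (P : DSurf T) (u : ℂ) (x : Edge T) :
    cross (ZP P x) u = H P x * cross (W (lev x)) u := cross_mul_left _ _ _

theorem Xi_ne_zero {P : DSurf T} {s : St T} (hs : s.Valid P) : Xi P s ≠ 0 := by
  intro h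
  obtain ⟨α, β, γ, h1, h2, h3, h4, h5⟩ := Xi_weights hs
  set j := s.x.1.1 with hj
  have h3' : 0 < √3 := Real.sqrt_pos.2 (by norm_num)
  have key : ∀ x : Edge T, x.1 = s.x.1 →
      0 < cross (W j) (ZP P x) + cross (ZP P x) (W (j + 1)) := by
    intro x hx
    have hH := H_pos P x
    rw [cross_ZP_left, cross_ZP_right]
    rcases lev_mem x with e | e <;> rw [e, hx, ← hj]
    · rw [cross_self, cross_W]; positivity
    · rw [cross_self, cross_W]; positivity
  have e := congrArg (fun w => cross (W j) w + cross w (W (j + 1))) h5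
  simp only [h, cross_add_left, cross_add_right, cross_mul_left, cross_mul_right] at e
  have e0 : cross (W j) 0 + cross 0 (W (j + 1)) = 0 := by simp [cross]
  rw [e0] at e
  have k1 := key s.x rfl
  have k2 := key (nxt s.x) rfl
  have k3 := key (prv s.x) rfl
  have m1 := mul_nonneg h1 k1.le
  have m2 := mul_nonneg h2 k2.le
  have m3 := mul_nonneg h3 k3.le
  have z1 : α * (cross (W j) (ZP P s.x) + cross (ZP P s.x) (W (j + 1))) = 0 := by nlinarith
  have z2 : β * (cross (W j) (ZP P (nxt s.x)) + cross (ZP P (nxt s.x)) (W (j + 1))) = 0 := by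
    nlinarith
  have z3 : γ * (cross (W j) (ZP P (prv s.x)) + cross (ZP P (prv s.x)) (W (j + 1))) = 0 := by
    nlinarith
  have a1 := (mul_eq_zero.1 z1).resolve_right k1.ne'
  have a2 := (mul_eq_zero.1 z2).resolve_right k2.ne'
  have a3 := (mul_eq_zero.1 z3).resolve_right k3.ne'
  rw [a1, a2, a3] at h4
  norm_num at h4

/-- A state whose position is in the open sector `i` lies in the cylinder `i`. -/
theorem in_sector {P : DSurf T} {s : St T} (hs : s.Valid P) {i : Fin 3}
    (h1 : 0 < cross (W i) (Xi P s)) (h2 : 0 < cross (Xi P s) (W (i + 1))) : s.x.1.1 = i := by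
  obtain ⟨α, β, γ, a1, a2, a3, -, h5⟩ := Xi_weights hs
  by_contra hne
  have h3' : 0 < √3 := Real.sqrt_pos.2 (by norm_num)
  have hj : s.x.1.1 = i + 1 ∨ s.x.1.1 = i + 2 :=
    (by decide : ∀ i j : Fin 3, ¬j = i → j = i + 1 ∨ j = i + 2) i _ hne
  rcases hj with hj | hj
  · have key : ∀ x : Edge T, x.1 = s.x.1 → cross (ZP P x) (W (i + 1)) ≤ 0 := by
      intro x hx
      have hH := H_pos P x
      rw [cross_ZP_right]
      rcases lev_mem x with e | e <;> rw [e, hx, hj]
      · rw [cross_self, mul_zero]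
      · rw [cross_W']
        nlinarith [mul_pos hH h3']
    rw [h5, cross_add_left, cross_add_left, cross_mul_left, cross_mul_left, cross_mul_left] at h2
    have k1 := mul_nonpos_of_nonneg_of_nonpos a1 (key s.x rfl)
    have k2 := mul_nonpos_of_nonneg_of_nonpos a2 (key (nxt s.x) rfl)
    have k3 := mul_nonpos_of_nonneg_of_nonpos a3 (key (prv s.x) rfl)
    linarith
  · have key : ∀ x : Edge T, x.1 = s.x.1 → cross (W i) (ZP P x) ≤ 0 := by
      intro x hx
      have hH := H_pos P x
      rw [cross_ZP_left]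
      rcases lev_mem x with e | e <;> rw [e, hx, hj]
      · rw [cross_W2]
        nlinarith [mul_pos hH h3']
      · rw [(by decide : ∀ i : Fin 3, i + 2 + 1 = i) i, cross_self, mul_zero]
    rw [h5, cross_add_right, cross_add_right, cross_mul_right, cross_mul_right,
      cross_mul_right] at h1
    have k1 := mul_nonpos_of_nonneg_of_nonpos a1 (key s.x rfl)
    have k2 := mul_nonpos_of_nonneg_of_nonpos a2 (key (nxt s.x) rfl)
    have k3 := mul_nonpos_of_nonneg_of_nonpos a3 (key (prv s.x) rfl)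
    linarith

end Run7.h669.Dil
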