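import Pool.Agent.Run7.h669.Dil.Near2

/-!
# All closed geodesics of the surfaces near the family, in most directions: conclusion
-/

noncomputable section

namespace Run7.h669.Dil

open Filter Topology

/-- The direction `χ` is carried into the open sector `i` by the derivative of the position. -/
def Into (P : DSurf T) (i : Fin 3) (χ : ℂ) : Prop :=
  ∀ x : Edge T, 0 < cross (W i) (lerp P x χ χ χ) ∧ 0 < cross (lerp P x χ χ χ) (W (i + 1))

/-- The position has not moved, or it has moved into the sector. -/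
def Adv (i : Fin 3) (z w : ℂ) : Prop :=
  w = z ∨ (cross (W i) z < cross (W i) w ∧ cross z (W (i + 1)) < cross w (W (i + 1)))

theorem Adv.trans {i : Fin 3} {u v w : ℂ} (h : Adv i u v) (h' : Adv i v w) : Adv i u w := by
  rcases h with rfl | ⟨h1, h2⟩
  · exact h'
  · rcases h' with rfl | ⟨h3, h4⟩
    · exact Or.inr ⟨h1, h2⟩
    · exact Or.inr ⟨h1.trans h3, h2.trans h4⟩

variable {P : DSurf T} {i : Fin 3} {χ : ℂ}

theorem step_adv (hg : P.glue = g0) (hχ : Into P i χ) {s s' : St T} (h : Step P χ s s') :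
    Adv i (Xi P s) (Xi P s') := by
  cases h with
  | rot h => exact Or.inl (Xi_rot P s)
  | move r h hr h' =>
    rw [Xi_mv]
    rcases hr.lt_or_eq with hr | hr
    · right
      have := hχ s.x
      rw [cross_add_right, cross_add_left, cross_mul_right, cross_mul_left]
      have h1 := mul_pos hr this.1
      have h2 := mul_pos hr this.2
      constructor <;> linarith
    · left
      rw [← hr]; simp
  | cross d h h0 h' => exact Or.inl (Xi_cross hg h h0 h')

theorem chain_adv (hg : P.glue = g0) (hχ : Into P i χ) {s s' : St T} (h : Chain P χ s s') :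
    Adv i (Xi P s) (Xi P s') := by
  induction h with
  | refl => exact Or.inl rfl
  | tail _ h2 ih => exact ih.trans (step_adv hg hχ h2)

/-- The position along a closed trajectory is in the sector. -/
theorem loop_start (hg : P.glue = g0) (hχ : Into P i χ) {s : St T} (hs : s.Valid P) {l : ℝ}
    (hl : 1 < l) {β : ℂ} (h : Chain P χ s (s.aff l β)) :
    0 < cross (W i) (Xi P s) ∧ 0 < cross (Xi P s) (W (i + 1)) := by
  have h1 := chain_adv hg hχ h
  rw [Xi_aff] at h1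
  rcases h1 with h1 | ⟨h1, h2⟩
  · exfalso
    have h2 : ((l - 1 : ℝ) : ℂ) * Xi P s = 0 := by push_cast; linear_combination h1
    rcases mul_eq_zero.1 h2 with h3 | h3
    · have := Complex.ofReal_eq_zero.1 h3
      linarith
    · exact Xi_ne_zero hs h3
  · rw [cross_mul_right] at h1
    rw [cross_mul_left] at h2
    constructor <;> nlinarith

/-! ### The scale along a trajectory in a cylinder -/

/-- The scale of the triangle in the developed strip. -/
def wt (P : DSurf T) (t : T) : ℝ :=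
  if t.2.2 then be P t.1 t.2.1.val else al P t.1 t.2.1.val

theorem wt_pos (P : DSurf T) (t : T) : 0 < wt P t := by
  unfold wt
  split_ifs
  · exact be_pos _ _ _
  · exact al_pos _ _ _

/-- The normalised scale of a state. -/
def sc (P : DSurf T) (s : St T) : ℝ := ‖s.b - s.a‖ / ‖P.v s.x‖ / wt P s.x.1

theorem sc_eq {s : St T} {k : ℝ} (hk : 0 < k) (h1 : s.b - s.a = (k : ℂ) * P.v s.x) :
    sc P s = k / wt P s.x.1 := by
  rw [sc, h1, norm_mul, Complex.norm_real, Real.norm_of_nonneg hk.le, mul_div_assoc,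
    div_self (P.norm_pos _).ne', mul_one]

theorem sc_rot {s : St T} (hs : s.Valid P) : sc P s.rot = sc P s := by
  obtain ⟨⟨k, hk, h1, h2, h3⟩, -⟩ := hs
  rw [sc_eq hk h1, sc_eq (s := s.rot) hk h2]
  rfl

theorem sc_pos {s : St T} (hs : s.Valid P) : 0 < sc P s := by
  obtain ⟨⟨k, hk, h1, h2, h3⟩, -⟩ := hs
  rw [sc_eq hk h1]
  exact div_pos hk (wt_pos _ _)

/-- Passing to the next triangle in the cylinder. -/
theorem wt_g0 (P : DSurf T) (x : Edge T) (h : (g0 x).1.1 = x.1.1) :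
    ∃ n : ℤ, ‖P.v x‖ / ‖P.v (g0 x)‖ / wt P (g0 x).1 = al P x.1.1 3 ^ n / wt P x.1 := by
  have key1 : ∀ (i : Fin 3) (n : ℕ) (m : Fin 3), mm n = m → n = m.val →
      wt P (i, m, false) = al P i n ∧ wt P (i, m, true) = be P i n ∧
        (i, m, false) = Lt i n ∧ (i, m, true) = Ut i n := by
    intro i n m h1 h2
    refine ⟨?_, ?_, ?_, ?_⟩
    · simp [wt, ← h2]
    · simp [wt, ← h2]
    · simp [Lt, h1]
    · simp [Ut, h1]
  have k0 := fun i => key1 i 0 0 rfl rfl
  have k1 := fun i => key1 i 1 1 rfl rfl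
  have k2 := fun i => key1 i 2 2 rfl rfl
  have c1 : ∀ (i : Fin 3) (n : ℕ), ‖P.v (Lt i n, 1)‖ / ‖P.v (Ut i n, 2)‖ / be P i n =
      1 / al P i n := by
    intro i n
    have h1 := (P.norm_pos (Lt i n, 1)).ne'
    have h2 := (P.norm_pos (Ut i n, 2)).ne'
    have h3 := (al_pos P i n).ne'
    rw [be]
    field_simp
  have c2 : ∀ (i : Fin 3) (n : ℕ), ‖P.v (Ut i n, 2)‖ / ‖P.v (Lt i n, 1)‖ / al P i n =
      1 / be P i n := by
    intro i n
    have h1 := (P.norm_pos (Lt i n, 1)).ne'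
    have h2 := (P.norm_pos (Ut i n, 2)).ne'
    have h3 := (al_pos P i n).ne'
    rw [be]
    field_simp
  have c3 : ∀ (i : Fin 3) (n : ℕ),
      ‖P.v (Ut i n, 0)‖ / ‖P.v (Lt i (n + 1), 2)‖ / al P i (n + 1) = 1 / be P i n := by
    intro i n
    have h1 := (P.norm_pos (Ut i n, 0)).ne'
    have h2 := (P.norm_pos (Lt i (n + 1), 2)).ne'
    have h3 := (be_pos P i n).ne'
    rw [al_succ]
    field_simp
  have c4 : ∀ (i : Fin 3) (n : ℕ),
      ‖P.v (Lt i (n + 1), 2)‖ / ‖P.v (Ut i n, 0)‖ / be P i n = 1 / al P i (n + 1) := by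
    intro i n
    have h1 := (P.norm_pos (Ut i n, 0)).ne'
    have h2 := (P.norm_pos (Lt i (n + 1), 2)).ne'
    have h3 := (be_pos P i n).ne'
    rw [al_succ]
    field_simp
  have a0 : ∀ i, al P i 0 = 1 := fun i => rfl
  have e3 : ∀ i, Lt i 3 = Lt i 0 := by intro i; simp [Lt, mm]
  obtain ⟨⟨i, m, k⟩, j⟩ := x
  cases k
  · -- lower triangles
    fin_cases j
    · -- side 0
      exfalso
      simp [g0] at h
    · -- side 1
      refine ⟨0, ?_⟩
      rw [zpow_zero]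
      show ‖P.v ((i, m, false), 1)‖ / ‖P.v (g0 ((i, m, false), 1))‖ /
        wt P (g0 ((i, m, false), 1)).1 = 1 / wt P (i, m, false)
      have e : g0 ((i, m, false), 1) = ((i, m, true), 2) := by simp [g0]
      rw [e]
      simp only
      fin_cases m
      · obtain ⟨p1, p2, p3, p4⟩ := k0 i
        simp only [Fin.zero_eta]
        rw [p1, p2, p3, p4]; exact c1 i 0
      · obtain ⟨p1, p2, p3, p4⟩ := k1 i
        simp only [Fin.mk_one]
        rw [p1, p2, p3, p4]; exact c1 i 1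
      · obtain ⟨p1, p2, p3, p4⟩ := k2 i
        simp only [Fin.reduceFinMk]
        rw [p1, p2, p3, p4]; exact c1 i 2
    · -- side 2
      show ∃ n : ℤ, ‖P.v ((i, m, false), 2)‖ / ‖P.v (g0 ((i, m, false), 2))‖ /
        wt P (g0 ((i, m, false), 2)).1 = al P i 3 ^ n / wt P (i, m, false)
      have e : g0 ((i, m, false), 2) = ((i, m - 1, true), 0) := by simp [g0]
      rw [e]
      simp only
      fin_cases m
      · refine ⟨-1, ?_⟩
        obtain ⟨p1, p2, p3, p4⟩ := k0 i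
        obtain ⟨r1, r2, r3, r4⟩ := k2 i
        simp only [Fin.zero_eta]
        rw [show (0 : Fin 3) - 1 = 2 from rfl, p1, r2, p3, r4, a0, ← e3, c4 i 2]
        rw [zpow_neg, zpow_one, div_one, one_div]
      · refine ⟨0, ?_⟩
        obtain ⟨p1, p2, p3, p4⟩ := k1 i
        obtain ⟨r1, r2, r3, r4⟩ := k0 i
        simp only [Fin.mk_one]
        rw [show (1 : Fin 3) - 1 = 0 from rfl, p1, r2, p3, r4, zpow_zero, c4 i 0]
      · refine ⟨0, ?_⟩
        obtain ⟨p1, p2, p3, p4⟩ := k2 i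
        obtain ⟨r1, r2, r3, r4⟩ := k1 i
        simp only [Fin.reduceFinMk]
        rw [show (2 : Fin 3) - 1 = 1 from rfl, p1, r2, p3, r4, zpow_zero, c4 i 1]
  · -- upper triangles
    fin_cases j
    · -- side 0
      show ∃ n : ℤ, ‖P.v ((i, m, true), 0)‖ / ‖P.v (g0 ((i, m, true), 0))‖ /
        wt P (g0 ((i, m, true), 0)).1 = al P i 3 ^ n / wt P (i, m, true)
      have e : g0 ((i, m, true), 0) = ((i, m + 1, false), 2) := by simp [g0]
      rw [e]
      simp only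
      fin_cases m
      · refine ⟨0, ?_⟩
        obtain ⟨p1, p2, p3, p4⟩ := k0 i
        obtain ⟨r1, r2, r3, r4⟩ := k1 i
        simp only [Fin.zero_eta]
        rw [show (0 : Fin 3) + 1 = 1 from rfl, p2, r1, p4, r3, zpow_zero, c3 i 0]
      · refine ⟨0, ?_⟩
        obtain ⟨p1, p2, p3, p4⟩ := k1 i
        obtain ⟨r1, r2, r3, r4⟩ := k2 i
        simp only [Fin.mk_one]
        rw [show (1 : Fin 3) + 1 = 2 from rfl, p2, r1, p4, r3, zpow_zero, c3 i 1]
      · refine ⟨1, ?_⟩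
        obtain ⟨p1, p2, p3, p4⟩ := k2 i
        obtain ⟨r1, r2, r3, r4⟩ := k0 i
        simp only [Fin.reduceFinMk]
        rw [show (2 : Fin 3) + 1 = 0 from rfl, p2, r1, p4, r3, a0, ← e3, zpow_one, div_one]
        have := c3 i 2
        have h1 := (al_pos P i 3).ne'
        have h2 := (be_pos P i 2).ne'
        rw [show (2 + 1 : ℕ) = 3 from rfl] at this
        field_simp at this ⊢
        linarith
    · -- side 1
      exfalso
      simp [g0] at h
    · -- side 2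
      refine ⟨0, ?_⟩
      rw [zpow_zero]
      show ‖P.v ((i, m, true), 2)‖ / ‖P.v (g0 ((i, m, true), 2))‖ /
        wt P (g0 ((i, m, true), 2)).1 = 1 / wt P (i, m, true)
      have e : g0 ((i, m, true), 2) = ((i, m, false), 1) := by simp [g0]
      rw [e]
      simp only
      fin_cases m
      · obtain ⟨p1, p2, p3, p4⟩ := k0 i
        simp only [Fin.zero_eta]
        rw [p1, p2, p3, p4]; exact c2 i 0
      · obtain ⟨p1, p2, p3, p4⟩ := k1 i
        simp only [Fin.mk_one]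
        rw [p1, p2, p3, p4]; exact c2 i 1
      · obtain ⟨p1, p2, p3, p4⟩ := k2 i
        simp only [Fin.reduceFinMk]
        rw [p1, p2, p3, p4]; exact c2 i 2

theorem step_sc (hg : P.glue = g0) {s s' : St T} (h : Step P χ s s') (h1 : s.x.1.1 = i)
    (h2 : s'.x.1.1 = i) : ∃ n : ℤ, sc P s' = al P i 3 ^ n * sc P s := by
  cases h with
  | rot h => exact ⟨0, by rw [sc_rot h, zpow_zero, one_mul]⟩
  | move r h hr h' => exact ⟨0, by rw [zpow_zero, one_mul]; rfl⟩
  | cross d h h0 h' =>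
    simp only [hg] at h2
    obtain ⟨n, hn⟩ := wt_g0 P s.x (h2.trans h1.symm)
    refine ⟨n, ?_⟩
    obtain ⟨⟨k, hk, e1, -, -⟩, -⟩ := h
    rw [sc_eq hk e1, sc]
    simp only [hg]
    rw [norm_sub_rev, e1, norm_mul, Complex.norm_real, Real.norm_of_nonneg hk.le]
    rw [h1] at hn
    have : k * ‖P.v s.x‖ / ‖P.v (g0 s.x)‖ / wt P (g0 s.x).1 =
        k * (‖P.v s.x‖ / ‖P.v (g0 s.x)‖ / wt P (g0 s.x).1) := by ring
    rw [this, hn]
    ring

theorem loop_pow (hg : P.glue = g0) (hχ : Into P i χ) {s : St T} (hs : s.Valid P) {l : ℝ}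
    (hl : 1 < l) {β : ℂ} (h : Chain P χ s (s.aff l β)) : ∃ n : ℤ, l = al P i 3 ^ n := by
  obtain ⟨p1, p2⟩ := loop_start hg hχ hs hl h
  have key : ∀ s' : St T, Chain P χ s s' → s'.Valid P ∧ s'.x.1.1 = i ∧
      ∃ n : ℤ, sc P s' = al P i 3 ^ n * sc P s := by
    intro s' hs'
    induction hs' with
    | refl => exact ⟨hs, in_sector hs p1 p2, 0, by rw [zpow_zero, one_mul]⟩
    | tail h3 h4 ih =>
      rename_i u w
      obtain ⟨i1, i2, n, i3⟩ := ih
      have hv := h4.valid_right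
      have ha := (chain_adv hg hχ h3).trans (step_adv hg hχ h4)
      have hw : w.x.1.1 = i := by
        rcases ha with ha | ⟨ha, hb⟩
        · exact in_sector hv (ha ▸ p1) (ha ▸ p2)
        · exact in_sector hv (p1.trans ha) (p2.trans hb)
      obtain ⟨n', hn'⟩ := step_sc hg h4 i2 hw
      refine ⟨hv, hw, n' + n, ?_⟩
      rw [hn', i3, zpow_add₀ (al_pos P i 3).ne']
      ring
  obtain ⟨-, -, n, hn⟩ := key _ h
  refine ⟨n, ?_⟩
  have e : sc P (s.aff l β) = l * sc P s := by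
    simp only [sc, St.aff]
    have : ((l : ℂ) * s.b + β) - ((l : ℂ) * s.a + β) = (l : ℂ) * (s.b - s.a) := by ring
    rw [this, norm_mul, Complex.norm_real, Real.norm_of_nonneg (by linarith)]
    ring
  rw [e] at hn
  exact mul_right_cancel₀ (sc_pos hs).ne' hn

theorem loop_ge (hg : P.glue = g0) (hχ : Into P i χ) (hal : 5 / 2 < al P i 3) {l : ℝ}
    (hl : 1 < l) (h : LoopMult P χ l) : 5 / 2 < l := by
  obtain ⟨s, β, hs, hch⟩ := h
  obtain ⟨n, hn⟩ := loop_pow hg hχ hs hl hch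
  have h1 : (1 : ℝ) < al P i 3 := by linarith
  have hn0 : 0 < n := by
    by_contra hneg
    push Not at hneg
    have := zpow_le_one_of_nonpos₀ h1.le hneg
    linarith
  have h2 : al P i 3 ^ (1 : ℤ) ≤ al P i 3 ^ n := zpow_le_zpow_right₀ h1.le hn0
  rw [zpow_one] at h2
  linarith

/-! ### The derivative of the position -/

theorem lerp0 (q : ℝ) (hq : 1 < q) (x : Edge T) (w : ℂ) :
    (Z0 q x * (cross (v0 q (nxt x)) w : ℂ) + Z0 q (nxt x) * (cross (v0 q (prv x)) w : ℂ) +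
      Z0 q (prv x) * (cross (v0 q x) w : ℂ)) / ((Pq q hq).area x : ℂ) = w := by
  have h1 := area_ne (Pq q hq) x
  rw [div_eq_iff h1]
  have h2 : (Pq q hq).area x = cross (v0 q x) (v0 q (nxt x)) := rfl
  rw [h2]
  simp only [v0, nxt_nxt, nxt_prv]
  generalize Z0 q x = a
  generalize Z0 q (nxt x) = b
  generalize Z0 q (prv x) = c
  apply Complex.ext
  · simp [cross]; ring
  · simp [cross]; ring

theorem tendsto_lerp {q : ℝ} (hq : 1 < q) (x : Edge T) (w : ℂ) :
    Tendsto (fun P : DSurf T => lerp P x w w w) (𝓝 (Pq q hq)) (𝓝 w) := by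
  have hc : ∀ y : Edge T, Tendsto (fun P : DSurf T => ((cross (P.v y) w : ℝ) : ℂ)) (𝓝 (Pq q hq))
      (𝓝 ((cross (v0 q y) w : ℝ) : ℂ)) := fun y =>
    tendsto_ofReal (tendsto_cross (tendsto_v (Pq q hq) y) tendsto_const_nhds)
  have ha : Tendsto (fun P : DSurf T => ((P.area x : ℝ) : ℂ)) (𝓝 (Pq q hq))
      (𝓝 (((Pq q hq).area x : ℝ) : ℂ)) :=
    tendsto_ofReal (tendsto_cross (tendsto_v (Pq q hq) x) (tendsto_v (Pq q hq) (nxt x)))
  have h := ((((tendsto_ZP hq x).mul (hc (nxt x))).add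
    ((tendsto_ZP hq (nxt x)).mul (hc (prv x)))).add
    ((tendsto_ZP hq (prv x)).mul (hc x))).div ha (area_ne _ _)
  rw [lerp0] at h
  exact h

theorem lerp_lin (P : DSurf T) (x : Edge T) (χ : ℂ) :
    lerp P x χ χ χ = (χ.re : ℂ) * lerp P x 1 1 1 + (χ.im : ℂ) * lerp P x Complex.I Complex.I
      Complex.I := by
  have h : ∀ u : ℂ, cross u χ = χ.re * cross u 1 + χ.im * cross u Complex.I := by
    intro u; simp [cross]; ring
  have h1 := area_ne P x
  simp only [lerp, h]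
  push_cast
  field_simp
  ring

theorem norm_W (i : Fin 3) : ‖W i‖ = 1 := by
  have h := sqrt3_sq
  have : ‖W i‖ ^ 2 = 1 := by
    rw [← Complex.normSq_eq_norm_sq, Complex.normSq_apply]
    fin_cases i <;> simp [W] <;> nlinarith
  nlinarith [norm_nonneg (W i), sq_nonneg (‖W i‖ - 1)]

theorem eventually_into {q : ℝ} (hq : 1 < q) : ∀ᶠ P in 𝓝 (Pq q hq), ∀ (i : Fin 3) (χ : ℂ),
    1 / 4 * ‖χ‖ < cross (W i) χ → 1 / 4 * ‖χ‖ < cross χ (W (i + 1)) → Into P i χ := by
  have h1 : ∀ᶠ P in 𝓝 (Pq q hq), ∀ x : Edge T, ‖lerp P x 1 1 1 - 1‖ < 1 / 8 := by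
    rw [eventually_all]
    intro x
    have := (tendsto_lerp hq x 1).sub_const 1
    rw [sub_self] at this
    have := this.norm
    rw [norm_zero] at this
    exact this.eventually (gt_mem_nhds (by norm_num))
  have h2 : ∀ᶠ P in 𝓝 (Pq q hq), ∀ x : Edge T,
      ‖lerp P x Complex.I Complex.I Complex.I - Complex.I‖ < 1 / 8 := by
    rw [eventually_all]
    intro x
    have := (tendsto_lerp hq x Complex.I).sub_const Complex.I
    rw [sub_self] at this
    have := this.norm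
    rw [norm_zero] at this
    exact this.eventually (gt_mem_nhds (by norm_num))
  filter_upwards [h1, h2] with P h1 h2 i χ h3 h4 x
  have hD : ‖lerp P x χ χ χ - χ‖ ≤ 1 / 4 * ‖χ‖ := by
    have e : lerp P x χ χ χ - χ = (χ.re : ℂ) * (lerp P x 1 1 1 - 1) +
        (χ.im : ℂ) * (lerp P x Complex.I Complex.I Complex.I - Complex.I) := by
      rw [lerp_lin]
      linear_combination (Complex.re_add_im χ)
    rw [e]
    refine (norm_add_le _ _).trans ?_
    rw [norm_mul, norm_mul, Complex.norm_real, Complex.norm_real, Real.norm_eq_abs,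
      Real.norm_eq_abs]
    have a1 := Complex.abs_re_le_norm χ
    have a2 := Complex.abs_im_le_norm χ
    have a3 := mul_le_mul a1 (h1 x).le (norm_nonneg _) (norm_nonneg χ)
    have a4 := mul_le_mul a2 (h2 x).le (norm_nonneg _) (norm_nonneg χ)
    linarith
  have b1 := abs_cross_le (W i) (lerp P x χ χ χ - χ)
  have b2 := abs_cross_le (lerp P x χ χ χ - χ) (W (i + 1))
  rw [norm_W, one_mul, cross_sub_right, abs_le] at b1
  rw [norm_W, mul_one, cross_sub_left, abs_le] at b2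
  constructor
  · linarith [b1.1]
  · linarith [b2.1]

/-! ### Every direction is well inside a sector, up to sign -/

theorem three_cases {a b c e : ℝ} (he : 0 ≤ e) (hs : a + b + c = 0)
    (hq : 6 * e ^ 2 < a ^ 2 + b ^ 2 + c ^ 2) :
    (e < a ∧ b < -e) ∨ (a < -e ∧ e < b) ∨ (e < b ∧ c < -e) ∨ (b < -e ∧ e < c) ∨
      (e < c ∧ a < -e) ∨ (c < -e ∧ e < a) := by
  by_contra hcon
  push Not at hcon
  obtain ⟨h1, h2, h3, h4, h5, h6⟩ := hcon
  have ha : |a| ≤ 2 * e ∧ |b| ≤ 2 * e ∧ |c| ≤ 2 * e ∧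
      (|a| ≤ e ∧ |b| ≤ e ∨ |b| ≤ e ∧ |c| ≤ e ∨ |a| ≤ e ∧ |c| ≤ e) := by
    simp only [abs_le]
    rcases lt_or_ge e a with ha | ha
    · have hb := h1 ha
      have hc : -e ≤ c := by
        by_contra hc
        push Not at hc
        linarith [h6 hc]
      refine ⟨⟨?_, ?_⟩, ⟨?_, ?_⟩, ⟨?_, ?_⟩, Or.inr (Or.inl ⟨⟨?_, ?_⟩, ⟨?_, ?_⟩⟩)⟩ <;> linarith
    · rcases lt_or_ge a (-e) with ha' | ha'
      · have hb := h2 ha'
        have hc : c ≤ e := by
          by_contra hc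
          push Not at hc
          linarith [h5 hc]
        refine ⟨⟨?_, ?_⟩, ⟨?_, ?_⟩, ⟨?_, ?_⟩, Or.inr (Or.inl ⟨⟨?_, ?_⟩, ⟨?_, ?_⟩⟩)⟩ <;> linarith
      · rcases lt_or_ge e b with hb | hb
        · have hc := h3 hb
          refine ⟨⟨?_, ?_⟩, ⟨?_, ?_⟩, ⟨?_, ?_⟩, Or.inr (Or.inr ⟨⟨?_, ?_⟩, ⟨?_, ?_⟩⟩)⟩ <;> linarith
        · rcases lt_or_ge b (-e) with hb' | hb'
          · have hc := h4 hb'
            refine ⟨⟨?_, ?_⟩, ⟨?_, ?_⟩, ⟨?_, ?_⟩, Or.inr (Or.inr ⟨⟨?_, ?_⟩, ⟨?_, ?_⟩⟩)⟩ <;> linarith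
          · refine ⟨⟨?_, ?_⟩, ⟨?_, ?_⟩, ⟨?_, ?_⟩, Or.inl ⟨⟨?_, ?_⟩, ⟨?_, ?_⟩⟩⟩ <;> linarith
  have sq1 : ∀ t u : ℝ, |t| ≤ u → t ^ 2 ≤ u ^ 2 := fun t u h => by
    rw [← sq_abs t]
    exact pow_le_pow_left₀ (abs_nonneg t) h 2
  obtain ⟨k1, k2, k3, k4⟩ := ha
  have m1 := sq1 _ _ k1
  have m2 := sq1 _ _ k2
  have m3 := sq1 _ _ k3
  rcases k4 with ⟨k4, k5⟩ | ⟨k4, k5⟩ | ⟨k4, k5⟩ <;>
    · have m4 := sq1 _ _ k4
      have m5 := sq1 _ _ k5
      nlinarith

theorem exists_sector (χ : ℂ) (hχ : χ ≠ 0) : ∃ i : Fin 3,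
    (1 / 4 * ‖χ‖ < cross (W i) χ ∧ 1 / 4 * ‖χ‖ < cross χ (W (i + 1))) ∨
    (1 / 4 * ‖-χ‖ < cross (W i) (-χ) ∧ 1 / 4 * ‖-χ‖ < cross (-χ) (W (i + 1))) := by
  have h := sqrt3_sq
  have hn : 0 < ‖χ‖ := norm_pos_iff.2 hχ
  have hn2 : ‖χ‖ ^ 2 = χ.re * χ.re + χ.im * χ.im := by
    rw [← Complex.normSq_eq_norm_sq, Complex.normSq_apply]
  have e0 : cross (W 0) χ = χ.im := by simp [cross, W]
  have e1 : cross (W 1) χ = -(χ.im / 2) - √3 / 2 * χ.re := by simp [cross, W]; ring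
  have e2 : cross (W 2) χ = -(χ.im / 2) + √3 / 2 * χ.re := by simp [cross, W]; ring
  have hsum : cross (W 0) χ + cross (W 1) χ + cross (W 2) χ = 0 := by rw [e0, e1, e2]; ring
  have hsq : 6 * (1 / 4 * ‖χ‖) ^ 2 < cross (W 0) χ ^ 2 + cross (W 1) χ ^ 2 + cross (W 2) χ ^ 2 := by
    have : cross (W 0) χ ^ 2 + cross (W 1) χ ^ 2 + cross (W 2) χ ^ 2 = 3 / 2 * ‖χ‖ ^ 2 := by
      rw [e0, e1, e2, hn2]
      linear_combination (1 / 2 * χ.re * χ.re) * h
    rw [this]
    nlinarith [sq_pos_of_pos hn]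
  have hcomm : ∀ j, cross χ (W j) = -cross (W j) χ := fun j => cross_comm _ _
  rcases three_cases (by positivity) hsum hsq with ⟨a, b⟩ | ⟨a, b⟩ | ⟨a, b⟩ | ⟨a, b⟩ | ⟨a, b⟩ |
    ⟨a, b⟩
  · refine ⟨0, Or.inl ⟨a, ?_⟩⟩
    rw [hcomm]; simp only [zero_add]; linarith
  · refine ⟨0, Or.inr ⟨?_, ?_⟩⟩
    · rw [norm_neg, cross_neg_right]; linarith
    · rw [norm_neg, cross_neg_left, hcomm]; simp only [zero_add]; linarith
  · refine ⟨1, Or.inl ⟨a, ?_⟩⟩
    rw [hcomm]; simp only [show (1 : Fin 3) + 1 = 2 from rfl]; linarith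
  · refine ⟨1, Or.inr ⟨?_, ?_⟩⟩
    · rw [norm_neg, cross_neg_right]; linarith
    · rw [norm_neg, cross_neg_left, hcomm]; simp only [show (1 : Fin 3) + 1 = 2 from rfl]; linarith
  · refine ⟨2, Or.inl ⟨a, ?_⟩⟩
    rw [hcomm]; simp only [show (2 : Fin 3) + 1 = 0 from rfl]; linarith
  · refine ⟨2, Or.inr ⟨?_, ?_⟩⟩
    · rw [norm_neg, cross_neg_right]; linarith
    · rw [norm_neg, cross_neg_left, hcomm]; simp only [show (2 : Fin 3) + 1 = 0 from rfl]; linarith

/-- Near the surface with parameter `3/2`, the surfaces do not have the property `TwoSided`. -/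
theorem eventually_not_twoSided (hq : (1 : ℝ) < 3 / 2) :
    ∀ᶠ P in 𝓝 (Pq (3 / 2) hq), ¬TwoSided P := by
  have hal : ∀ᶠ P in 𝓝 (Pq (3 / 2) hq), ∀ i : Fin 3, 5 / 2 < al P i 3 := by
    rw [eventually_all]
    intro i
    exact (tendsto_al hq i 3).eventually (lt_mem_nhds (by norm_num))
  filter_upwards [eventually_glue (Pq (3 / 2) hq), hal, eventually_into hq] with P hg hal hin
  rintro ⟨χ, hχ, ⟨l, l1, l2, l3⟩, ⟨l', l4, l5, l6⟩⟩
  obtain ⟨i, ⟨h1, h2⟩ | ⟨h1, h2⟩⟩ := exists_sector χ hχ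
  · have := loop_ge hg (hin i χ h1 h2) (hal i) l1 l3
    linarith
  · have := loop_ge hg (hin i (-χ) h1 h2) (hal i) l4 l6
    linarith

end Run7.h669.Dil
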