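import Pool.Agent.Run7.h669.Dil.FlipEx

/-!
# The projection to the moduli space is open
-/

noncomputable section

namespace Run7.h669.Dil

open Filter Topology

variable {F F' : Type*}

/-! ### Flipping twice -/

section twice

variable {P Q : DSurf F} {x y : Edge F}

open Classical in
/-- The rotation of the numbering used in `flip_twice`. -/
def swapRot (x y : Edge F) (t : F) : Fin 3 :=
  if t = x.1 then y.2 - x.2 else if t = y.1 then x.2 - y.2 else 0

open Classical in
/-- Exchanging the triangles of `x` and `y`. -/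
def swapEdge (x y : Edge F) : Edge F → Edge F := relEdge (Equiv.swap x.1 y.1) (swapRot x y)

theorem swapEdge_x : swapEdge x y x = y := by
  classical
  apply Prod.ext
  · simp only [swapEdge, relEdge, Equiv.swap_apply_left]
  · simp only [swapEdge, relEdge, swapRot, if_true]
    abel

theorem swapEdge_y (h : x.1 ≠ y.1) : swapEdge x y y = x := by
  classical
  apply Prod.ext
  · simp only [swapEdge, relEdge, Equiv.swap_apply_right]
  · simp only [swapEdge, relEdge, swapRot, if_true, if_neg h.symm]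
    abel

theorem swapEdge_nxt (z : Edge F) : swapEdge x y (nxt z) = nxt (swapEdge x y z) := by
  classical
  exact (nxt_relEdge _ _ z).symm

theorem swapEdge_prv (z : Edge F) : swapEdge x y (prv z) = prv (swapEdge x y z) := by
  classical
  exact (prv_relEdge _ _ z).symm

theorem swapEdge_out {z : Edge F} (h1 : z.1 ≠ x.1) (h2 : z.1 ≠ y.1) : swapEdge x y z = z := by
  classical
  apply Prod.ext
  · simp only [swapEdge, relEdge, Equiv.swap_apply_of_ne_of_ne h1 h2]
  · simp only [swapEdge, relEdge, swapRot, if_neg h1, if_neg h2, add_zero]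

theorem swapEdge_perm (h : x.1 ≠ y.1) {z : Edge F} (hx : z ≠ x) (hy : z ≠ y) :
    swapEdge x y (flipPerm x y (flipPerm x y z)) = z := by
  rcases edge_cases6 x y z with ⟨c1, c2⟩ | rfl | rfl | rfl | rfl | rfl | rfl
  · rw [flipPerm_out c1 c2, flipPerm_out c1 c2, swapEdge_out c1 c2]
  · exact absurd rfl hx
  · rw [flipPerm_nx, flipPerm_px, swapEdge_nxt, swapEdge_y h]
  · rw [flipPerm_px, flipPerm_ny h, swapEdge_prv, swapEdge_y h]
  · exact absurd rfl hy
  · rw [flipPerm_ny h, flipPerm_py h, swapEdge_nxt, swapEdge_x]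
  · rw [flipPerm_py h, flipPerm_nx, swapEdge_prv, swapEdge_x]

theorem exists_perm2 (h : x.1 ≠ y.1) {z : Edge F} (hx : z ≠ x) (hy : z ≠ y) :
    ∃ w, w ≠ x ∧ w ≠ y ∧ z = flipPerm x y (flipPerm x y w) := by
  have h1 := flipInv_ne h hx hy
  have h2 := flipInv_ne h h1.1 h1.2
  refine ⟨_, h2.1, h2.2, ?_⟩
  rw [flipPerm_inv h h1.1 h1.2, flipPerm_inv h hx hy]

theorem flip_twice (h : Flip P Q x) :
    Relabel (flipSurf Q h.fd.flippable) P := by
  classical
  obtain ⟨y, h1, h2, h3, h4, h5, h6, h7, h8, h9⟩ := id h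
  have fd := h.fd
  rw [h1] at fd
  have hR : flipSurf Q h.fd.flippable = flipSurf Q fd.flippable := by
    congr
  rw [hR]
  set R := flipSurf Q fd.flippable with hRdef
  have gx : R.glue x = y := flipGlue_x Q
  have gy : R.glue y = x := flipGlue_y Q fd.flippable
  have gperm : ∀ z, z ≠ x → z ≠ y → R.glue (flipPerm x y z) = flipPerm x y (Q.glue z) :=
    fun z hx hy => flipGlue_perm Q fd.flippable hx hy
  have vx : R.v x = Q.v (prv x) + Q.v (nxt y) := flipExt_x
  have vy : R.v y = -(Q.v (prv x) + Q.v (nxt y)) := flipExt_y h2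
  have vperm : ∀ z, z ≠ x → z ≠ y → R.v (flipPerm x y z) = Q.v z :=
    fun z hx hy => flipExt_perm h2 hx hy
  have hf : Flippable P x y := ⟨h1, h2, h3, h4, h5⟩
  have key : ∀ w, w ≠ x → w ≠ y →
      R.glue (flipPerm x y (flipPerm x y w)) = flipPerm x y (flipPerm x y (P.glue w)) := by
    intro w hx hy
    have := flipPerm_ne h2 hx hy
    rw [gperm _ this.1 this.2, (h9 w hx hy).1]
  have keyv : ∀ w, w ≠ x → w ≠ y →
      R.v (flipPerm x y (flipPerm x y w)) = P.v w := by
    intro w hx hy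
    have := flipPerm_ne h2 hx hy
    rw [vperm _ this.1 this.2, (h9 w hx hy).2]
  refine ⟨Equiv.swap x.1 y.1, swapRot x y, fun _ => 1, fun _ => one_pos, ?_, ?_⟩
  · rintro z _ rfl
    show P.glue (swapEdge x y z) = swapEdge x y (R.glue z)
    by_cases hx : z = x
    · subst hx
      rw [swapEdge_x, gx, swapEdge_y h2, hf.gy]
    · by_cases hy : z = y
      · subst hy
        rw [swapEdge_y h2, gy, swapEdge_x, h1]
      · obtain ⟨w, hwx, hwy, rfl⟩ := exists_perm2 h2 hx hy
        have := hf.glue_ne hwx hwy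
        rw [key w hwx hwy, swapEdge_perm h2 hwx hwy, swapEdge_perm h2 this.1 this.2]
  · intro z
    show P.v (swapEdge x y z) = ((1 : ℝ) : ℂ) * R.v z
    rw [Complex.ofReal_one, one_mul]
    by_cases hx : z = x
    · subst hx
      rw [swapEdge_x, vx, fd.qpx, fd.qny, h3]
      linear_combination -(P.v_sum z)
    · by_cases hy : z = y
      · subst hy
        rw [swapEdge_y h2, vy, fd.qpx, fd.qny]
        linear_combination (P.v_sum x)
      · obtain ⟨w, hwx, hwy, rfl⟩ := exists_perm2 h2 hx hy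
        rw [keyv w hwx hwy, swapEdge_perm h2 hwx hwy]

end twice

/-! ### Pulling back along a relabelling -/

/-- The bijection on sides given by a relabelling. -/
def relEquiv (e : F ≃ F') (r : F → Fin 3) : Edge F ≃ Edge F' where
  toFun := relEdge e r
  invFun := fun y => (e.symm y.1, y.2 - r (e.symm y.1))
  left_inv := by
    rintro ⟨a, i⟩
    simp [relEdge]
  right_inv := by
    rintro ⟨a, i⟩
    simp [relEdge]

theorem relEquiv_nxt (e : F ≃ F') (r : F → Fin 3) (x : Edge F) :
    relEquiv e r (nxt x) = nxt (relEquiv e r x) := (nxt_relEdge e r x).symm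

theorem relEquiv_prv (e : F ≃ F') (r : F → Fin 3) (x : Edge F) :
    relEquiv e r (prv x) = prv (relEquiv e r x) := (prv_relEdge e r x).symm

/-- The surface obtained by relabelling and rescaling. -/
def DSurf.pull (Q : DSurf F') (e : F ≃ F') (r : F → Fin 3) (d : F → ℝ) (hd : ∀ t, 0 < d t) :
    DSurf F where
  glue := fun x => (relEquiv e r).symm (Q.glue (relEquiv e r x))
  v := fun x => (d x.1 : ℂ) * Q.v (relEquiv e r x)
  glue_glue := fun x => by simp [Q.glue_glue]
  glue_ne := fun x h => Q.glue_ne (relEquiv e r x) (by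
    have := congrArg (relEquiv e r) h
    simpa using this)
  conn := by
    intro s t
    have := Q.conn (e s) (e t)
    have key : ∀ a b : F', (∃ i j, Q.glue (a, i) = (b, j)) →
        ∃ i j, (relEquiv e r).symm (Q.glue (relEquiv e r (e.symm a, i))) = (e.symm b, j) := by
      rintro a b ⟨i, j, h⟩
      refine ⟨i - r (e.symm a), ((relEquiv e r).symm (b, j)).2, ?_⟩
      have e1 : relEquiv e r (e.symm a, i - r (e.symm a)) = (a, i) := by
        simp [relEquiv, relEdge]
      rw [e1, h]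
      apply Prod.ext
      · simp [relEquiv]
      · rfl
    have h2 := Relation.ReflTransGen.lift
      (p := fun a b => ∃ i j, (relEquiv e r).symm (Q.glue (relEquiv e r (a, i))) = (b, j))
      e.symm key _ _ this
    simpa [Function.onFun] using h2
  closed := by
    intro t
    rw [sum_rot (fun x : Edge F => (d x.1 : ℂ) * Q.v (relEquiv e r x)) (t, 0)]
    simp only [relEquiv_nxt, relEquiv_prv, nxt_fst, prv_fst, ← mul_add, Q.v_sum, mul_zero]
  pos := by
    intro t
    have h1 := cross_rot (f := fun x : Edge F => (d x.1 : ℂ) * Q.v (relEquiv e r x)) (w := (t, 0))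
      (by simp only [relEquiv_nxt, relEquiv_prv, nxt_fst, prv_fst, ← mul_add, Q.v_sum, mul_zero])
    simp only [relEquiv_nxt, nxt_fst] at h1
    simp only
    rw [h1, cross_mul_left, cross_mul_right]
    exact mul_pos (hd _) (mul_pos (hd _) (Q.area_pos _))
  par := by
    intro x
    obtain ⟨s, hs, h⟩ := Q.par (relEquiv e r x)
    refine ⟨d ((relEquiv e r).symm (Q.glue (relEquiv e r x))).1 / d x.1 * s,
      mul_pos (div_pos (hd _) (hd _)) hs, ?_⟩
    simp only [Equiv.apply_symm_apply]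
    rw [h]
    have := Complex.ofReal_ne_zero.2 (hd x.1).ne'
    push_cast
    field_simp
  vert := by
    obtain ⟨g, hpos, hg⟩ := Q.vert
    refine ⟨fun x => g (relEquiv e r x) * d x.1, fun x => mul_pos (hpos _) (hd _), fun x => ?_⟩
    simp only [relEquiv_nxt, Equiv.apply_symm_apply, nxt_fst, norm_mul, Complex.norm_real,
      Real.norm_of_nonneg (hd _).le]
    have := hg (relEquiv e r x)
    linear_combination (d ((relEquiv e r).symm (Q.glue (relEquiv e r x))).1 * d x.1) * this

theorem relabel_pull (Q : DSurf F') (e : F ≃ F') (r : F → Fin 3) (d : F → ℝ)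
    (hd : ∀ t, 0 < d t) : Relabel (Q.pull e r d hd) Q := by
  refine ⟨e, r, fun t => 1 / d t, fun t => one_div_pos.2 (hd t), ?_, ?_⟩
  · rintro x _ rfl
    show Q.glue (relEquiv e r x) = relEquiv e r ((relEquiv e r).symm (Q.glue (relEquiv e r x)))
    simp
  · intro x
    show Q.v (relEquiv e r x) = ((1 / d x.1 : ℝ) : ℂ) * ((d x.1 : ℂ) * Q.v (relEquiv e r x))
    have := Complex.ofReal_ne_zero.2 (hd x.1).ne'
    push_cast
    field_simp

/-! ### The topology on surfaces -/

theorem tendsto_dsurf {ι : Type*} {l : Filter ι} {f : ι → DSurf F} {P : DSurf F} :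
    Tendsto f l (𝓝 P) ↔
      (∀ x, Tendsto (fun i => (f i).v x) l (𝓝 (P.v x))) ∧ ∀ᶠ i in l, (f i).glue = P.glue := by
  have h1 : 𝓝 P = comap (fun P : DSurf F => P.v) (𝓝 P.v) ⊓
      comap (fun P : DSurf F => P.glue) (pure P.glue) := by
    have h2 : @nhds (DSurf F) (TopologicalSpace.induced (fun P : DSurf F => P.v) inferInstance ⊓
      TopologicalSpace.induced (fun P : DSurf F => P.glue) ⊥) P =
      @nhds (DSurf F) (TopologicalSpace.induced (fun P : DSurf F => P.v) inferInstance) P ⊓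
      @nhds (DSurf F) (TopologicalSpace.induced (fun P : DSurf F => P.glue) ⊥) P :=
      @nhds_inf (DSurf F) (TopologicalSpace.induced (fun P : DSurf F => P.v) inferInstance)
        (TopologicalSpace.induced (fun P : DSurf F => P.glue) ⊥) P
    have h3 := @nhds_induced (Edge F → ℂ) (DSurf F) inferInstance (fun P : DSurf F => P.v) P
    have h4 := @nhds_induced (Edge F → Edge F) (DSurf F) ⊥ (fun P : DSurf F => P.glue) P
    have h5 : @nhds (Edge F → Edge F) ⊥ P.glue = pure P.glue :=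
      congrFun (@nhds_discrete (Edge F → Edge F) ⊥ (@DiscreteTopology.mk _ ⊥ rfl)) P.glue
    rw [h5] at h4
    exact h2.trans (by rw [h3, h4])
  rw [h1, tendsto_inf, tendsto_comap_iff, tendsto_comap_iff, tendsto_pi_nhds, tendsto_pure]
  rfl

theorem tendsto_v (P : DSurf F) (x : Edge F) :
    Tendsto (fun Q : DSurf F => Q.v x) (𝓝 P) (𝓝 (P.v x)) :=
  (tendsto_dsurf.1 (tendsto_id (x := 𝓝 P))).1 x

theorem eventually_glue (P : DSurf F) : ∀ᶠ Q : DSurf F in 𝓝 P, Q.glue = P.glue :=
  (tendsto_dsurf.1 (tendsto_id (x := 𝓝 P))).2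

theorem tendsto_pull (Q : DSurf F') (e : F ≃ F') (r : F → Fin 3) (d : F → ℝ)
    (hd : ∀ t, 0 < d t) :
    Tendsto (fun Q' : DSurf F' => Q'.pull e r d hd) (𝓝 Q) (𝓝 (Q.pull e r d hd)) := by
  rw [tendsto_dsurf]
  constructor
  · intro x
    exact (tendsto_v Q _).const_mul _
  · filter_upwards [eventually_glue Q] with Q' hQ'
    funext x
    show (relEquiv e r).symm (Q'.glue (relEquiv e r x)) =
      (relEquiv e r).symm (Q.glue (relEquiv e r x))
    rw [hQ']

theorem pull_eq_of_relabel {P : DSurf F} {Q : DSurf F'} {e : F ≃ F'} {r : F → Fin 3} {c : F → ℝ}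
    (hc : ∀ t, 0 < c t)
    (hg : ∀ x y : Edge F, P.glue x = y → Q.glue (e x.1, x.2 + r x.1) = (e y.1, y.2 + r y.1))
    (hv : ∀ x : Edge F, Q.v (e x.1, x.2 + r x.1) = (c x.1 : ℂ) * P.v x) :
    Q.pull e r (fun t => 1 / c t) (fun t => one_div_pos.2 (hc t)) = P := by
  apply DSurf.ext'
  · funext x
    show (relEquiv e r).symm (Q.glue (relEquiv e r x)) = P.glue x
    have := hg x _ rfl
    rw [show Q.glue (relEquiv e r x) = relEquiv e r (P.glue x) from this]
    simp
  · funext x
    show ((1 / c x.1 : ℝ) : ℂ) * Q.v (relEquiv e r x) = P.v x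
    rw [show Q.v (relEquiv e r x) = (c x.1 : ℂ) * P.v x from hv x]
    have := Complex.ofReal_ne_zero.2 (hc x.1).ne'
    push_cast
    field_simp

/-- Every surface near `t` is equivalent to a surface near `s`. -/
def Good (s t : Σ N : ℕ, DSurf (Fin N)) : Prop :=
  ∀ U ∈ 𝓝 s, {w | ∃ u ∈ U, Quot.mk Move u = Quot.mk Move w} ∈ 𝓝 t

theorem Good.refl (s : Σ N : ℕ, DSurf (Fin N)) : Good s s := fun _ hU =>
  mem_of_superset hU fun w hw => ⟨w, hw, rfl⟩

theorem Good.trans {s t u : Σ N : ℕ, DSurf (Fin N)} (h : Good s t) (h' : Good t u) :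
    Good s u := fun U hU => by
  refine mem_of_superset (h' _ (h U hU)) ?_
  rintro w ⟨v, ⟨v', hv', e'⟩, e⟩
  exact ⟨v', hv', e'.trans e⟩

theorem mem_nhds_sigma {N : ℕ} {P : DSurf (Fin N)} {U : Set (Σ N : ℕ, DSurf (Fin N))} :
    U ∈ 𝓝 (⟨N, P⟩ : Σ N : ℕ, DSurf (Fin N)) ↔ ∀ᶠ Q in 𝓝 P, (⟨N, Q⟩ : Σ N, DSurf (Fin N)) ∈ U := by
  rw [Sigma.nhds_mk, mem_map]
  rfl

theorem good_of_tendsto {N : ℕ} {P Q : DSurf (Fin N)} {f : DSurf (Fin N) → DSurf (Fin N)}
    (hf : Tendsto f (𝓝 Q) (𝓝 P))
    (he : ∀ᶠ Q' in 𝓝 Q, Quot.mk Move (⟨N, f Q'⟩ : Σ N, DSurf (Fin N)) = Quot.mk Move ⟨N, Q'⟩) :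
    Good ⟨N, P⟩ ⟨N, Q⟩ := by
  intro U hU
  rw [mem_nhds_sigma] at hU ⊢
  filter_upwards [hf.eventually hU, he] with Q' h1 h2
  exact ⟨_, h1, h2⟩

theorem good_relabel {N : ℕ} {P Q : DSurf (Fin N)} (h : Relabel P Q) : Good ⟨N, P⟩ ⟨N, Q⟩ := by
  obtain ⟨e, r, c, hc, hg, hv⟩ := h
  have h1 := pull_eq_of_relabel hc hg hv
  refine good_of_tendsto (f := fun Q' => Q'.pull e r (fun t => 1 / c t)
    (fun t => one_div_pos.2 (hc t))) ?_ (.of_forall fun Q' => ?_)
  · have := tendsto_pull Q e r (fun t => 1 / c t) (fun t => one_div_pos.2 (hc t))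
    rwa [h1] at this
  · exact Quot.sound (Move.relabel _ _ (relabel_pull Q' e r _ _))

end Run7.h669.Dil
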