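import Pool.Agent.Run7.h669.Dil.Open

/-!
# The projection to the moduli space is open: flips
-/

noncomputable section

namespace Run7.h669.Dil

open Filter Topology

variable {F : Type*}

open Classical in
/-- Rescaling the triangle of `y` so that `x` and `y` get the same length. -/
def scaleFun (P : DSurf F) (x y : Edge F) (t : F) : ℝ :=
  if t = y.1 then ‖P.v x‖ / ‖P.v y‖ else 1

theorem scaleFun_pos (P : DSurf F) (x y : Edge F) (t : F) : 0 < scaleFun P x y t := by
  unfold scaleFun
  split_ifs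
  · exact div_pos (P.norm_pos x) (P.norm_pos y)
  · exact one_pos

/-- The rescaled surface. -/
def rescale (P : DSurf F) (x y : Edge F) : DSurf F :=
  P.pull (Equiv.refl F) (fun _ => 0) (scaleFun P x y) (scaleFun_pos P x y)

theorem rescale_v (P : DSurf F) (x y z : Edge F) :
    (rescale P x y).v z = (scaleFun P x y z.1 : ℂ) * P.v z := by
  show (scaleFun P x y z.1 : ℂ) * P.v (z.1, z.2 + 0) = _
  rw [add_zero]

theorem rescale_glue (P : DSurf F) (x y z : Edge F) : (rescale P x y).glue z = P.glue z := by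
  show (relEquiv (Equiv.refl F) (fun _ => 0)).symm (P.glue (z.1, z.2 + 0)) = _
  rw [add_zero, Equiv.symm_apply_eq]
  show P.glue z = ((P.glue z).1, (P.glue z).2 + 0)
  rw [add_zero]

theorem rescale_relabel (P : DSurf F) (x y : Edge F) : Relabel (rescale P x y) P :=
  relabel_pull P _ _ _ _

theorem tendsto_rescale_v (P : DSurf F) {x y : Edge F} (h : ‖P.v y‖ = ‖P.v x‖) (z : Edge F) :
    Tendsto (fun P' : DSurf F => (rescale P' x y).v z) (𝓝 P) (𝓝 (P.v z)) := by
  have h1 : Tendsto (fun P' : DSurf F => scaleFun P' x y z.1) (𝓝 P) (𝓝 1) := by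
    by_cases hz : z.1 = y.1
    · simp only [scaleFun, hz, if_true]
      have h2 := (tendsto_v P x).norm
      have h3 := (tendsto_v P y).norm
      have h4 := h2.div h3 (P.norm_pos y).ne'
      rwa [h, div_self (P.norm_pos x).ne'] at h4
    · simp only [scaleFun, hz, if_false]
      exact tendsto_const_nhds
  have h5 : Tendsto (fun P' : DSurf F => (scaleFun P' x y z.1 : ℂ)) (𝓝 P) (𝓝 ((1 : ℝ) : ℂ)) :=
    (Complex.continuous_ofReal.tendsto 1).comp h1
  have h6 := h5.mul (tendsto_v P z)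
  rw [Complex.ofReal_one, one_mul] at h6
  refine h6.congr fun P' => ?_
  rw [rescale_v]

theorem tendsto_cross {ι : Type*} {l : Filter ι} {f g : ι → ℂ} {a b : ℂ}
    (hf : Tendsto f l (𝓝 a)) (hg : Tendsto g l (𝓝 b)) :
    Tendsto (fun i => cross (f i) (g i)) l (𝓝 (cross a b)) :=
  (continuous_cross.tendsto (a, b)).comp (hf.prodMk_nhds hg)

theorem eventually_flippable {P : DSurf F} {x y : Edge F} (h : Flippable P x y) :
    ∀ᶠ P' in 𝓝 P, Flippable (rescale P' x y) x y := by
  have hn : ‖P.v y‖ = ‖P.v x‖ := by rw [h.vy, norm_neg]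
  have h1 := tendsto_cross (tendsto_rescale_v P hn (prv x)) (tendsto_rescale_v P hn (nxt y))
  have h2 := tendsto_cross (tendsto_rescale_v P hn (prv y)) (tendsto_rescale_v P hn (nxt x))
  filter_upwards [h1.eventually (lt_mem_nhds h.c0), h2.eventually (lt_mem_nhds h.c2),
    eventually_glue P] with P' h3 h4 h5
  refine ⟨?_, h.ne, ?_, h3, h4⟩
  · rw [rescale_glue, h5, h.gx]
  · have h6 := P'.v_glue x
    rw [h5, h.gx] at h6
    rw [rescale_v, rescale_v]
    have e1 : scaleFun P' x y y.1 = ‖P'.v x‖ / ‖P'.v y‖ := by simp [scaleFun]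
    have e2 : scaleFun P' x y x.1 = 1 := by simp [scaleFun, h.ne]
    rw [e1, e2]
    have n1 := Complex.ofReal_ne_zero.2 (P'.norm_pos x).ne'
    have n2 := Complex.ofReal_ne_zero.2 (P'.norm_pos y).ne'
    have h7 := congrArg (fun w => ((‖P'.v x‖ / ‖P'.v y‖ : ℝ) : ℂ) * w) h6
    rw [h7]
    push_cast
    field_simp

theorem tendsto_flipV {ι : Type*} {l : Filter ι} {f : ι → Edge F → ℂ} {v : Edge F → ℂ}
    (x y : Edge F) (hf : ∀ z, Tendsto (fun i => f i z) l (𝓝 (v z))) (z : Edge F) :
    Tendsto (fun i => flipV (f i) x y z) l (𝓝 (flipV v x y z)) := by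
  classical
  simp only [flipV, flipExt]
  split_ifs
  · exact (hf _).add (hf _)
  · exact ((hf _).add (hf _)).neg
  · exact hf _

open Classical in
/-- The flip of the side `x` after a rescaling. -/
def flipFun (Q : DSurf F) (x y : Edge F) (P' : DSurf F) : DSurf F :=
  if h : Flippable (rescale P' x y) x y then flipSurf (rescale P' x y) h else Q

theorem tendsto_flipFun {P Q : DSurf F} {x : Edge F} (h : Flip P Q x) :
    Tendsto (flipFun Q x (P.glue x)) (𝓝 P) (𝓝 Q) := by
  have hf := h.flippable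
  have hQ := h.eq_flipSurf
  have hn : ‖P.v (P.glue x)‖ = ‖P.v x‖ := by rw [hf.vy, norm_neg]
  have hev := eventually_flippable hf
  rw [tendsto_dsurf]
  constructor
  · intro z
    have h1 := tendsto_flipV x (P.glue x) (tendsto_rescale_v P hn) z
    have h2 : Q.v z = flipV P.v x (P.glue x) z := by rw [hQ]; rfl
    rw [h2]
    refine h1.congr' ?_
    filter_upwards [hev] with P' hP'
    rw [flipFun, dif_pos hP']
    rfl
  · filter_upwards [hev, eventually_glue P] with P' hP' hg
    have h2 : Q.glue = flipGlue P x (P.glue x) := by rw [hQ]; rfl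
    rw [h2, flipFun, dif_pos hP']
    show flipGlue (rescale P' x (P.glue x)) x (P.glue x) = _
    have : (rescale P' x (P.glue x)).glue = P.glue := by
      funext z; rw [rescale_glue, hg]
    simp only [flipGlue, this]

theorem good_flip {N : ℕ} {P Q : DSurf (Fin N)} {x : Edge (Fin N)} (h : Flip P Q x) :
    Good ⟨N, Q⟩ ⟨N, P⟩ := by
  refine good_of_tendsto (tendsto_flipFun h) ?_
  filter_upwards [eventually_flippable h.flippable] with P' hP'
  rw [flipFun, dif_pos hP']
  have h1 : Quot.mk Move (⟨N, rescale P' x (P.glue x)⟩ : Σ N, DSurf (Fin N)) =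
      Quot.mk Move ⟨N, flipSurf (rescale P' x (P.glue x)) hP'⟩ :=
    Quot.sound (Move.flip _ _ x (flip_flipSurf _ hP'))
  have h2 : Quot.mk Move (⟨N, rescale P' x (P.glue x)⟩ : Σ N, DSurf (Fin N)) =
      Quot.mk Move ⟨N, P'⟩ :=
    Quot.sound (Move.relabel _ _ (rescale_relabel P' x _))
  rw [← h1, h2]

theorem good_flip' {N : ℕ} {P Q : DSurf (Fin N)} {x : Edge (Fin N)} (h : Flip P Q x) :
    Good ⟨N, P⟩ ⟨N, Q⟩ := by
  have h1 := good_flip (flip_flipSurf Q h.fd.flippable)
  have h2 := good_relabel (flip_twice h).symm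
  exact h2.trans h1

theorem good_of_eqvGen {s t : Σ N : ℕ, DSurf (Fin N)} (h : Relation.EqvGen Move s t) :
    Good s t ∧ Good t s := by
  induction h with
  | rel s t h =>
    rcases h with ⟨P, Q, h⟩ | ⟨P, Q, x, h⟩
    · exact ⟨good_relabel h, good_relabel h.symm⟩
    · exact ⟨good_flip' h, good_flip h⟩
  | refl s => exact ⟨Good.refl s, Good.refl s⟩
  | symm s t _ ih => exact ih.symm
  | trans s t u _ _ ih1 ih2 => exact ⟨ih1.1.trans ih2.1, ih2.2.trans ih1.2⟩

theorem isOpenMap_mk : IsOpenMap (fun s : Σ N : ℕ, DSurf (Fin N) => (Quot.mk Move s : Moduli)) := by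
  intro U hU
  rw [show IsOpen ((fun s : Σ N : ℕ, DSurf (Fin N) => (Quot.mk Move s : Moduli)) '' U) ↔
    IsOpen ((Quot.mk Move) ⁻¹' ((fun s : Σ N : ℕ, DSurf (Fin N) => (Quot.mk Move s : Moduli)) '' U))
    from Iff.rfl, isOpen_iff_mem_nhds]
  rintro w ⟨u, hu, e⟩
  have h1 := (good_of_eqvGen (Quot.eqvGen_exact e)).1 U (hU.mem_nhds hu)
  exact mem_of_superset h1 fun w' hw' => hw'

end Run7.h669.Dil
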