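import Pool.Agent.Run7.h669.Dil.Example

/-!
# The family lies in the stratum of genus four with three cone points of angle `6π`
-/

noncomputable section

namespace Run7.h669.Dil

open Filter Topology

/-! ### Transport of `InStratum` -/

section transport

variable {F F' : Type*}

/-- Relabelling the triangles. -/
def DSurf.tr (P : DSurf F') (e : F ≃ F') : DSurf F :=
  P.pull e (fun _ => 0) (fun _ => 1) (fun _ => one_pos)

theorem tr_v (P : DSurf F') (e : F ≃ F') (x : Edge F) :
    (P.tr e).v x = P.v (relEquiv e (fun _ => 0) x) := by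
  show ((1 : ℝ) : ℂ) * P.v (relEquiv e (fun _ => 0) x) = _
  simp

theorem tr_inStratum [Fintype F] [Fintype F'] (P : DSurf F') (e : F ≃ F') {g : ℕ} {κ : List ℕ}
    (h : P.InStratum g κ) : (P.tr e).InStratum g κ := by
  classical
  obtain ⟨h1, f, h2⟩ := h
  refine ⟨by rw [h1, Fintype.card_congr e], ?_⟩
  set E := relEquiv e (fun _ => (0 : Fin 3)) with hE
  have hrel : ∀ x y : Edge F, y = (P.tr e).glue (prv x) ↔ E y = P.glue (prv (E x)) := by
    intro x y
    show y = E.symm (P.glue (E (prv x))) ↔ _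
    rw [Equiv.eq_symm_apply, hE, relEquiv_prv]
  let φ : (P.tr e).Vertex ≃ P.Vertex := Quot.congr E fun x y => hrel x y
  refine ⟨φ.trans f, fun q => ?_⟩
  rw [show (φ.trans f) q = f (φ q) from rfl, ← h2 (φ q), DSurf.coneAngle, DSurf.coneAngle,
    ← E.sum_comp]
  refine Finset.sum_congr rfl fun x _ => ?_
  have hc : (P.tr e).cornerAngle x = P.cornerAngle (E x) := by
    rw [DSurf.cornerAngle, DSurf.cornerAngle, tr_v, tr_v, relEquiv_prv]
  have hq : ((Quot.mk _ x : (P.tr e).Vertex) = q) ↔ ((Quot.mk _ (E x) : P.Vertex) = φ q) :=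
    (φ.injective.eq_iff (a := (Quot.mk _ x : (P.tr e).Vertex)) (b := q)).symm
  rw [hc]
  by_cases h3 : Quot.mk _ x = q
  · rw [if_pos h3, if_pos (hq.1 h3)]
  · rw [if_neg h3, if_neg (fun h4 => h3 (hq.2 h4))]

end transport

/-! ### The angles -/

theorem lev_add (i m : Fin 3) (k : Bool) (j : Fin 3) :
    lev ((i, m, k), j) = i + lev ((0, 0, k), j) := by
  cases k <;> fin_cases j <;> simp [lev]

theorem v0_rot (q : ℝ) (i m : Fin 3) (k : Bool) (j : Fin 3) :
    v0 q ((i, m, k), j) = W i * v0 q ((0, 0, k), j) := by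
  have hz : ∀ j, Z0 q ((i, m, k), j) = W i * Z0 q ((0, 0, k), j) := by
    intro j
    rw [Z0, Z0, lev_add i m, W_add]
    have : h0 q ((i, m, k), j) = h0 q ((0, 0, k), j) := by simp [h0]
    rw [this]
    ring
  rw [v0, v0, hz, show nxt (((i, m, k), j) : Edge T) = ((i, m, k), j + 1) from rfl, hz,
    show nxt (((0, 0, k), j) : Edge T) = ((0, 0, k), j + 1) from rfl]
  ring

theorem cornerAngle_rot (q : ℝ) (hq : 1 < q) (i m : Fin 3) (k : Bool) (j : Fin 3) :
    (Pq q hq).cornerAngle ((i, m, k), j) = (Pq q hq).cornerAngle ((0, 0, k), j) := by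
  show InnerProductGeometry.angle (v0 q ((i, m, k), j)) (-v0 q ((i, m, k), j + 2)) =
    InnerProductGeometry.angle (v0 q ((0, 0, k), j)) (-v0 q ((0, 0, k), j + 2))
  rw [v0_rot q i m, v0_rot q i m, ← mul_neg, Complex.angle_mul_left (W_ne i)]

theorem angle_sum {F : Type*} (P : DSurf F) (x : Edge F) :
    P.cornerAngle x + P.cornerAngle (nxt x) + P.cornerAngle (prv x) = Real.pi := by
  have h := InnerProductGeometry.angle_add_angle_sub_add_angle_sub_eq_pi (P.v x)
    (y := -P.v (prv x)) (neg_ne_zero.2 (P.v_ne _))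
  have hs := P.v_sum x
  have e1 : P.v x - -P.v (prv x) = -P.v (nxt x) := by linear_combination hs
  have e2 : -P.v (prv x) - P.v x = P.v (nxt x) := by linear_combination -hs
  rw [e1, e2] at h
  have e3 : InnerProductGeometry.angle (P.v x) (-P.v (nxt x)) = P.cornerAngle (nxt x) := by
    rw [DSurf.cornerAngle, prv_nxt, InnerProductGeometry.angle_comm,
      ← InnerProductGeometry.angle_neg_neg, neg_neg]
  have e4 : InnerProductGeometry.angle (-P.v (prv x)) (P.v (nxt x)) = P.cornerAngle (prv x) := by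
    rw [DSurf.cornerAngle, prv_prv, ← InnerProductGeometry.angle_neg_neg, neg_neg]
  rw [e3, e4] at h
  exact h

theorem sum_lev (f : Bool → Fin 3 → ℝ) (l : Fin 3) :
    ∑ x : Edge T, (if lev x = l then f x.1.2.2 x.2 else 0) =
      3 * ((f false 0 + f false 1 + f false 2) + (f true 0 + f true 1 + f true 2)) := by
  simp only [Fintype.sum_prod_type, Fin.sum_univ_three, Fintype.sum_bool, lev]
  fin_cases l <;> simp <;> ring

/-! ### The vertices -/

/-- Neighbouring corners. -/
def rot0 (x : Edge T) : Edge T := g0 (prv x)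

/-- The equivalence relation of being corners at the same vertex. -/
theorem corner_eq (q : ℝ) (hq : 1 < q) (x : Edge T) :
    (Quot.mk _ x : (Pq q hq).Vertex) = Quot.mk _ (rot0 x) := Quot.sound rfl

theorem corner_iter (q : ℝ) (hq : 1 < q) (x : Edge T) (n : ℕ) :
    (Quot.mk _ x : (Pq q hq).Vertex) = Quot.mk _ (rot0^[n] x) := by
  induction n generalizing x with
  | zero => rfl
  | succ n ih => rw [Function.iterate_succ_apply, ← ih, ← corner_eq]

theorem rot0_orbit : ∀ x : Edge T, ∃ n : Fin 18, rot0^[n.1] ((lev x, 0, false), 0) = x := by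
  decide

theorem corner_base (q : ℝ) (hq : 1 < q) (x : Edge T) :
    (Quot.mk _ x : (Pq q hq).Vertex) = Quot.mk _ ((lev x, 0, false), 0) := by
  obtain ⟨n, hn⟩ := rot0_orbit x
  rw [corner_iter q hq ((lev x, 0, false), 0) n.1, hn]

theorem lev_rot0 (x : Edge T) : lev (rot0 x) = lev x := by
  have h := lev_nxt_g0 (rot0 x)
  rw [rot0, g0_g0, nxt_prv] at h
  exact h.symm

/-- The vertices correspond to the three rays. -/
def vertexEquiv (q : ℝ) (hq : 1 < q) : (Pq q hq).Vertex ≃ Fin 3 where
  toFun := Quot.lift lev (by rintro x y rfl; exact (lev_rot0 x).symm)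
  invFun := fun i => Quot.mk _ ((i, 0, false), 0)
  left_inv := by
    rintro ⟨x⟩
    exact (corner_base q hq x).symm
  right_inv := fun i => by
    show lev ((i, 0, false), 0) = i
    simp [lev]

theorem Pq_inStratum (q : ℝ) (hq : 1 < q) : (Pq q hq).InStratum 4 [3, 3, 3] := by
  classical
  refine ⟨by simp [T], vertexEquiv q hq, ?_⟩
  intro v
  have hk : (([3, 3, 3] : List ℕ).get (vertexEquiv q hq v) : ℝ) = 3 := by
    generalize vertexEquiv q hq v = n
    have : ∀ n : Fin 3, ([3, 3, 3] : List ℕ).get n = 3 := by decide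
    rw [this n]; norm_num
  rw [hk, DSurf.coneAngle]
  have h1 : ∀ x : Edge T, ((Quot.mk _ x : (Pq q hq).Vertex) = v) ↔
      lev x = vertexEquiv q hq v := fun x =>
    ((vertexEquiv q hq).injective.eq_iff (a := (Quot.mk _ x : (Pq q hq).Vertex)) (b := v)).symm
  have h2 : ∀ x : Edge T, (if Quot.mk _ x = v then (Pq q hq).cornerAngle x else 0) =
      if lev x = vertexEquiv q hq v then
        (fun k j => (Pq q hq).cornerAngle ((0, 0, k), j)) x.1.2.2 x.2 else 0 := by
    rintro ⟨⟨i, m, k⟩, j⟩
    by_cases h : Quot.mk _ (((i, m, k), j) : Edge T) = v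
    · rw [if_pos h, if_pos ((h1 _).1 h)]
      exact cornerAngle_rot q hq i m k j
    · rw [if_neg h, if_neg (fun h' => h ((h1 _).2 h'))]
  rw [Finset.sum_congr rfl fun x _ => h2 x,
    sum_lev (fun k j => (Pq q hq).cornerAngle ((0, 0, k), j)) (vertexEquiv q hq v)]
  have a1 := angle_sum (Pq q hq) ((0, 0, false), 0)
  have a2 := angle_sum (Pq q hq) ((0, 0, true), 0)
  simp only [nxt, prv, zero_add] at a1 a2
  rw [a1, a2]
  ring

/-- Numbering the triangles. -/
def eT : Fin 18 ≃ T := (Fintype.equivFinOfCardEq (by simp [T])).symm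

/-- The surface, with triangles numbered from `0` to `17`. -/
def Pn (q : ℝ) (hq : 1 < q) : DSurf (Fin 18) := (Pq q hq).tr eT

theorem Pn_inStratum (q : ℝ) (hq : 1 < q) : (Pn q hq).InStratum 4 [3, 3, 3] :=
  tr_inStratum _ _ (Pq_inStratum q hq)

theorem continuous_v0 (x : Edge T) : Continuous fun q : ℝ => v0 q x := by
  have hz : ∀ x, Continuous fun q : ℝ => Z0 q x := by
    rintro ⟨⟨i, m, k⟩, j⟩
    have : Continuous fun q : ℝ => h0 q ((i, m, k), j) := by
      cases k <;> fin_cases j <;> simp [h0] <;> fun_prop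
    exact (Complex.continuous_ofReal.comp this).mul continuous_const
  exact (hz _).sub (hz _)

/-- The family of surfaces is continuous. -/
theorem continuous_Pn : Continuous fun q : Set.Ioi (1 : ℝ) => Pn q.1 q.2 := by
  rw [continuous_iff_continuousAt]
  intro q
  rw [ContinuousAt, tendsto_dsurf]
  refine ⟨fun x => ?_, .of_forall fun q' => rfl⟩
  simp only [Pn, tr_v]
  exact ((continuous_v0 _).comp continuous_subtype_val).tendsto q

end Run7.h669.Dil
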